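import Mathlib
import Pool.Agent.Lib.MP_6489b8_al.CT.Ids

/-!
# Sums over the letters of a multiset
-/

namespace MP6489b8.AF

open MP6489b8 MP6489b8.CT

variable {α M : Type*} [AddCommMonoid M]

open scoped Classical in
/-- The sum of `G x (s ∖ x)` over the letters `x` of the multiset `s`. -/
noncomputable def ms (G : α → Multiset α → M) (s : Multiset α) : M :=
  (s.map fun x => G x (s.erase x)).sum

@[simp] theorem ms_zero (G : α → Multiset α → M) : ms G 0 = 0 := by simp [ms]

theorem ms_cons (G : α → Multiset α → M) (c : α) (s : Multiset α) :
    ms G (c ::ₘ s) = G c s + ms (fun x t => G x (c ::ₘ t)) s := by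
  classical
  unfold ms
  rw [Multiset.map_cons, Multiset.sum_cons]
  congr 1
  · congr 1
    convert Multiset.erase_cons_head c s
  · congr 1
    apply Multiset.map_congr rfl
    intro x hx
    congr 1
    by_cases h : x = c
    · subst h
      have := Multiset.cons_erase hx
      calc _ = s := by convert Multiset.erase_cons_head x s
        _ = _ := by convert this.symm
    · convert Multiset.erase_cons_tail s (Ne.symm h)

theorem ms_congr {G H : α → Multiset α → M} (s : Multiset α)
    (h : ∀ x t, x ::ₘ t = s → G x t = H x t) : ms G s = ms H s := by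
  classical
  unfold ms
  congr 1
  apply Multiset.map_congr rfl
  intro x hx
  apply h
  convert Multiset.cons_erase hx

theorem ms_congr' {G H : α → Multiset α → M} (s : Multiset α)
    (h : ∀ x t, G x t = H x t) : ms G s = ms H s := ms_congr s (fun x t _ => h x t)

theorem ms_eq_zero {G : α → Multiset α → M} (s : Multiset α)
    (h : ∀ x t, x ::ₘ t = s → G x t = 0) : ms G s = 0 := by
  rw [ms_congr (H := fun _ _ => 0) s h]
  simp [ms]

theorem ms_eq_zero' {G : α → Multiset α → M} (s : Multiset α)
    (h : ∀ x t, G x t = 0) : ms G s = 0 := ms_eq_zero s (fun x t _ => h x t)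

theorem ms_add (G H : α → Multiset α → M) (s : Multiset α) :
    ms (fun x t => G x t + H x t) s = ms G s + ms H s := by
  simp only [ms, Multiset.sum_map_add]

theorem map_ms {N : Type*} [AddCommMonoid N] (f : M →+ N) (G : α → Multiset α → M)
    (s : Multiset α) : f (ms G s) = ms (fun x t => f (G x t)) s := by
  simp only [ms]
  rw [map_multiset_sum, Multiset.map_map]
  rfl

theorem ms_const (c : M) (s : Multiset α) :
    ms (fun _ _ => c) s = Multiset.card s • c := by
  simp [ms]

theorem ms_total (G : Multiset α → M) (s : Multiset α) :
    ms (fun x t => G (x ::ₘ t)) s = Multiset.card s • G s := by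
  rw [ms_congr (H := fun _ _ => G s) s (fun x t h => by rw [h]), ms_const]

theorem ms_comm (G : α → α → Multiset α → M) (s : Multiset α) :
    ms (fun x t => ms (fun y r => G x y r) t) s = ms (fun x t => ms (fun y r => G y x r) t) s := by
  induction s using Multiset.induction generalizing G with
  | empty => simp
  | cons c s ih =>
    rw [ms_cons, ms_cons]
    simp only [ms_cons]
    rw [ms_add, ms_add, ih (fun x y r => G x y (c ::ₘ r))]
    abel_nf

theorem ms_add4 (G H : α → Multiset α → M) (s : Multiset α) :
    ms G s + ms H s = ms (fun x t => G x t + H x t) s := (ms_add G H s).symm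

section Two

variable {A : Type*} [NonUnitalNonAssocRing A] [Alt2 A]

theorem ms_ms_self (G : α → α → Multiset α → A) (h : ∀ x y t, G x y t = G y x t)
    (s : Multiset α) : ms (fun x t => ms (fun y r => G x y r) t) s = 0 := by
  induction s using Multiset.induction generalizing G with
  | empty => simp
  | cons c s ih =>
    rw [ms_cons]
    simp only [ms_cons]
    rw [ms_add, ih (fun x y r => G x y (c ::ₘ r)) (fun x y t => h x y _), add_zero]
    have : ms (fun x t => G x c t) s = ms (fun x t => G c x t) s :=
      ms_congr' s (fun x t => h x c t)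
    rw [this, two]

end Two

end MP6489b8.AF
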