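import Mathlib
import Pool.Agent.Lib.MP_6489b8_al.AF.Ms
import Pool.Agent.Lib.MP_6489b8_al.Sep

/-!
# Artin forms and the Artin principle
-/

namespace MP6489b8.AF

open MP6489b8 MP6489b8.CT

/-- Words in the letters `g`. -/
abbrev ev {A : Type*} [NonUnitalNonAssocRing A] {ι : Type*} (g : ι → A) (w : FreeMagma ι) : A :=
  FreeMagma.lift g w

section Gen

variable {A : Type*} [NonUnitalNonAssocRing A] {ι : Type*} {g : ι → A}

theorem ev_of (i : ι) : ev g (FreeMagma.of i) = g i := FreeMagma.lift_of g i

theorem ev_mul (p q : FreeMagma ι) : ev g (p * q) = ev g p * ev g q := map_mul _ p q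

/-- Sums of centroid images of words. -/
inductive Sp (g : ι → A) : A → Prop
  | wd (w : FreeMagma ι) : Sp g (ev g w)
  | zero : Sp g 0
  | add {a b : A} : Sp g a → Sp g b → Sp g (a + b)
  | centr (S : Centr A) {a : A} : Sp g a → Sp g (S.f a)

theorem Sp.mul {a b : A} (ha : Sp g a) (hb : Sp g b) : Sp g (a * b) := by
  induction ha with
  | wd w =>
    induction hb with
    | wd v => rw [← ev_mul]; exact Sp.wd _
    | zero => rw [mul_zero]; exact Sp.zero
    | add _ _ h1 h2 => rw [mul_add]; exact Sp.add h1 h2
    | centr S _ h => rw [← S.right]; exact Sp.centr S h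
  | zero => rw [zero_mul]; exact Sp.zero
  | add _ _ h1 h2 => rw [add_mul]; exact Sp.add h1 h2
  | centr S _ h => rw [← S.left]; exact Sp.centr S h

theorem Sp.of_gen {a : A} (ha : Gen g a) : Sp g a := by
  induction ha with
  | of i => rw [← ev_of (g := g) i]; exact Sp.wd _
  | zero => exact Sp.zero
  | add _ _ h1 h2 => exact Sp.add h1 h2
  | mul _ _ h1 h2 => exact Sp.mul h1 h2
  | centr S _ h => exact Sp.centr S h

/-- Induction over sums of centroid images of words. -/
theorem gen_ind {P : A → Prop} {a : A} (ha : Gen g a) (wd : ∀ w : FreeMagma ι, P (ev g w))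
    (zero : P 0) (add : ∀ a b, P a → P b → P (a + b)) (centr : ∀ (S : Centr A) a, P a → P (S.f a)) :
    P a := by
  have := Sp.of_gen ha
  clear ha
  induction this with
  | wd w => exact wd w
  | zero => exact zero
  | add _ _ h1 h2 => exact add _ _ h1 h2
  | centr S _ h => exact centr S _ h

end Gen

/-- Additive functions of the letters of a multiset, commuting with the centroid. -/
structure Mad {A : Type*} [NonUnitalNonAssocRing A] (F : Multiset A → A) : Prop where
  add : ∀ a b s, F ((a + b) ::ₘ s) = F (a ::ₘ s) + F (b ::ₘ s)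
  centr : ∀ (S : Centr A) a s, F (S.f a ::ₘ s) = S.f (F (a ::ₘ s))

/-- Artin forms of degree `n`: alternating functions `F` of `n` letters with
`F(ab, s) = a F(b, s) + F(a, s) b + ∑ [x, F(a, b, s ∖ x)]`. -/
structure Art {A : Type*} [NonUnitalNonAssocRing A] (n : ℕ) (F : Multiset A → A) : Prop
    extends Mad F where
  len : ∀ s, Multiset.card s ≠ n → F s = 0
  alt : ∀ a s, F (a ::ₘ a ::ₘ s) = 0
  mul : ∀ a b s, F ((a * b) ::ₘ s) = a * F (b ::ₘ s) + F (a ::ₘ s) * b +
    ms (fun x t => D x (F (a ::ₘ b ::ₘ t))) s

namespace Mad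

variable {A : Type*} [NonUnitalNonAssocRing A] {F : Multiset A → A} (h : Mad F)
include h

theorem zero (s : Multiset A) : F (0 ::ₘ s) = 0 := by
  have := h.add 0 0 s
  rw [add_zero] at this
  exact left_eq_add.1 this

/-- A function of this kind which vanishes on words vanishes. -/
theorem eq_zero {ι : Type*} {g : ι → A} (hg : ∀ a, Gen g a)
    (h0 : ∀ W : Multiset (FreeMagma ι), F (W.map (ev g)) = 0) (s : Multiset A) : F s = 0 := by
  have key : ∀ (s : Multiset A) (W : Multiset (FreeMagma ι)), F (s + W.map (ev g)) = 0 := by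
    intro s
    induction s using Multiset.induction with
    | empty => intro W; rw [zero_add]; exact h0 W
    | cons a s ih =>
      intro W
      refine gen_ind (P := fun a => F (a ::ₘ s + W.map (ev g)) = 0) (hg a) ?_ ?_ ?_ ?_
      · intro w
        have := ih (w ::ₘ W)
        rw [Multiset.map_cons, Multiset.add_cons] at this
        rw [Multiset.cons_add]; exact this
      · rw [Multiset.cons_add]; exact h.zero _
      · intro a b ha hb
        rw [Multiset.cons_add] at *
        rw [h.add, ha, hb, add_zero]
      · intro S a ha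
        rw [Multiset.cons_add] at *
        rw [h.centr, ha, map_zero]
  have := key s 0
  simpa using this

end Mad

theorem len_pos {ι : Type*} (w : FreeMagma ι) : 1 ≤ w.length := by
  induction w with
  | ih1 => simp [FreeMagma.length]
  | ih2 a b ha hb =>
    have : (a * b).length = a.length + b.length := rfl
    omega

theorem len_mul {ι : Type*} (p q : FreeMagma ι) : (p * q).length = p.length + q.length := rfl

/-- Total length of a multiset of words. -/
def wt {ι : Type*} (W : Multiset (FreeMagma ι)) : ℕ := (W.map FreeMagma.length).sum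

theorem wt_cons {ι : Type*} (w : FreeMagma ι) (W : Multiset (FreeMagma ι)) :
    wt (w ::ₘ W) = w.length + wt W := by simp [wt]

theorem map_cons_ev {A : Type*} [NonUnitalNonAssocRing A] {ι : Type*} {g : ι → A}
    {W : Multiset (FreeMagma ι)} {x : A} {t : Multiset A} (h : x ::ₘ t = W.map (ev g)) :
    ∃ w V, W = w ::ₘ V ∧ x = ev g w ∧ t = V.map (ev g) := by
  classical
  have hx : x ∈ W.map (ev g) := by rw [← h]; exact Multiset.mem_cons_self x t
  obtain ⟨w, hw, rfl⟩ := Multiset.mem_map.1 hx
  obtain ⟨V, rfl⟩ := Multiset.exists_cons_of_mem hw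
  refine ⟨w, V, rfl, rfl, ?_⟩
  rw [Multiset.map_cons] at h
  exact (Multiset.cons_inj_right _).1 h

/-- A multiset of words either consists of letters or contains a product. -/
theorem letters_or {ι : Type*} (W : Multiset (FreeMagma ι)) :
    (∃ L : Multiset ι, W = L.map FreeMagma.of) ∨ ∃ p q V, W = (p * q) ::ₘ V := by
  induction W using Multiset.induction with
  | empty => exact Or.inl ⟨0, by simp⟩
  | cons w W ih =>
    rcases ih with ⟨L, rfl⟩ | ⟨p, q, V, rfl⟩
    · induction w with
      | ih1 i => exact Or.inl ⟨i ::ₘ L, by simp⟩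
      | ih2 a b _ _ => exact Or.inr ⟨a, b, _, rfl⟩
    · exact Or.inr ⟨p, q, w ::ₘ V, Multiset.cons_swap _ _ _⟩

/-- Pigeonhole. -/
theorem exists_dup {ι : Type*} [Fintype ι] (L : Multiset ι) (h : Fintype.card ι < Multiset.card L) :
    ∃ i L', L = i ::ₘ i ::ₘ L' := by
  classical
  by_contra hne
  have hnd : L.Nodup := by
    rw [Multiset.nodup_iff_le]
    intro a ha
    obtain ⟨u, rfl⟩ := Multiset.le_iff_exists_add.1 ha
    exact hne ⟨a, u, by simp⟩
  have := Finset.card_le_univ (⟨L, hnd⟩ : Finset ι)
  simp at this
  omega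

section

variable {A : Type*} [NonUnitalNonAssocRing A] {n : ℕ} {F : Multiset A → A} (h : Art n F)
include h

/-- **The Artin principle**: an Artin form of degree `n` vanishes in every ring generated by
fewer than `n` elements. -/
theorem Art.vanish {ι : Type*} [Fintype ι] (hι : Fintype.card ι < n) (g : ι → A)
    (hg : ∀ a, Gen g a) (s : Multiset A) : F s = 0 := by
  apply h.toMad.eq_zero hg
  have key : ∀ (N : ℕ) (W : Multiset (FreeMagma ι)), wt W ≤ N → F (W.map (ev g)) = 0 := by
    intro N
    induction N with
    | zero =>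
      intro W hW
      rcases letters_or W with ⟨L, rfl⟩ | ⟨p, q, V, rfl⟩
      · by_cases hc : Multiset.card L = n
        · rcases L.empty_or_exists_mem with rfl | ⟨i, hi⟩
          · simp at hc; omega
          · obtain ⟨L', rfl⟩ := Multiset.exists_cons_of_mem hi
            rw [Multiset.map_cons, wt_cons] at hW
            have := len_pos (FreeMagma.of i)
            omega
        · exact h.len _ (by simpa using hc)
      · rw [wt_cons] at hW
        have := len_pos (p * q)
        omega
    | succ N ih =>
      intro W hW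
      rcases letters_or W with ⟨L, rfl⟩ | ⟨p, q, V, rfl⟩
      · by_cases hc : Multiset.card L = n
        · obtain ⟨i, L', rfl⟩ := exists_dup L (by omega)
          simp only [Multiset.map_cons]
          exact h.alt _ _
        · exact h.len _ (by simpa using hc)
      · rw [wt_cons, len_mul] at hW
        have hp := len_pos p
        have hq := len_pos q
        rw [Multiset.map_cons, ev_mul, h.mul]
        have e1 := ih (q ::ₘ V) (by rw [wt_cons]; omega)
        have e2 := ih (p ::ₘ V) (by rw [wt_cons]; omega)
        rw [Multiset.map_cons] at e1 e2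
        rw [e1, e2, mul_zero, zero_mul, zero_add, zero_add]
        apply ms_eq_zero
        intro x t hx
        obtain ⟨w, U, rfl, rfl, rfl⟩ := map_cons_ev hx
        have hw := len_pos w
        rw [wt_cons] at hW
        have e3 := ih (p ::ₘ q ::ₘ U) (by rw [wt_cons, wt_cons]; omega)
        simp only [Multiset.map_cons] at e3
        rw [e3, D_zero2]
  exact fun W => key (wt W) W le_rfl

end

end MP6489b8.AF
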