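import Mathlib
import Pool.Agent.Lib.MP_6489b8_al.AF.Prin

/-!
# From natural functions to strict steps
-/

namespace MP6489b8.AF

open MP6489b8 MP6489b8.CT

universe u

/-- Natural functions of lists, defined in all nonassociative rings. -/
def Natl (P : ∀ (B : Type u) [NonUnitalNonAssocRing B], List B → B) : Prop :=
  ∀ (B C : Type u) [NonUnitalNonAssocRing B] [NonUnitalNonAssocRing C] (φ : B →ₙ+* C)
    (xs : List B), φ (P B xs) = P C (xs.map φ)

/-- `P` vanishes on the rings with `2A = 0` generated by `m` elements. -/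
def VanOn (m : ℕ) (P : ∀ (B : Type u) [NonUnitalNonAssocRing B], List B → B) : Prop :=
  ∀ (A : Type u) [NonUnitalNonAssocRing A] [Alt2 A] (g : Fin m → A), (∀ a, Gen g a) →
    ∀ xs : List A, P A xs = 0

variable {P : ∀ (B : Type u) [NonUnitalNonAssocRing B], List B → B}

theorem vanish_two (hP : Natl P) {m : ℕ} (hv : VanOn m P) {A : Type u} [NonUnitalNonAssocRing A]
    (hA : IsAlt A) (g : Fin m → A) (hg : ∀ a, Gen g a) (xs : List A) : ∃ b, 2 • b = P A xs := by
  rw [← toModN_eq_zero]
  have h1 := hP A (ModN 2 A) toModNHom xs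
  rw [toModNHom_apply] at h1
  rw [h1]
  have hM : IsAltN 2 (ModN 2 A) := isAltN_modN hA
  have : Alt2 (ModN 2 A) := ⟨hM.1, fun a => by rw [← two_nsmul]; exact hM.2 a⟩
  apply hv (ModN 2 A) (fun i => toModN (n := 2) (g i))
  intro a
  obtain ⟨a, rfl⟩ := toModN_surjective a
  exact (hg a).modN

/-- **Separation.** If the natural function `P` vanishes on the rings with `2A = 0` generated by
`m` elements, `s 2 = 0` in `Φ` and `s P` does not vanish at some `m + 1` elements of an
alternative `Φ`-algebra, then the step from `Alt_m(Φ)` to `Alt_{m+1}(Φ)` is strict. -/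
theorem strict_of (hP : Natl P) {m : ℕ} (hm : 0 < m) (hv : VanOn m P)
    (Φ : Type u) [CommRing Φ] (s : Φ) (hs : s * 2 = 0) (A : Type u) [NonUnitalNonAssocRing A]
    [Module Φ A] [IsScalarTower Φ A A] [SMulCommClass Φ A A] (hA : IsAlt A)
    (x : Fin (m + 1) → A) (hne : s • P A (List.ofFn x) ≠ 0) : StrictStep Φ m := by
  apply strictStep_of hm
  let xs : List (FreeNA Φ ℕ) := List.ofFn (fun i : Fin (m + 1) =>
    FreeNonUnitalNonAssocAlgebra.of Φ i.1)
  let f : FreeNA Φ ℕ := s • P (FreeNA Φ ℕ) xs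
  have hf : ∀ (B : Type u) [NonUnitalNonAssocRing B] [Module Φ B]
      [IsScalarTower Φ B B] [SMulCommClass Φ B B] (g : ℕ → B),
      FreeNonUnitalNonAssocAlgebra.lift Φ g f =
        s • P B (List.ofFn (fun i : Fin (m + 1) => g i.1)) := by
    intro B _ _ _ _ g
    have h1 := hP (FreeNA Φ ℕ) B (ringOf (FreeNonUnitalNonAssocAlgebra.lift Φ g)) xs
    simp only [ringOf_apply] at h1
    rw [show FreeNonUnitalNonAssocAlgebra.lift Φ g f =
      s • FreeNonUnitalNonAssocAlgebra.lift Φ g (P (FreeNA Φ ℕ) xs) from map_smul _ _ _, h1]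
    congr 2
    simp only [xs, List.map_ofFn]
    congr 1
    funext i
    exact FreeNonUnitalNonAssocAlgebra.lift_of_apply (R := Φ) g i.1
  refine ⟨f, ?_, ?_⟩
  · intro g
    rw [hf]
    obtain ⟨b, hb⟩ := vanish_two hP hv (isAlt_freeAlt (Φ := Φ) (X := Fin m)) gen
      gen_freeAlt (List.ofFn (fun i : Fin (m + 1) => g i.1))
    rw [← hb, ← Nat.cast_smul_eq_nsmul Φ, smul_smul]
    rw [show s * ((2 : ℕ) : Φ) = 0 by push_cast; exact hs, zero_smul]
  · intro h
    have h1 := h (fun i => gen (Fin.ofNat (m + 1) i))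
    rw [hf] at h1
    have h2 := congrArg (liftAlt (Φ := Φ) hA x) h1
    rw [map_smul, map_zero] at h2
    have h3 := hP (FreeAlt Φ (Fin (m + 1))) A (ringOf (liftAlt (Φ := Φ) hA x))
      (List.ofFn (fun i : Fin (m + 1) => gen (Fin.ofNat (m + 1) i.1)))
    simp only [ringOf_apply] at h3
    rw [h3] at h2
    apply hne
    rw [← h2]
    congr 2
    rw [List.map_ofFn]
    congr 1
    funext i
    simp only [Function.comp_apply, ringOf_apply]
    rw [liftAlt_gen]
    congr 1
    ext
    simp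

end MP6489b8.AF
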