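import Mathlib
import Pool.Agent.Lib.MP_6489b8_al.AF.Pass

/-!
# The base form of degree five
-/

namespace MP6489b8.AF

open MP6489b8 MP6489b8.CT

universe u

/-- The form `∑ (x_i, x_j, (x_k, x_l, x_m))` over the ten pairs. -/
def f5 {A : Type*} [NonUnitalNonAssocRing A] (a b c d e : A) : A :=
  as a b (as c d e) + as a c (as b d e) + as a d (as b c e) + as a e (as b c d) +
  as b c (as a d e) + as b d (as a c e) + as b e (as a c d) +
  as c d (as a b e) + as c e (as a b d) + as d e (as a b c)

section

variable {A : Type*} [NonUnitalNonAssocRing A] [Alt2 A]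

/-- The associator is an Artin form. -/
theorem phi_mul (a b c u : A) :
    as (a * b) c u = a * as b c u + as a c u * b + D c (as a b u) + D u (as a b c) := by
  rw [key a b c u, ider a b c u, asC a b (D c u), asC b (D c u) a, ider c u a b,
    asC u a b, asC c a b]
  apply eq_of_add
  simp only [D]
  abel_nf
  simp only [twoZ, add_zero]

theorem rho_D (a b c u : A) :
    as a b (D c u) = D c (as a b u) + D (as a b c) u := by
  rw [D_rho, add_assoc, two, add_zero]

/-- `P_p (P_q (a b))`. -/
theorem rr_mul (x y z w a b : A) :
    as x y (as (a * b) z w) = as x y (as a z w) * b + a * as x y (as b z w) +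
      (as a z w * as b x y + as a x y * as b z w) +
      (D x (as b y (as a z w)) + D y (as b x (as a z w))) +
      (D x (as a y (as b z w)) + D y (as a x (as b z w))) +
      (D z (as x y (as a b w)) + D (as x y z) (as a b w) +
        D w (as x y (as a b z)) + D (as x y w) (as a b z)) := by
  rw [asC (a * b) z w, le z w a b, as_add3, as_add3, le x y _ b, le x y a,
    ider x y (as z w a) b, ider x y a (as z w b), ider z w a b, as_add3,
    rho_D x y z (as w a b), rho_D x y w (as z a b), asC' z w a, asC' z w b, asC' x y a,
    asC' x y b, asC w a b, asC z a b, as23 y (as a z w) b, as12 y b, as23 x (as a z w) b,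
    as12 x b (as a z w), as12 y a (as b z w), as12 x a (as b z w)]
  apply eq_of_add
  abel_nf
  simp only [twoZ, add_zero]

theorem f5_mul (a b c d e g : A) :
    f5 (a * b) c d e g = a * f5 b c d e g + f5 a c d e g * b +
      (D c (f5 a b d e g) + (D d (f5 a b c e g) + (D e (f5 a b c d g) + D g (f5 a b c d e)))) := by
  have h1 := rr_mul c d e g a b
  have h2 := rr_mul c e d g a b
  have h3 := rr_mul c g d e a b
  have h4 := rr_mul d e c g a b
  have h5 := rr_mul d g c e a b
  have h6 := rr_mul e g c d a b
  have k1 := phi_mul a b c (as d e g)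
  have k2 := phi_mul a b d (as c e g)
  have k3 := phi_mul a b e (as c d g)
  have k4 := phi_mul a b g (as c d e)
  have s1 : as c e d = as c d e := as23 _ _ _
  have s2 : as d e c = as c d e := asC' _ _ _
  have s3 : as c g d = as c d g := as23 _ _ _
  have s4 : as d g c = as c d g := asC' _ _ _
  have s5 : as c g e = as c e g := as23 _ _ _
  have s6 : as e g c = as c e g := asC' _ _ _
  have s7 : as d g e = as d e g := as23 _ _ _
  have s8 : as e g d = as d e g := asC' _ _ _
  rw [s1] at h2
  rw [s2] at h4
  rw [s3] at h3
  rw [s4] at h5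
  rw [s5] at h3
  rw [s6] at h6
  rw [s7] at h5
  rw [s8] at h6
  have e1 : f5 (a * b) c d e g =
      as (a * b) c (as d e g) + as (a * b) d (as c e g) + as (a * b) e (as c d g) +
        as (a * b) g (as c d e) + as c d (as (a * b) e g) + as c e (as (a * b) d g) +
        as c g (as (a * b) d e) + as d e (as (a * b) c g) + as d g (as (a * b) c e) +
        as e g (as (a * b) c d) := rfl
  rw [e1, h1, h2, h3, h4, h5, h6, k1, k2, k3, k4]
  simp only [f5, mul_add, add_mul, D_add2]
  rw [D_comm (as d e g), D_comm (as c e g), D_comm (as c d g), D_comm (as c d e)]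
  apply eq_of_add
  abel_nf
  simp only [twoZ, fourZ, add_zero]

/-- A function of lists which is invariant under adjacent transpositions is symmetric. -/
theorem perm_adj {α β : Type*} (L : List α → β)
    (h : ∀ (us : List α) (a b : α) (vs : List α), L (us ++ a :: b :: vs) = L (us ++ b :: a :: vs))
    {xs ys : List α} (hp : xs.Perm ys) : L xs = L ys := by
  have key : ∀ xs ys : List α, xs.Perm ys → ∀ us : List α, L (us ++ xs) = L (us ++ ys) := by
    intro xs ys hp
    induction hp with
    | nil => intro us; rfl
    | cons x _ ih => intro us; simpa using ih (us ++ [x])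
    | swap x y l => intro us; exact h us y x l
    | trans h1 _ ih1 ih2 => intro us; rw [ih1 us, ih2 us]
  exact key xs ys hp []

theorem f5_sw1 (a b c d e : A) : f5 a b c d e = f5 b a c d e := by
  rw [f5, f5, as12 a b (as c d e), as12 a b c, as12 a b d, as12 a b e]; abel

theorem f5_sw2 (a b c d e : A) : f5 a b c d e = f5 a c b d e := by
  rw [f5, f5, as12 b c d, as12 b c e, as12 b c (as a d e), as23 a b c]; abel

theorem f5_sw3 (a b c d e : A) : f5 a b c d e = f5 a b d c e := by
  rw [f5, f5, as23 b c d, as12 c d e, as12 c d (as a b e), as23 a c d]; abel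

theorem f5_sw4 (a b c d e : A) : f5 a b c d e = f5 a b c e d := by
  rw [f5, f5, as23 c d e, as23 b d e, as23 a d e, as12 d e (as a b c)]; abel

theorem f5_alt (a c d e : A) : f5 a a c d e = 0 := by
  rw [f5, as_self12, as_self12, as_self12, as_self12, as_zero3, as_zero3, as_zero3]
  abel_nf
  simp only [twoZ, add_zero]

omit [Alt2 A] in
theorem f5_add (a a' b c d e : A) : f5 (a + a') b c d e = f5 a b c d e + f5 a' b c d e := by
  simp only [f5, as_add1, as_add3]; abel

end

/-- The form as a function of lists. -/
def F5 (B : Type u) [NonUnitalNonAssocRing B] : List B → B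
  | [a, b, c, d, e] => f5 a b c d e
  | _ => 0

theorem F5_len {B : Type u} [NonUnitalNonAssocRing B] (xs : List B) (h : xs.length ≠ 5) :
    F5 B xs = 0 := by
  match xs with
  | [] => rfl
  | [_] => rfl
  | [_, _] => rfl
  | [_, _, _] => rfl
  | [_, _, _, _] => rfl
  | [_, _, _, _, _] => simp at h
  | _ :: _ :: _ :: _ :: _ :: _ :: _ => rfl

theorem F5_adj {B : Type u} [NonUnitalNonAssocRing B] [Alt2 B] (us : List B) (a b : B)
    (vs : List B) : F5 B (us ++ a :: b :: vs) = F5 B (us ++ b :: a :: vs) := by
  by_cases h : us.length + vs.length = 3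
  · have hc : us.length = 0 ∧ vs.length = 3 ∨ us.length = 1 ∧ vs.length = 2 ∨
        us.length = 2 ∧ vs.length = 1 ∨ us.length = 3 ∧ vs.length = 0 := by omega
    rcases hc with ⟨h1, h2⟩ | ⟨h1, h2⟩ | ⟨h1, h2⟩ | ⟨h1, h2⟩
    · obtain rfl := List.length_eq_zero_iff.1 h1
      obtain ⟨x, y, z, rfl⟩ := List.length_eq_three.1 h2
      exact f5_sw1 _ _ _ _ _
    · obtain ⟨x, rfl⟩ := List.length_eq_one_iff.1 h1
      obtain ⟨y, z, rfl⟩ := List.length_eq_two.1 h2
      exact f5_sw2 _ _ _ _ _
    · obtain ⟨x, y, rfl⟩ := List.length_eq_two.1 h1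
      obtain ⟨z, rfl⟩ := List.length_eq_one_iff.1 h2
      exact f5_sw3 _ _ _ _ _
    · obtain ⟨x, y, z, rfl⟩ := List.length_eq_three.1 h1
      obtain rfl := List.length_eq_zero_iff.1 h2
      exact f5_sw4 _ _ _ _ _
  · rw [F5_len _ (by simp; omega), F5_len _ (by simp; omega)]

theorem map_f5 {B C : Type*} [NonUnitalNonAssocRing B] [NonUnitalNonAssocRing C] (φ : B →ₙ+* C)
    (a b c d e : B) : φ (f5 a b c d e) = f5 (φ a) (φ b) (φ c) (φ d) (φ e) := by
  simp only [f5, as, map_add, map_mul]

theorem natl_F5 : Natl.{u} F5 := by
  intro B C _ _ φ xs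
  by_cases h : xs.length = 5
  · match xs, h with
    | [a, b, c, d, e], _ => exact map_f5 φ a b c d e
  · rw [F5_len _ h, F5_len _ (by simpa using h), map_zero]

theorem as_centr1 {B : Type*} [NonUnitalNonAssocRing B] (S : Centr B) (a b c : B) :
    as (S.f a) b c = S.f (as a b c) := by
  simp only [as, map_add, S.left]

theorem as_centr3 {B : Type*} [NonUnitalNonAssocRing B] (S : Centr B) (a b c : B) :
    as a b (S.f c) = S.f (as a b c) := by
  simp only [as, map_add, S.right]

theorem f5_centr {B : Type*} [NonUnitalNonAssocRing B] (S : Centr B) (a b c d e : B) :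
    f5 (S.f a) b c d e = S.f (f5 a b c d e) := by
  simp only [f5, as_centr1, as_centr3, map_add]

/-- Multiset form of a symmetric function of lists. -/
def toM {α β : Type*} (L : List α → β) (h : ∀ xs ys : List α, xs.Perm ys → L xs = L ys)
    (s : Multiset α) : β := Quotient.liftOn s L h

theorem toM_coe {α β : Type*} (L : List α → β) (h : ∀ xs ys : List α, xs.Perm ys → L xs = L ys)
    (xs : List α) : toM L h (xs : Multiset α) = L xs := rfl

theorem toM_cons {α β : Type*} (L : List α → β) (h : ∀ xs ys : List α, xs.Perm ys → L xs = L ys)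
    (a : α) (xs : List α) : toM L h (a ::ₘ (xs : Multiset α)) = L (a :: xs) := rfl

theorem art_F5 (A : Type u) [NonUnitalNonAssocRing A] [Alt2 A] :
    ∃ G : Multiset A → A, Art 5 G ∧ ∀ xs : List A, F5 A xs = G xs := by
  have hp : ∀ xs ys : List A, xs.Perm ys → F5 A xs = F5 A ys := fun xs ys h => perm_adj _ F5_adj h
  refine ⟨toM (F5 A) hp, ?_, fun xs => rfl⟩
  refine ⟨⟨?_, ?_⟩, ?_, ?_, ?_⟩
  · intro a b s
    induction s using Quotient.inductionOn with
    | h xs =>
      change F5 A ((a + b) :: xs) = F5 A (a :: xs) + F5 A (b :: xs)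
      by_cases h : xs.length = 4
      · match xs, h with
        | [_, _, _, _], _ => exact f5_add _ _ _ _ _ _
      · rw [F5_len _ (by simpa using h), F5_len _ (by simpa using h),
          F5_len _ (by simpa using h), add_zero]
  · intro S a s
    induction s using Quotient.inductionOn with
    | h xs =>
      change F5 A (S.f a :: xs) = S.f (F5 A (a :: xs))
      by_cases h : xs.length = 4
      · match xs, h with
        | [_, _, _, _], _ => exact f5_centr _ _ _ _ _ _
      · rw [F5_len _ (by simpa using h), F5_len _ (by simpa using h), map_zero]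
  · intro s hs
    induction s using Quotient.inductionOn with
    | h xs => exact F5_len _ (by simpa using hs)
  · intro a s
    induction s using Quotient.inductionOn with
    | h xs =>
      change F5 A (a :: a :: xs) = 0
      by_cases h : xs.length = 3
      · match xs, h with
        | [_, _, _], _ => exact f5_alt _ _ _ _
      · rw [F5_len _ (by simpa using h)]
  · intro a b s
    induction s using Quotient.inductionOn with
    | h xs =>
      by_cases h : xs.length = 4
      · match xs, h with
        | [c, d, e, g], _ =>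
          have e1 : ∀ (c d e g : A), (⟦[c, d, e, g]⟧ : Multiset A) =
            c ::ₘ d ::ₘ e ::ₘ g ::ₘ 0 := fun _ _ _ _ => rfl
          rw [e1]
          simp only [ms_cons, ms_zero, add_zero]
          exact f5_mul a b c d e g
      · have z : ∀ c : A, toM (F5 A) hp (c ::ₘ (xs : Multiset A)) = 0 := fun c =>
          F5_len _ (by simpa using h)
        change toM (F5 A) hp ((a * b) ::ₘ (xs : Multiset A)) = _
        rw [z]
        change 0 = a * toM (F5 A) hp (b ::ₘ (xs : Multiset A)) +
          toM (F5 A) hp (a ::ₘ (xs : Multiset A)) * b + ms _ (xs : Multiset A)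
        rw [z, z, mul_zero, zero_mul, zero_add, zero_add, ms_eq_zero]
        intro x t ht
        induction t using Quotient.inductionOn with
        | h ys =>
          have hl : Multiset.card (x ::ₘ (ys : Multiset A)) = Multiset.card (xs : Multiset A) :=
            congrArg Multiset.card ht
          simp only [Multiset.card_cons, Multiset.coe_card] at hl
          change D x (F5 A (a :: b :: ys)) = 0
          rw [F5_len _ (by simp; omega), D_zero2]

end MP6489b8.AF
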