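import Mathlib
import Pool.Agent.Lib.MP_6489b8_al.AF.Base5

/-!
# The family of forms, as natural functions of lists
-/

namespace MP6489b8.AF

open MP6489b8 MP6489b8.CT

universe u v

/-- The divided step. -/
def tauL {B : Type*} [NonUnitalNonAssocRing B] (L : List B → B) : List B → B
  | a :: b :: c :: xs => D a b * L (c :: xs) + D b c * L (a :: xs) + D c a * L (b :: xs)
  | _ => 0

/-- The forms of degree `5 + 2 k`. -/
def FL : ℕ → ∀ (B : Type u) [NonUnitalNonAssocRing B], List B → B
  | 0 => F5
  | k + 1 => fun B _ => tauL (FL k B)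

/-- `∑ [x, L (the other letters)]`. -/
def XL {B : Type*} [NonUnitalNonAssocRing B] : (List B → B) → List B → B
  | _, [] => 0
  | L, x :: xs => D x (L xs) + XL (fun t => L (x :: t)) xs

/-- The forms of degree `6 + 2 k`. -/
def XFL (k : ℕ) (B : Type u) [NonUnitalNonAssocRing B] (xs : List B) : B := XL (FL k B) xs

theorem map_D' {B C : Type*} [NonUnitalNonAssocRing B] [NonUnitalNonAssocRing C] (φ : B →ₙ+* C)
    (a b : B) : φ (D a b) = D (φ a) (φ b) := by
  simp only [D, map_add, map_mul]

theorem map_F5 {B : Type u} {C : Type v} [NonUnitalNonAssocRing B] [NonUnitalNonAssocRing C]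
    (φ : B →ₙ+* C) (xs : List B) : φ (F5 B xs) = F5 C (xs.map φ) := by
  by_cases h : xs.length = 5
  · match xs, h with
    | [a, b, c, d, e], _ => exact map_f5 φ a b c d e
  · rw [F5_len _ h, F5_len _ (by simpa using h), map_zero]

theorem map_FL (k : ℕ) {B : Type u} {C : Type v} [NonUnitalNonAssocRing B]
    [NonUnitalNonAssocRing C] (φ : B →ₙ+* C) (xs : List B) :
    φ (FL k B xs) = FL k C (xs.map φ) := by
  induction k generalizing xs with
  | zero => exact map_F5 φ xs
  | succ k ih =>
    match xs with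
    | [] => exact map_zero φ
    | [_] => exact map_zero φ
    | [_, _] => exact map_zero φ
    | a :: b :: c :: xs =>
      change φ (D a b * FL k B (c :: xs) + D b c * FL k B (a :: xs) + D c a * FL k B (b :: xs)) =
        D (φ a) (φ b) * FL k C (φ c :: xs.map φ) + D (φ b) (φ c) * FL k C (φ a :: xs.map φ) +
          D (φ c) (φ a) * FL k C (φ b :: xs.map φ)
      simp only [map_add, map_mul, map_D', ih, List.map_cons]

theorem map_XL {B C : Type*} [NonUnitalNonAssocRing B] [NonUnitalNonAssocRing C] (φ : B →ₙ+* C)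
    (L : List B → B) (L' : List C → C) (h : ∀ xs, φ (L xs) = L' (xs.map φ)) (xs : List B) :
    φ (XL L xs) = XL L' (xs.map φ) := by
  induction xs generalizing L L' with
  | nil => exact map_zero φ
  | cons x xs ih =>
    change φ (D x (L xs) + XL (fun t => L (x :: t)) xs) =
      D (φ x) (L' (xs.map φ)) + XL (fun t => L' (φ x :: t)) (xs.map φ)
    rw [map_add, map_D', h, ih (fun t => L (x :: t)) (fun t => L' (φ x :: t))
      (fun t => h (x :: t))]

theorem map_XFL (k : ℕ) {B : Type u} {C : Type v} [NonUnitalNonAssocRing B]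
    [NonUnitalNonAssocRing C] (φ : B →ₙ+* C) (xs : List B) :
    φ (XFL k B xs) = XFL k C (xs.map φ) :=
  map_XL φ _ _ (map_FL k φ) xs

theorem natl_FL (k : ℕ) : Natl.{u} (FL k) := fun _ _ _ _ φ xs => map_FL k φ xs

theorem natl_XFL (k : ℕ) : Natl.{u} (XFL k) := fun _ _ _ _ φ xs => map_XFL k φ xs

theorem XL_eq {A : Type*} [NonUnitalNonAssocRing A] (L : List A → A) (G : Multiset A → A)
    (h : ∀ xs : List A, L xs = G xs) (xs : List A) :
    XL L xs = ms (fun x t => D x (G t)) (xs : Multiset A) := by
  induction xs generalizing L G with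
  | nil => simp [XL]
  | cons x xs ih =>
    rw [← Multiset.cons_coe, ms_cons]
    change D x (L xs) + XL (fun t => L (x :: t)) xs = _
    rw [h, ih (fun t => L (x :: t)) (fun t => G (x ::ₘ t)) (fun t => h (x :: t))]

end MP6489b8.AF
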