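import Mathlib
import Pool.Agent.Lib.MP_6489b8_al.AF.Prin

/-!
# Artin forms of odd degree: the 4-cycle relations
-/

set_option linter.unusedSimpArgs false

namespace MP6489b8.AF

open MP6489b8 MP6489b8.CT

section

variable {A : Type*} [NonUnitalNonAssocRing A]

theorem ms_mul (G : A → Multiset A → A) (s : Multiset A) (c : A) :
    ms G s * c = ms (fun x t => G x t * c) s :=
  map_ms (AddMonoidHom.mulRight c) G s

theorem mul_ms (G : A → Multiset A → A) (s : Multiset A) (c : A) :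
    c * ms G s = ms (fun x t => c * G x t) s :=
  map_ms (AddMonoidHom.mulLeft c) G s

theorem D_ms (G : A → Multiset A → A) (s : Multiset A) (c : A) :
    D c (ms G s) = ms (fun x t => D c (G x t)) s := by
  simp only [D, mul_ms, ms_mul]
  rw [← ms_add]

/-- `[x, a] w + (x, a, w)`. -/
def sg (x a w : A) : A := D x a * w + as x a w

/-- `w [x, a] + (x, a, w)`. -/
def sg' (x a w : A) : A := w * D x a + as x a w

variable [Alt2 A]

theorem two_add (x y : A) : x + y + y = x := by rw [add_assoc, two, add_zero]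

theorem sg_eq (x a w : A) : a * D x w + D x (a * w) = sg x a w := by
  have h1 : as x a w + as a x w + as a w x = as x a w := by
    rw [as12 a x w, as23 a w x, as12 a x w, two, zero_add]
  rw [sg, ← h1]
  simp only [as, D, mul_add, add_mul]
  (apply eq_of_add; abel_nf; try simp only [twoZ, fourZ, sixZ, eightZ, add_zero, zero_add])

theorem two_mul_comm (a c w : A) : a * (c * w) + c * (a * w) = D a c * w := by
  have h1 : as a c w + as c a w = 0 := by rw [as12, two]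
  rw [← add_zero (D a c * w), ← h1]
  simp only [as, D, add_mul]
  (apply eq_of_add; abel_nf; try simp only [twoZ, fourZ, sixZ, eightZ, add_zero, zero_add])

theorem mul_two_comm (w d b : A) : (w * d) * b + (w * b) * d = w * D b d := by
  have h1 : as w b d + as w d b = 0 := by rw [as23, two]
  rw [← add_zero (w * D b d), ← h1]
  simp only [as, D, mul_add]
  (apply eq_of_add; abel_nf; try simp only [twoZ, fourZ, sixZ, eightZ, add_zero, zero_add])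

theorem mid_assoc (a d w : A) : a * (w * d) + (a * w) * d = as a d w := by
  rw [as23 a d w, as, add_comm]

theorem D_mul_assoc (a b w : A) : a * D b w + D a w * b + D (a * b) w = as a b w := by
  have h1 : as a b w + as a w b + as w a b = as a b w := by
    rw [as12 w a b, two_add (as a b w) (as a w b)]
  rw [← h1]
  simp only [as, D, mul_add, add_mul]
  (apply eq_of_add; abel_nf; try simp only [twoZ, fourZ, sixZ, eightZ, add_zero, zero_add])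

theorem sg'_eq (x c w : A) : D x w * c + D x (w * c) = sg' x c w := by
  have h1 : as x w c + as w c x + as w x c = as x c w := by
    rw [as12 x w c, as23 w c x, two, zero_add, as12 w x c, as23 x w c]
  rw [sg', ← h1]
  simp only [as, D, mul_add, add_mul]
  (apply eq_of_add; abel_nf; try simp only [twoZ, fourZ, sixZ, eightZ, add_zero, zero_add])

end

section

variable {A : Type*} [NonUnitalNonAssocRing A] {n : ℕ} {F : Multiset A → A}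
  (h : Art n F)
include h

theorem Art.mul_cons (a b c : A) (t : Multiset A) : F ((a * b) ::ₘ c ::ₘ t) =
    a * F (b ::ₘ c ::ₘ t) + F (a ::ₘ c ::ₘ t) * b + D c (F (a ::ₘ b ::ₘ t)) +
      ms (fun y r => D y (F (a ::ₘ b ::ₘ c ::ₘ r))) t := by
  rw [h.mul, ms_cons]
  abel

variable [Alt2 A]

/-- Expansion of `F((a,b,c), s)`. -/
theorem Art.exp3 (a b c : A) (s : Multiset A) : F (as a b c ::ₘ s) =
    as a b (F (c ::ₘ s)) + as a (F (b ::ₘ s)) c + as (F (a ::ₘ s)) b c +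
      ms (fun x t => D x (D a (F (b ::ₘ c ::ₘ t))) + D x (D b (F (a ::ₘ c ::ₘ t))) +
        D x (D c (F (a ::ₘ b ::ₘ t))) + sg x a (F (b ::ₘ c ::ₘ t)) +
        sg' x c (F (a ::ₘ b ::ₘ t))) s := by
  have e1 : F ((a * b * c) ::ₘ s) = (a * b) * F (c ::ₘ s) + (a * F (b ::ₘ s) + F (a ::ₘ s) * b) * c +
      ms (fun x t => D x (F (a ::ₘ b ::ₘ t)) * c + D x (F ((a * b) ::ₘ c ::ₘ t))) s := by
    rw [h.mul (a * b) c, h.mul a b, add_mul _ (ms _ _), ms_mul, ms_add]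
    abel
  have e2 : F ((a * (b * c)) ::ₘ s) = a * (b * F (c ::ₘ s) + F (b ::ₘ s) * c) +
      F (a ::ₘ s) * (b * c) +
      ms (fun x t => a * D x (F (b ::ₘ c ::ₘ t)) + D x (F ((b * c) ::ₘ a ::ₘ t))) s := by
    rw [h.mul a (b * c), h.mul b c, mul_add _ _ (ms _ _), mul_ms, ms_add]
    have : ∀ t, F (a ::ₘ (b * c) ::ₘ t) = F ((b * c) ::ₘ a ::ₘ t) := fun t => by
      rw [Multiset.cons_swap]
    simp only [this]
    abel
  rw [as, h.add, e1, e2]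
  have key : ms (fun x t => D x (F (a ::ₘ b ::ₘ t)) * c + D x (F ((a * b) ::ₘ c ::ₘ t))) s +
      ms (fun x t => a * D x (F (b ::ₘ c ::ₘ t)) + D x (F ((b * c) ::ₘ a ::ₘ t))) s =
      ms (fun x t => D x (D a (F (b ::ₘ c ::ₘ t))) + D x (D b (F (a ::ₘ c ::ₘ t))) +
        D x (D c (F (a ::ₘ b ::ₘ t))) + sg x a (F (b ::ₘ c ::ₘ t)) +
        sg' x c (F (a ::ₘ b ::ₘ t))) s := by
    rw [← ms_add]
    apply ms_congr'
    intro x t
    rw [h.mul_cons a b c, h.mul_cons b c a]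
    have r1 : c ::ₘ a ::ₘ t = a ::ₘ c ::ₘ t := Multiset.cons_swap _ _ _
    have r2 : b ::ₘ a ::ₘ t = a ::ₘ b ::ₘ t := Multiset.cons_swap _ _ _
    have r3 : ∀ r, b ::ₘ c ::ₘ a ::ₘ r = a ::ₘ b ::ₘ c ::ₘ r := fun r => by
      rw [Multiset.cons_swap c a r, Multiset.cons_swap b a]
    simp only [r1, r2, r3]
    rw [← sg_eq, ← sg'_eq]
    generalize ms (fun y r => D y (F (a ::ₘ b ::ₘ c ::ₘ r))) t = Z
    simp only [D_add2]
    have e3 : D x (D b (F (a ::ₘ c ::ₘ t))) = D x (F (a ::ₘ c ::ₘ t) * b) + D x (b * F (a ::ₘ c ::ₘ t)) := by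
      rw [← D_add2]; congr 1; rw [D, add_comm]
    rw [e3]
    (apply eq_of_add; abel_nf; try simp only [twoZ, fourZ, sixZ, eightZ, add_zero, zero_add])
  rw [← key]
  simp only [as, mul_add, add_mul]
  abel

/-- The letter sum of `s_{xa} + s_{xb}`. -/
theorem Art.ms_sg (a b c : A) (s : Multiset A) :
    ms (fun x t => sg x a (F (b ::ₘ c ::ₘ t)) + sg x b (F (a ::ₘ c ::ₘ t))) s = 0 := by
  have h1 := h.exp3 a b c s
  have h2 := h.exp3 b a c s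
  rw [as12 b a c, h1] at h2
  have h3 : as b a (F (c ::ₘ s)) = as a b (F (c ::ₘ s)) := as12 _ _ _
  have h4 : as b (F (a ::ₘ s)) c = as (F (a ::ₘ s)) b c := as12 _ _ _
  have h5 : as (F (b ::ₘ s)) a c = as a (F (b ::ₘ s)) c := as12 _ _ _
  rw [h3, h4, h5] at h2
  have h6 := add_of_eq h2
  have h7 : ∀ t, b ::ₘ a ::ₘ t = a ::ₘ b ::ₘ t := fun t => Multiset.cons_swap _ _ _
  simp only [h7] at h6
  have h8 : ms (fun x t => sg x a (F (b ::ₘ c ::ₘ t)) + sg x b (F (a ::ₘ c ::ₘ t))) s =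
      ms (fun x t => (D x (D a (F (b ::ₘ c ::ₘ t))) + D x (D b (F (a ::ₘ c ::ₘ t))) +
        D x (D c (F (a ::ₘ b ::ₘ t))) + sg x a (F (b ::ₘ c ::ₘ t)) +
        sg' x c (F (a ::ₘ b ::ₘ t))) + (D x (D b (F (a ::ₘ c ::ₘ t))) +
        D x (D a (F (b ::ₘ c ::ₘ t))) + D x (D c (F (a ::ₘ b ::ₘ t))) +
        sg x b (F (a ::ₘ c ::ₘ t)) + sg' x c (F (a ::ₘ b ::ₘ t)))) s := by
    apply ms_congr'
    intro x t
    (apply eq_of_add; abel_nf; try simp only [twoZ, fourZ, sixZ, eightZ, add_zero, zero_add])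
  rw [h8, ms_add]
  rw [← h6]
  (apply eq_of_add; abel_nf; try simp only [twoZ, fourZ, sixZ, eightZ, add_zero, zero_add])

/-- The 4-cycle relation of `s_{xa} = [x,a] F + (x,a,F)`. -/
theorem Art.cyc_sg (a b c d : A) (t : Multiset A) :
    sg c a (F (b ::ₘ d ::ₘ t)) + sg c b (F (a ::ₘ d ::ₘ t)) =
      sg d a (F (b ::ₘ c ::ₘ t)) + sg d b (F (a ::ₘ c ::ₘ t)) := by
  have key : ∀ (c : A) (s : Multiset A), sg c a (F (b ::ₘ s)) + sg c b (F (a ::ₘ s)) =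
      ms (fun x t => sg x a (F (b ::ₘ t)) + sg x b (F (a ::ₘ t))) (c ::ₘ s) := by
    intro c s
    rw [ms_cons]
    rw [h.ms_sg a b c s, add_zero]
  rw [key c (d ::ₘ t), key d (c ::ₘ t), Multiset.cons_swap]

/-- The letter sum of `s'_{xa} + s'_{xb}`. -/
theorem Art.ms_sg' (a b c : A) (s : Multiset A) :
    ms (fun x t => sg' x a (F (b ::ₘ c ::ₘ t)) + sg' x b (F (a ::ₘ c ::ₘ t))) s = 0 := by
  have h1 := h.exp3 c b a s
  have h2 := h.exp3 c a b s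
  rw [as23 c a b, h1] at h2
  have h3 : as c a (F (b ::ₘ s)) = as c (F (b ::ₘ s)) a := as23 _ _ _
  have h4 : as c (F (a ::ₘ s)) b = as c b (F (a ::ₘ s)) := as23 _ _ _
  have h5 : as (F (c ::ₘ s)) a b = as (F (c ::ₘ s)) b a := as23 _ _ _
  rw [h3, h4, h5] at h2
  have h6 := add_of_eq h2
  have h7 : ∀ t, b ::ₘ a ::ₘ t = a ::ₘ b ::ₘ t := fun t => Multiset.cons_swap _ _ _
  have h9 : ∀ t, c ::ₘ a ::ₘ t = a ::ₘ c ::ₘ t := fun t => Multiset.cons_swap _ _ _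
  have h10 : ∀ t, c ::ₘ b ::ₘ t = b ::ₘ c ::ₘ t := fun t => Multiset.cons_swap _ _ _
  simp only [h7, h9, h10] at h6
  have h8 : ms (fun x t => sg' x a (F (b ::ₘ c ::ₘ t)) + sg' x b (F (a ::ₘ c ::ₘ t))) s =
      ms (fun x t => (D x (D c (F (a ::ₘ b ::ₘ t))) + D x (D b (F (a ::ₘ c ::ₘ t))) +
        D x (D a (F (b ::ₘ c ::ₘ t))) + sg x c (F (a ::ₘ b ::ₘ t)) +
        sg' x a (F (b ::ₘ c ::ₘ t))) + (D x (D c (F (a ::ₘ b ::ₘ t))) +
        D x (D a (F (b ::ₘ c ::ₘ t))) + D x (D b (F (a ::ₘ c ::ₘ t))) +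
        sg x c (F (a ::ₘ b ::ₘ t)) + sg' x b (F (a ::ₘ c ::ₘ t)))) s := by
    apply ms_congr'
    intro x t
    (apply eq_of_add; abel_nf; try simp only [twoZ, fourZ, sixZ, eightZ, add_zero, zero_add])
  rw [h8, ms_add]
  rw [← h6]
  (apply eq_of_add; abel_nf; try simp only [twoZ, fourZ, sixZ, eightZ, add_zero, zero_add])

/-- The 4-cycle relation of `s'_{xa} = F [x,a] + (x,a,F)`. -/
theorem Art.cyc_sg' (a b c d : A) (t : Multiset A) :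
    sg' c a (F (b ::ₘ d ::ₘ t)) + sg' c b (F (a ::ₘ d ::ₘ t)) =
      sg' d a (F (b ::ₘ c ::ₘ t)) + sg' d b (F (a ::ₘ c ::ₘ t)) := by
  have key : ∀ (c : A) (s : Multiset A), sg' c a (F (b ::ₘ s)) + sg' c b (F (a ::ₘ s)) =
      ms (fun x t => sg' x a (F (b ::ₘ t)) + sg' x b (F (a ::ₘ t))) (c ::ₘ s) := by
    intro c s
    rw [ms_cons]
    rw [h.ms_sg' a b c s, add_zero]
  rw [key c (d ::ₘ t), key d (c ::ₘ t), Multiset.cons_swap]

omit [Alt2 A] in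
/-- Expansion of `F(ab, cd, s)`. -/
theorem Art.exp22 (a b c d : A) (s : Multiset A) : F ((a * b) ::ₘ (c * d) ::ₘ s) =
    a * (c * F (b ::ₘ d ::ₘ s)) + a * (F (b ::ₘ c ::ₘ s) * d) + a * D b (F (c ::ₘ d ::ₘ s)) +
    (c * F (a ::ₘ d ::ₘ s)) * b + (F (a ::ₘ c ::ₘ s) * d) * b + D a (F (c ::ₘ d ::ₘ s)) * b +
    D (c * d) (F (a ::ₘ b ::ₘ s)) +
    ms (fun x t => a * D x (F (b ::ₘ c ::ₘ d ::ₘ t)) + D x (F (a ::ₘ c ::ₘ d ::ₘ t)) * b +
      D x (c * F (a ::ₘ b ::ₘ d ::ₘ t)) + D x (F (a ::ₘ b ::ₘ c ::ₘ t) * d) +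
      D x (D a (F (b ::ₘ c ::ₘ d ::ₘ t))) + D x (D b (F (a ::ₘ c ::ₘ d ::ₘ t))) +
      D x (ms (fun y r => D y (F (a ::ₘ b ::ₘ c ::ₘ d ::ₘ r))) t)) s := by
  have g1 : F (b ::ₘ (c * d) ::ₘ s) = c * F (b ::ₘ d ::ₘ s) + F (b ::ₘ c ::ₘ s) * d +
      D b (F (c ::ₘ d ::ₘ s)) + ms (fun x t => D x (F (b ::ₘ c ::ₘ d ::ₘ t))) s := by
    rw [Multiset.cons_swap, h.mul_cons c d b]
    have r1 : d ::ₘ b ::ₘ s = b ::ₘ d ::ₘ s := Multiset.cons_swap _ _ _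
    have r2 : c ::ₘ b ::ₘ s = b ::ₘ c ::ₘ s := Multiset.cons_swap _ _ _
    have r3 : ∀ t, c ::ₘ d ::ₘ b ::ₘ t = b ::ₘ c ::ₘ d ::ₘ t := fun t => by
      rw [Multiset.cons_swap d b t, Multiset.cons_swap c b]
    simp only [r1, r2, r3]
  have g2 : F (a ::ₘ (c * d) ::ₘ s) = c * F (a ::ₘ d ::ₘ s) + F (a ::ₘ c ::ₘ s) * d +
      D a (F (c ::ₘ d ::ₘ s)) + ms (fun x t => D x (F (a ::ₘ c ::ₘ d ::ₘ t))) s := by
    rw [Multiset.cons_swap, h.mul_cons c d a]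
    have r1 : d ::ₘ a ::ₘ s = a ::ₘ d ::ₘ s := Multiset.cons_swap _ _ _
    have r2 : c ::ₘ a ::ₘ s = a ::ₘ c ::ₘ s := Multiset.cons_swap _ _ _
    have r3 : ∀ t, c ::ₘ d ::ₘ a ::ₘ t = a ::ₘ c ::ₘ d ::ₘ t := fun t => by
      rw [Multiset.cons_swap d a t, Multiset.cons_swap c a]
    simp only [r1, r2, r3]
  have g3 : ∀ t, F (a ::ₘ b ::ₘ (c * d) ::ₘ t) = c * F (a ::ₘ b ::ₘ d ::ₘ t) +
      F (a ::ₘ b ::ₘ c ::ₘ t) * d + D a (F (b ::ₘ c ::ₘ d ::ₘ t)) + D b (F (a ::ₘ c ::ₘ d ::ₘ t)) +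
      ms (fun y r => D y (F (a ::ₘ b ::ₘ c ::ₘ d ::ₘ r))) t := by
    intro t
    have e : a ::ₘ b ::ₘ (c * d) ::ₘ t = (c * d) ::ₘ a ::ₘ b ::ₘ t := by
      rw [Multiset.cons_swap b (c * d) t, Multiset.cons_swap a]
    rw [e, h.mul_cons c d a, ms_cons]
    have r1 : ∀ r, d ::ₘ a ::ₘ b ::ₘ r = a ::ₘ b ::ₘ d ::ₘ r := fun r => by
      rw [Multiset.cons_swap d a, Multiset.cons_swap d b]
    have r2 : ∀ r, c ::ₘ a ::ₘ b ::ₘ r = a ::ₘ b ::ₘ c ::ₘ r := fun r => by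
      rw [Multiset.cons_swap c a, Multiset.cons_swap c b]
    have r4 : ∀ r, c ::ₘ d ::ₘ b ::ₘ r = b ::ₘ c ::ₘ d ::ₘ r := fun r => by
      rw [Multiset.cons_swap d b, Multiset.cons_swap c b]
    have r5 : ∀ r, c ::ₘ d ::ₘ a ::ₘ r = a ::ₘ c ::ₘ d ::ₘ r := fun r => by
      rw [Multiset.cons_swap d a, Multiset.cons_swap c a]
    simp only [r1, r2, r4, r5]
    abel
  rw [h.mul_cons a b (c * d), g1, g2]
  simp only [g3]
  simp only [mul_add, add_mul, mul_ms, ms_mul, D_add2, ms_add]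
  abel

/-- `∑ over the letters x ∈ {a,b,c,d} of [y, [x, F(rest)]]`. -/
def DD4 (F : Multiset A → A) (y a b c d : A) (t : Multiset A) : A :=
  D y (D a (F (b ::ₘ c ::ₘ d ::ₘ t))) + D y (D b (F (a ::ₘ c ::ₘ d ::ₘ t))) +
    D y (D c (F (a ::ₘ b ::ₘ d ::ₘ t))) + D y (D d (F (a ::ₘ b ::ₘ c ::ₘ t)))

/-- The relation obtained from the two expansions of `F(ab, cd, s)`. -/
theorem Art.rel0 (a b c d : A) (s : Multiset A) :
    D a c * F (b ::ₘ d ::ₘ s) + F (a ::ₘ c ::ₘ s) * D b d + as a d (F (b ::ₘ c ::ₘ s)) +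
      as c b (F (a ::ₘ d ::ₘ s)) + as a b (F (c ::ₘ d ::ₘ s)) + as c d (F (a ::ₘ b ::ₘ s)) +
      ms (fun x t => DD4 F x a b c d t +
        (sg x a (F (c ::ₘ b ::ₘ d ::ₘ t)) + sg x c (F (a ::ₘ b ::ₘ d ::ₘ t))) +
        (sg' x b (F (d ::ₘ a ::ₘ c ::ₘ t)) + sg' x d (F (b ::ₘ a ::ₘ c ::ₘ t)))) s = 0 := by
  have h1 := h.exp22 a b c d s
  have h2 := h.exp22 c d a b s
  rw [Multiset.cons_swap (a * b), h2] at h1
  have h3 := add_of_eq h1
  clear h1 h2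
  have p1 : ∀ t, d ::ₘ b ::ₘ t = b ::ₘ d ::ₘ t := fun t => Multiset.cons_swap _ _ _
  have p2 : ∀ t, d ::ₘ a ::ₘ t = a ::ₘ d ::ₘ t := fun t => Multiset.cons_swap _ _ _
  have p3 : ∀ t, c ::ₘ b ::ₘ t = b ::ₘ c ::ₘ t := fun t => Multiset.cons_swap _ _ _
  have p4 : ∀ t, c ::ₘ a ::ₘ t = a ::ₘ c ::ₘ t := fun t => Multiset.cons_swap _ _ _
  have p5 : ∀ t, b ::ₘ a ::ₘ t = a ::ₘ b ::ₘ t := fun t => Multiset.cons_swap _ _ _
  have p6 : ∀ t, d ::ₘ c ::ₘ t = c ::ₘ d ::ₘ t := fun t => Multiset.cons_swap _ _ _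
  simp only [p1, p2, p3, p4, p5, p6] at h3 ⊢
  rw [← h3]
  have key : ms (fun x t => c * D x (F (a ::ₘ b ::ₘ d ::ₘ t)) + D x (F (a ::ₘ b ::ₘ c ::ₘ t)) * d +
      D x (a * F (b ::ₘ c ::ₘ d ::ₘ t)) + D x (F (a ::ₘ c ::ₘ d ::ₘ t) * b) +
      D x (D c (F (a ::ₘ b ::ₘ d ::ₘ t))) + D x (D d (F (a ::ₘ b ::ₘ c ::ₘ t))) +
      D x (ms (fun y r => D y (F (a ::ₘ b ::ₘ c ::ₘ d ::ₘ r))) t)) s +
      ms (fun x t => a * D x (F (b ::ₘ c ::ₘ d ::ₘ t)) + D x (F (a ::ₘ c ::ₘ d ::ₘ t)) * b +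
      D x (c * F (a ::ₘ b ::ₘ d ::ₘ t)) + D x (F (a ::ₘ b ::ₘ c ::ₘ t) * d) +
      D x (D a (F (b ::ₘ c ::ₘ d ::ₘ t))) + D x (D b (F (a ::ₘ c ::ₘ d ::ₘ t))) +
      D x (ms (fun y r => D y (F (a ::ₘ b ::ₘ c ::ₘ d ::ₘ r))) t)) s =
      ms (fun x t => DD4 F x a b c d t +
        (sg x a (F (b ::ₘ c ::ₘ d ::ₘ t)) + sg x c (F (a ::ₘ b ::ₘ d ::ₘ t))) +
        (sg' x b (F (a ::ₘ c ::ₘ d ::ₘ t)) + sg' x d (F (a ::ₘ b ::ₘ c ::ₘ t)))) s := by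
    rw [← ms_add]
    apply ms_congr'
    intro x t
    rw [← sg_eq, ← sg_eq, ← sg'_eq, ← sg'_eq, DD4]
    (apply eq_of_add; abel_nf; try simp only [twoZ, fourZ, sixZ, eightZ, add_zero, zero_add])
  rw [← key, ← two_mul_comm, ← mul_two_comm, ← mid_assoc a d, ← mid_assoc c b,
    ← D_mul_assoc a b, ← D_mul_assoc c d]
  (apply eq_of_add; abel_nf; try simp only [twoZ, fourZ, sixZ, eightZ, add_zero, zero_add])

omit h in
theorem ms_const_odd (c : A) (s : Multiset A) (hn : Odd n)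
    (h0 : Multiset.card s + 2 ≠ n → c = 0) : ms (fun _ _ => c) s = c := by
  rw [ms_const]
  by_cases hc : Multiset.card s + 2 = n
  · have : Odd (Multiset.card s) := by
      rcases hn with ⟨k, hk⟩
      exact ⟨k - 1, by omega⟩
    obtain ⟨k, hk⟩ := this
    rw [hk, add_smul, mul_comm, mul_smul, twoN, smul_zero, zero_add, one_smul]
  · rw [h0 hc, smul_zero]

/-- The relation (REL). -/
theorem Art.rel1 (hn : Odd n) (a b c d : A) (s : Multiset A) :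
    as a b (F (c ::ₘ d ::ₘ s)) + as c d (F (a ::ₘ b ::ₘ s)) +
      (D a c * F (b ::ₘ d ::ₘ s) + D a b * F (c ::ₘ d ::ₘ s) + D b c * F (a ::ₘ d ::ₘ s)) +
      (F (a ::ₘ c ::ₘ s) * D b d + F (c ::ₘ d ::ₘ s) * D a b + F (b ::ₘ c ::ₘ s) * D a d) =
    ms (fun x t => DD4 F x a b c d t) s := by
  have h0 := h.rel0 a b c d s
  rw [ms_add, ms_add] at h0
  have e1 : ms (fun x t => sg x a (F (c ::ₘ b ::ₘ d ::ₘ t)) + sg x c (F (a ::ₘ b ::ₘ d ::ₘ t))) s =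
      sg b a (F (c ::ₘ d ::ₘ s)) + sg b c (F (a ::ₘ d ::ₘ s)) := by
    rw [← ms_const_odd (sg b a (F (c ::ₘ d ::ₘ s)) + sg b c (F (a ::ₘ d ::ₘ s))) s hn]
    · apply ms_congr
      intro x t hx
      rw [h.cyc_sg a c x b (d ::ₘ t), Multiset.cons_swap x d t, hx]
    · intro hc
      rw [h.len, h.len]
      · simp [sg, as_zero3]
      · simpa using hc
      · simpa using hc
  have e2 : ms (fun x t => sg' x b (F (d ::ₘ a ::ₘ c ::ₘ t)) + sg' x d (F (b ::ₘ a ::ₘ c ::ₘ t))) s =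
      sg' a b (F (c ::ₘ d ::ₘ s)) + sg' a d (F (b ::ₘ c ::ₘ s)) := by
    rw [← ms_const_odd (sg' a b (F (c ::ₘ d ::ₘ s)) + sg' a d (F (b ::ₘ c ::ₘ s))) s hn]
    · apply ms_congr
      intro x t hx
      rw [h.cyc_sg' b d x a (c ::ₘ t), Multiset.cons_swap x c t, hx, Multiset.cons_swap d c s]
    · intro hc
      rw [h.len, h.len]
      · simp [sg', as_zero3]
      · simpa using hc
      · simpa using hc
  rw [e1, e2] at h0
  simp only [sg, sg'] at h0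
  rw [D_comm b a, as12 b a, as12 c b] at h0
  apply eq_of_add
  refine Eq.trans ?_ h0
  (apply eq_of_add; abel_nf; try simp only [twoZ, fourZ, sixZ, eightZ, add_zero, zero_add])

/-- The edge sums `C_k`, `C_k'`, `r` of the 4-cycle `c d c' e`. -/
theorem Art.rel2 (hn : Odd n) (a b c d c' e : A) (s : Multiset A) :
    as c d (F (a ::ₘ b ::ₘ e ::ₘ c' ::ₘ s)) + as c e (F (a ::ₘ b ::ₘ d ::ₘ c' ::ₘ s)) +
      as c' d (F (a ::ₘ b ::ₘ e ::ₘ c ::ₘ s)) + as c' e (F (a ::ₘ b ::ₘ d ::ₘ c ::ₘ s)) =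
    D (D c e) (F (a ::ₘ b ::ₘ d ::ₘ c' ::ₘ s)) + D (D c d) (F (a ::ₘ b ::ₘ e ::ₘ c' ::ₘ s)) +
      D (D c' d) (F (a ::ₘ b ::ₘ e ::ₘ c ::ₘ s)) + D (D c' e) (F (a ::ₘ b ::ₘ d ::ₘ c ::ₘ s)) := by
  have h1 := add_of_eq (h.rel1 hn a b c d (e ::ₘ c' ::ₘ s))
  have h2 := add_of_eq (h.rel1 hn a b c e (d ::ₘ c' ::ₘ s))
  have h3 := add_of_eq (h.rel1 hn a b c' d (e ::ₘ c ::ₘ s))
  have h4 := add_of_eq (h.rel1 hn a b c' e (d ::ₘ c ::ₘ s))
  have b1 : ∀ t, b ::ₘ a ::ₘ t = a ::ₘ b ::ₘ t := fun t => Multiset.cons_swap _ _ _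
  have c1 : ∀ t, c ::ₘ a ::ₘ t = a ::ₘ c ::ₘ t := fun t => Multiset.cons_swap _ _ _
  have c2 : ∀ t, c ::ₘ b ::ₘ t = b ::ₘ c ::ₘ t := fun t => Multiset.cons_swap _ _ _
  have k1 : ∀ t, c' ::ₘ a ::ₘ t = a ::ₘ c' ::ₘ t := fun t => Multiset.cons_swap _ _ _
  have k2 : ∀ t, c' ::ₘ b ::ₘ t = b ::ₘ c' ::ₘ t := fun t => Multiset.cons_swap _ _ _
  have k3 : ∀ t, c' ::ₘ c ::ₘ t = c ::ₘ c' ::ₘ t := fun t => Multiset.cons_swap _ _ _
  have d1 : ∀ t, d ::ₘ a ::ₘ t = a ::ₘ d ::ₘ t := fun t => Multiset.cons_swap _ _ _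
  have d2 : ∀ t, d ::ₘ b ::ₘ t = b ::ₘ d ::ₘ t := fun t => Multiset.cons_swap _ _ _
  have d3 : ∀ t, d ::ₘ c ::ₘ t = c ::ₘ d ::ₘ t := fun t => Multiset.cons_swap _ _ _
  have d4 : ∀ t, d ::ₘ c' ::ₘ t = c' ::ₘ d ::ₘ t := fun t => Multiset.cons_swap _ _ _
  have e1 : ∀ t, e ::ₘ a ::ₘ t = a ::ₘ e ::ₘ t := fun t => Multiset.cons_swap _ _ _
  have e2 : ∀ t, e ::ₘ b ::ₘ t = b ::ₘ e ::ₘ t := fun t => Multiset.cons_swap _ _ _
  have e3 : ∀ t, e ::ₘ c ::ₘ t = c ::ₘ e ::ₘ t := fun t => Multiset.cons_swap _ _ _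
  have e4 : ∀ t, e ::ₘ c' ::ₘ t = c' ::ₘ e ::ₘ t := fun t => Multiset.cons_swap _ _ _
  have e5 : ∀ t, e ::ₘ d ::ₘ t = d ::ₘ e ::ₘ t := fun t => Multiset.cons_swap _ _ _
  simp only [ms_cons] at h1 h2 h3 h4
  have hM : ms (fun x t => DD4 F x a b c d (e ::ₘ c' ::ₘ t)) s +
      ms (fun x t => DD4 F x a b c e (d ::ₘ c' ::ₘ t)) s +
      ms (fun x t => DD4 F x a b c' d (e ::ₘ c ::ₘ t)) s +
      ms (fun x t => DD4 F x a b c' e (d ::ₘ c ::ₘ t)) s = 0 := by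
    rw [← ms_add, ← ms_add, ← ms_add]
    apply ms_eq_zero'
    intro x t
    simp only [DD4, b1, c1, c2, k1, k2, k3, d1, d2, d3, d4, e1, e2, e3, e4, e5]
    (abel_nf; try simp only [twoZ, fourZ, sixZ, eightZ, add_zero, zero_add])
  revert hM h1 h2 h3 h4
  generalize ms (fun x t => DD4 F x a b c d (e ::ₘ c' ::ₘ t)) s = m1
  generalize ms (fun x t => DD4 F x a b c e (d ::ₘ c' ::ₘ t)) s = m2
  generalize ms (fun x t => DD4 F x a b c' d (e ::ₘ c ::ₘ t)) s = m3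
  generalize ms (fun x t => DD4 F x a b c' e (d ::ₘ c ::ₘ t)) s = m4
  intro h1 h2 h3 h4 hM
  simp only [DD4, b1, c1, c2, k1, k2, k3, d1, d2, d3, d4, e1, e2, e3, e4, e5] at h1 h2 h3 h4 ⊢
  rw [← jac c e, ← jac c d, ← jac c' d, ← jac c' e]
  apply eq_of_add
  have H := congrArg₂ (· + ·) (congrArg₂ (· + ·) (congrArg₂ (· + ·) h1 h2)
    (congrArg₂ (· + ·) h3 h4)) hM
  simp only [add_zero] at H
  refine Eq.trans ?_ H
  (apply eq_of_add; abel_nf; try simp only [twoZ, fourZ, sixZ, eightZ, add_zero, zero_add])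

theorem Art.cyc_all (hn : Odd n) (h5 : 5 ≤ n) (a b c d : A) (s : Multiset A) :
    (D a b * F (c ::ₘ d ::ₘ s) + D b c * F (a ::ₘ d ::ₘ s) + D c d * F (a ::ₘ b ::ₘ s) +
      D d a * F (b ::ₘ c ::ₘ s) = 0) ∧
    (F (c ::ₘ d ::ₘ s) * D a b + F (a ::ₘ d ::ₘ s) * D b c + F (a ::ₘ b ::ₘ s) * D c d +
      F (b ::ₘ c ::ₘ s) * D d a = 0) ∧
    (as a b (F (c ::ₘ d ::ₘ s)) + as b c (F (a ::ₘ d ::ₘ s)) + as c d (F (a ::ₘ b ::ₘ s)) +
      as d a (F (b ::ₘ c ::ₘ s)) = 0) := by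
  by_cases hc : Multiset.card s + 2 = n
  · obtain ⟨p, s, rfl⟩ : ∃ p t, s = p ::ₘ t := by
      obtain ⟨p, hp⟩ := Multiset.card_pos_iff_exists_mem.1 (show 0 < Multiset.card s by omega)
      obtain ⟨t, rfl⟩ := Multiset.exists_cons_of_mem hp
      exact ⟨p, t, rfl⟩
    rw [Multiset.card_cons] at hc
    obtain ⟨q, s, rfl⟩ : ∃ p t, s = p ::ₘ t := by
      obtain ⟨p, hp⟩ := Multiset.card_pos_iff_exists_mem.1 (show 0 < Multiset.card s by omega)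
      obtain ⟨t, rfl⟩ := Multiset.exists_cons_of_mem hp
      exact ⟨p, t, rfl⟩
    have h1 := add_of_eq (h.cyc_sg a c b d (p ::ₘ q ::ₘ s))
    have h2 := add_of_eq (h.cyc_sg' a c b d (p ::ₘ q ::ₘ s))
    have h3 := add_of_eq (h.rel2 hn p q a b c d s)
    have m1 : ∀ u v : A, p ::ₘ q ::ₘ u ::ₘ v ::ₘ s = u ::ₘ v ::ₘ p ::ₘ q ::ₘ s := by
      intro u v
      rw [Multiset.cons_swap q u, Multiset.cons_swap q v, Multiset.cons_swap p u,
        Multiset.cons_swap p v]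
    have b1 : ∀ t, b ::ₘ a ::ₘ t = a ::ₘ b ::ₘ t := fun t => Multiset.cons_swap _ _ _
    have c1 : ∀ t, c ::ₘ a ::ₘ t = a ::ₘ c ::ₘ t := fun t => Multiset.cons_swap _ _ _
    have c2 : ∀ t, c ::ₘ b ::ₘ t = b ::ₘ c ::ₘ t := fun t => Multiset.cons_swap _ _ _
    have d1 : ∀ t, d ::ₘ a ::ₘ t = a ::ₘ d ::ₘ t := fun t => Multiset.cons_swap _ _ _
    have d2 : ∀ t, d ::ₘ b ::ₘ t = b ::ₘ d ::ₘ t := fun t => Multiset.cons_swap _ _ _
    have d3 : ∀ t, d ::ₘ c ::ₘ t = c ::ₘ d ::ₘ t := fun t => Multiset.cons_swap _ _ _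
    simp only [m1] at h3
    simp only [b1, c1, c2, d1, d2, d3] at h1 h2 h3
    revert h1 h2 h3
    generalize F (c ::ₘ d ::ₘ p ::ₘ q ::ₘ s) = Fcd
    generalize F (a ::ₘ d ::ₘ p ::ₘ q ::ₘ s) = Fad
    generalize F (a ::ₘ b ::ₘ p ::ₘ q ::ₘ s) = Fab
    generalize F (b ::ₘ c ::ₘ p ::ₘ q ::ₘ s) = Fbc
    intro h1 h2 h3
    simp only [sg, sg'] at h1 h2
    rw [D_comm b a, D_comm d c, as12 b a, as12 d c] at h1 h2
    rw [D_comm a d, as12 a d, as12 c b, D_comm c b] at h3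
    have hR : as a b Fcd + as b c Fad + as c d Fab + as d a Fbc = 0 := by
      have H := congrArg₂ (· + ·) (congrArg₂ (· + ·) h1 h2) h3
      simp only [add_zero] at H
      rw [← H, show D (D d a) Fbc = D d a * Fbc + Fbc * D d a from rfl,
        show D (D a b) Fcd = D a b * Fcd + Fcd * D a b from rfl,
        show D (D b c) Fad = D b c * Fad + Fad * D b c from rfl,
        show D (D c d) Fab = D c d * Fab + Fab * D c d from rfl]
      (apply eq_of_add; abel_nf; try simp only [twoZ, fourZ, sixZ, eightZ, add_zero, zero_add])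
    refine ⟨?_, ?_, hR⟩
    · have H := congrArg₂ (· + ·) h1 hR
      simp only [add_zero] at H
      rw [← H]
      (apply eq_of_add; abel_nf; try simp only [twoZ, fourZ, sixZ, eightZ, add_zero, zero_add])
    · have H := congrArg₂ (· + ·) h2 hR
      simp only [add_zero] at H
      rw [← H]
      (apply eq_of_add; abel_nf; try simp only [twoZ, fourZ, sixZ, eightZ, add_zero, zero_add])
  · have z : ∀ u v : A, F (u ::ₘ v ::ₘ s) = 0 := fun u v => h.len _ (by simpa using hc)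
    simp [z, as_zero3]

/-- The 4-cycle relation of `[a,b] F(rest)`. -/
theorem Art.cyc (hn : Odd n) (h5 : 5 ≤ n) (a b c d : A) (s : Multiset A) :
    D a b * F (c ::ₘ d ::ₘ s) + D b c * F (a ::ₘ d ::ₘ s) + D c d * F (a ::ₘ b ::ₘ s) +
      D d a * F (b ::ₘ c ::ₘ s) = 0 := (h.cyc_all hn h5 a b c d s).1

/-- The 4-cycle relation of `F(rest) [a,b]`. -/
theorem Art.cyc' (hn : Odd n) (h5 : 5 ≤ n) (a b c d : A) (s : Multiset A) :
    F (c ::ₘ d ::ₘ s) * D a b + F (a ::ₘ d ::ₘ s) * D b c + F (a ::ₘ b ::ₘ s) * D c d +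
      F (b ::ₘ c ::ₘ s) * D d a = 0 := (h.cyc_all hn h5 a b c d s).2.1

/-- The 4-cycle relation of `(a, b, F(rest))`. -/
theorem Art.cyc_as (hn : Odd n) (h5 : 5 ≤ n) (a b c d : A) (s : Multiset A) :
    as a b (F (c ::ₘ d ::ₘ s)) + as b c (F (a ::ₘ d ::ₘ s)) + as c d (F (a ::ₘ b ::ₘ s)) +
      as d a (F (b ::ₘ c ::ₘ s)) = 0 := (h.cyc_all hn h5 a b c d s).2.2

end

end MP6489b8.AF
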