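import Mathlib
import Pool.Agent.Lib.MP_6489b8_al.AF.Cyc

/-!
# Identities of alternative rings of characteristic 2 used for the divided step
-/

set_option linter.unusedSimpArgs false

namespace MP6489b8.AF

open MP6489b8 MP6489b8.CT

variable {A : Type*} [NonUnitalNonAssocRing A] [Alt2 A]

theorem tau_id1 (u v b w : A) :
    (D b (u * v)) * w +
      u * ((D v b) * w) +
      D b ((D u v) * w) +
      (D u (b * v)) * w +
      (D u v) * (D b w) +
      (D u v) * (b * w) +
      (D v b) * (D u w) +
      ((D v b) * w) * u +
      (D v b) * (u * w) = 0 := by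
  have e1 : as (u * v) b w + as b (u * v) w = 0 := by rw [as12, two]
  have e2 : as (v * u) b w + as b (v * u) w = 0 := by rw [as12, two]
  have e3 : as (u * v) w b + as (u * v) b w = 0 := by rw [as23, two]
  have e4 : as (v * u) w b + as (v * u) b w = 0 := by rw [as23, two]
  have e5 : as (v * b) u w + as u (v * b) w = 0 := by rw [as12, two]
  have e6 : as (b * v) u w + as u (b * v) w = 0 := by rw [as12, two]
  have e7 : as (v * b) w u + as (v * b) u w = 0 := by rw [as23, two]
  have e8 : as (b * v) w u + as (b * v) u w = 0 := by rw [as23, two]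
  have e9 : (as u v b + as v u b) * w = 0 := by rw [as12, two, zero_mul]
  have e10 : (as v b u + as v u b) * w = 0 := by rw [as23, two, zero_mul]
  have e11 : (as b v u + as v b u) * w = 0 := by rw [as12, two, zero_mul]
  refine Eq.trans (b := (as (u * v) b w + as b (u * v) w) + (as (v * u) b w + as b (v * u) w) + (as (u * v) w b + as (u * v) b w) + (as (v * u) w b + as (v * u) b w) + (as (v * b) u w + as u (v * b) w) + (as (b * v) u w + as u (b * v) w) + (as (v * b) w u + as (v * b) u w) + (as (b * v) w u + as (b * v) u w) + ((as u v b + as v u b) * w) + ((as v b u + as v u b) * w) + ((as b v u + as v b u) * w)) ?_ ?_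
  · simp only [as, D, mul_add, add_mul]
    (apply eq_of_add; abel_nf; try simp only [twoZ, fourZ, sixZ, eightZ, add_zero, zero_add])
  · rw [e1, e2, e3, e4, e5, e6, e7, e8, e9, e10, e11]
    simp only [add_zero]

theorem tau_id2 (v b c w : A) :
    (D b c) * (w * v) +
      (D v c) * (b * w) +
      (D v b) * (c * w) +
      ((D v b) * w) * c +
      ((D v c) * w) * b +
      ((D b c) * w) * v +
      (D v c) * (D b w) +
      (D v b) * (D c w) = 0 := by
  have e1 : as (c * v) b w + as b (c * v) w = 0 := by rw [as12, two]
  have e2 : as v (b * w) c + as v c (b * w) = 0 := by rw [as23, two]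
  have e3 : as (v * c) w b + as (v * c) b w = 0 := by rw [as23, two]
  have e4 : as (c * v) w b + as (c * v) b w = 0 := by rw [as23, two]
  have e5 : as (c * b) v w + as v (c * b) w = 0 := by rw [as12, two]
  have e6 : as b (v * w) c + as b c (v * w) = 0 := by rw [as23, two]
  have e7 : as b v (w * c) + as v b (w * c) = 0 := by rw [as12, two]
  have e8 : as (b * c) w v + as (b * c) v w = 0 := by rw [as23, two]
  have e9 : as (c * b) w v + as (c * b) v w = 0 := by rw [as23, two]
  have e10 : v * (as b c w + as c b w) = 0 := by rw [as12, two, mul_zero]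
  have e11 : v * (as b w c + as b c w) = 0 := by rw [as23, two, mul_zero]
  have e12 : b * (as v w c + as v c w) = 0 := by rw [as23, two, mul_zero]
  have e13 : b * (as c v w + as v c w) = 0 := by rw [as12, two, mul_zero]
  have e14 : (as b v w + as v b w) * c = 0 := by rw [as12, two, zero_mul]
  have e15 : (as v b c + as v c b) * w = 0 := by rw [as23, two, zero_mul]
  have e16 : (as b v c + as v b c) * w = 0 := by rw [as12, two, zero_mul]
  have e17 : (as b c v + as b v c) * w = 0 := by rw [as23, two, zero_mul]
  refine Eq.trans (b := (as (c * v) b w + as b (c * v) w) + (as v (b * w) c + as v c (b * w)) + (as (v * c) w b + as (v * c) b w) + (as (c * v) w b + as (c * v) b w) + (as (c * b) v w + as v (c * b) w) + (as b (v * w) c + as b c (v * w)) + (as b v (w * c) + as v b (w * c)) + (as (b * c) w v + as (b * c) v w) + (as (c * b) w v + as (c * b) v w) + (v * (as b c w + as c b w)) + (v * (as b w c + as b c w)) + (b * (as v w c + as v c w)) + (b * (as c v w + as v c w)) + ((as b v w + as v b w) * c) + ((as v b c + as v c b) * w) + ((as b v c + as v b c) * w) + ((as b c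 v + as b v c) * w)) ?_ ?_
  · simp only [as, D, mul_add, add_mul]
    (apply eq_of_add; abel_nf; try simp only [twoZ, fourZ, sixZ, eightZ, add_zero, zero_add])
  · rw [e1, e2, e3, e4, e5, e6, e7, e8, e9, e10, e11, e12, e13, e14, e15, e16, e17]
    simp only [add_zero]

theorem tau_id3 (v a b w : A) :
    (D a b) * (w * v) +
      ((D a b) * w) * v +
      D a ((D v b) * w) +
      D b ((D v a) * w) +
      (D a (b * v)) * w +
      (D b (a * v)) * w +
      ((D v a) * w) * b +
      ((D v b) * w) * a = 0 := by
  have e1 : as (a * v) b w + as b (a * v) w = 0 := by rw [as12, two]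
  have e2 : as (b * v) a w + as a (b * v) w = 0 := by rw [as12, two]
  have e3 : as a (b * w) v + as a v (b * w) = 0 := by rw [as23, two]
  have e4 : as a b (w * v) + as b a (w * v) = 0 := by rw [as12, two]
  have e5 : as b (a * w) v + as b v (a * w) = 0 := by rw [as23, two]
  have e6 : (as a b w + as b a w) * v = 0 := by rw [as12, two, zero_mul]
  have e7 : a * (as b v w + as v b w) = 0 := by rw [as12, two, mul_zero]
  have e8 : a * (as b w v + as b v w) = 0 := by rw [as23, two, mul_zero]
  have e9 : b * (as a v w + as v a w) = 0 := by rw [as12, two, mul_zero]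
  have e10 : b * (as a w v + as a v w) = 0 := by rw [as23, two, mul_zero]
  refine Eq.trans (b := (as (a * v) b w + as b (a * v) w) + (as (b * v) a w + as a (b * v) w) + (as a (b * w) v + as a v (b * w)) + (as a b (w * v) + as b a (w * v)) + (as b (a * w) v + as b v (a * w)) + ((as a b w + as b a w) * v) + (a * (as b v w + as v b w)) + (a * (as b w v + as b v w)) + (b * (as a v w + as v a w)) + (b * (as a w v + as a v w))) ?_ ?_
  · simp only [as, D, mul_add, add_mul]
    (apply eq_of_add; abel_nf; try simp only [twoZ, fourZ, sixZ, eightZ, add_zero, zero_add])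
  · rw [e1, e2, e3, e4, e5, e6, e7, e8, e9, e10]
    simp only [add_zero]

theorem tau_id4 (a b c w : A) :
    (D a b) * (D c w) +
      D c ((D a b) * w) +
      (D b c) * (a * w) +
      (D a c) * (b * w) +
      (D c (a * b)) * w +
      (D c (b * a)) * w +
      (D b (c * a)) * w +
      (D a (c * b)) * w = 0 := by
  have e1 : as (a * b) c w + as c (a * b) w = 0 := by rw [as12, two]
  have e2 : as (b * a) c w + as c (b * a) w = 0 := by rw [as12, two]
  have e3 : as (c * a) b w + as b (c * a) w = 0 := by rw [as12, two]
  have e4 : as a (b * w) c + as a c (b * w) = 0 := by rw [as23, two]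
  have e5 : as a b (w * c) + as b a (w * c) = 0 := by rw [as12, two]
  have e6 : as (c * b) a w + as a (c * b) w = 0 := by rw [as12, two]
  have e7 : as b (a * w) c + as b c (a * w) = 0 := by rw [as23, two]
  have e8 : a * (as b c w + as c b w) = 0 := by rw [as12, two, mul_zero]
  have e9 : a * (as b w c + as b c w) = 0 := by rw [as23, two, mul_zero]
  have e10 : b * (as a c w + as c a w) = 0 := by rw [as12, two, mul_zero]
  have e11 : b * (as a w c + as a c w) = 0 := by rw [as23, two, mul_zero]
  have e12 : (as a b w + as b a w) * c = 0 := by rw [as12, two, zero_mul]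
  refine Eq.trans (b := (as (a * b) c w + as c (a * b) w) + (as (b * a) c w + as c (b * a) w) + (as (c * a) b w + as b (c * a) w) + (as a (b * w) c + as a c (b * w)) + (as a b (w * c) + as b a (w * c)) + (as (c * b) a w + as a (c * b) w) + (as b (a * w) c + as b c (a * w)) + (a * (as b c w + as c b w)) + (a * (as b w c + as b c w)) + (b * (as a c w + as c a w)) + (b * (as a w c + as a c w)) + ((as a b w + as b a w) * c)) ?_ ?_
  · simp only [as, D, mul_add, add_mul]
    (apply eq_of_add; abel_nf; try simp only [twoZ, fourZ, sixZ, eightZ, add_zero, zero_add])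
  · rw [e1, e2, e3, e4, e5, e6, e7, e8, e9, e10, e11, e12]
    simp only [add_zero]

theorem tau_id5 (u b c w : A) :
    D c ((D u b) * w) +
      (D u b) * (D c w) +
      (D b c) * (D u w) +
      (D u (b * c)) * w +
      (D u b) * (c * w) +
      ((D b c) * w) * u +
      (D c (u * b)) * w = 0 := by
  have e1 : as (u * b) c w + as c (u * b) w = 0 := by rw [as12, two]
  have e2 : as (b * u) c w + as c (b * u) w = 0 := by rw [as12, two]
  have e3 : as (u * b) w c + as (u * b) c w = 0 := by rw [as23, two]
  have e4 : as (b * u) w c + as (b * u) c w = 0 := by rw [as23, two]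
  have e5 : as (b * c) w u + as (b * c) u w = 0 := by rw [as23, two]
  have e6 : as (c * b) w u + as (c * b) u w = 0 := by rw [as23, two]
  have e7 : (as b u c + as u b c) * w = 0 := by rw [as12, two, zero_mul]
  have e8 : (as b c u + as c b u) * w = 0 := by rw [as12, two, zero_mul]
  have e9 : (as b c u + as b u c) * w = 0 := by rw [as23, two, zero_mul]
  refine Eq.trans (b := (as (u * b) c w + as c (u * b) w) + (as (b * u) c w + as c (b * u) w) + (as (u * b) w c + as (u * b) c w) + (as (b * u) w c + as (b * u) c w) + (as (b * c) w u + as (b * c) u w) + (as (c * b) w u + as (c * b) u w) + ((as b u c + as u b c) * w) + ((as b c u + as c b u) * w) + ((as b c u + as b u c) * w)) ?_ ?_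
  · simp only [as, D, mul_add, add_mul]
    (apply eq_of_add; abel_nf; try simp only [twoZ, fourZ, sixZ, eightZ, add_zero, zero_add])
  · rw [e1, e2, e3, e4, e5, e6, e7, e8, e9]
    simp only [add_zero]

theorem tau_id6 (u a b w : A) :
    (D a b) * (u * w) +
      u * ((D a b) * w) +
      D a ((D u b) * w) +
      D b ((D u a) * w) +
      (D u b) * (a * w) +
      (D u a) * (b * w) +
      (D u a) * (D b w) +
      (D u b) * (D a w) +
      (D a (u * b)) * w +
      (D b (u * a)) * w = 0 := by
  have e1 : as (u * a) b w + as b (u * a) w = 0 := by rw [as12, two]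
  have e2 : as (a * u) b w + as b (a * u) w = 0 := by rw [as12, two]
  have e3 : as (u * a) w b + as (u * a) b w = 0 := by rw [as23, two]
  have e4 : as (a * u) w b + as (a * u) b w = 0 := by rw [as23, two]
  have e5 : as (u * b) a w + as a (u * b) w = 0 := by rw [as12, two]
  have e6 : as (b * u) a w + as a (b * u) w = 0 := by rw [as12, two]
  have e7 : as (u * b) w a + as (u * b) a w = 0 := by rw [as23, two]
  have e8 : as (b * u) w a + as (b * u) a w = 0 := by rw [as23, two]
  have e9 : as (a * b) u w + as u (a * b) w = 0 := by rw [as12, two]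
  have e10 : as (b * a) u w + as u (b * a) w = 0 := by rw [as12, two]
  have e11 : (as u a b + as u b a) * w = 0 := by rw [as23, two, zero_mul]
  have e12 : (as a b u + as b a u) * w = 0 := by rw [as12, two, zero_mul]
  refine Eq.trans (b := (as (u * a) b w + as b (u * a) w) + (as (a * u) b w + as b (a * u) w) + (as (u * a) w b + as (u * a) b w) + (as (a * u) w b + as (a * u) b w) + (as (u * b) a w + as a (u * b) w) + (as (b * u) a w + as a (b * u) w) + (as (u * b) w a + as (u * b) a w) + (as (b * u) w a + as (b * u) a w) + (as (a * b) u w + as u (a * b) w) + (as (b * a) u w + as u (b * a) w) + ((as u a b + as u b a) * w) + ((as a b u + as b a u) * w)) ?_ ?_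
  · simp only [as, D, mul_add, add_mul]
    (apply eq_of_add; abel_nf; try simp only [twoZ, fourZ, sixZ, eightZ, add_zero, zero_add])
  · rw [e1, e2, e3, e4, e5, e6, e7, e8, e9, e10, e11, e12]
    simp only [add_zero]

theorem tau_id7 (b c x w : A) :
    (D b x) * (D c w) +
      (D b c) * (D x w) +
      (D c x) * (D b w) +
      (D c x) * (b * w) +
      (D x (b * c)) * w +
      (D x (c * b)) * w +
      ((D b x) * w) * c +
      (D b x) * (c * w) +
      ((D c x) * w) * b +
      x * ((D b c) * w) +
      ((D b c) * w) * x = 0 := by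
  have e1 : as (b * c) x w + as x (b * c) w = 0 := by rw [as12, two]
  have e2 : as (b * c) w x + as (b * c) x w = 0 := by rw [as23, two]
  have e3 : as (c * b) w x + as (c * b) x w = 0 := by rw [as23, two]
  have e4 : as b (x * w) c + as b c (x * w) = 0 := by rw [as23, two]
  have e5 : as b x (w * c) + as x b (w * c) = 0 := by rw [as12, two]
  have e6 : as (c * x) b w + as b (c * x) w = 0 := by rw [as12, two]
  have e7 : as x (b * w) c + as x c (b * w) = 0 := by rw [as23, two]
  have e8 : as (c * x) w b + as (c * x) b w = 0 := by rw [as23, two]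
  have e9 : as (x * c) w b + as (x * c) b w = 0 := by rw [as23, two]
  have e10 : b * (as c x w + as x c w) = 0 := by rw [as12, two, mul_zero]
  have e11 : b * (as x w c + as x c w) = 0 := by rw [as23, two, mul_zero]
  have e12 : (as b x w + as x b w) * c = 0 := by rw [as12, two, zero_mul]
  have e13 : x * (as b c w + as c b w) = 0 := by rw [as12, two, mul_zero]
  have e14 : x * (as b w c + as b c w) = 0 := by rw [as23, two, mul_zero]
  have e15 : (as b c x + as c b x) * w = 0 := by rw [as12, two, zero_mul]
  have e16 : (as c b x + as c x b) * w = 0 := by rw [as23, two, zero_mul]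
  have e17 : (as c x b + as x c b) * w = 0 := by rw [as12, two, zero_mul]
  refine Eq.trans (b := (as (b * c) x w + as x (b * c) w) + (as (b * c) w x + as (b * c) x w) + (as (c * b) w x + as (c * b) x w) + (as b (x * w) c + as b c (x * w)) + (as b x (w * c) + as x b (w * c)) + (as (c * x) b w + as b (c * x) w) + (as x (b * w) c + as x c (b * w)) + (as (c * x) w b + as (c * x) b w) + (as (x * c) w b + as (x * c) b w) + (b * (as c x w + as x c w)) + (b * (as x w c + as x c w)) + ((as b x w + as x b w) * c) + (x * (as b c w + as c b w)) + (x * (as b w c + as b c w)) + ((as b c x + as c b x) * w) + ((as c b x + as c x b) * w) + ((as c x b + as x c b) * w)) ?_ ?_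
  · simp only [as, D, mul_add, add_mul]
    (apply eq_of_add; abel_nf; try simp only [twoZ, fourZ, sixZ, eightZ, add_zero, zero_add])
  · rw [e1, e2, e3, e4, e5, e6, e7, e8, e9, e10, e11, e12, e13, e14, e15, e16, e17]
    simp only [add_zero]

theorem tau_id8 (a b x w : A) :
    (D a b) * (D x w) +
      D x ((D a b) * w) +
      (D a x) * (b * w) +
      (D b x) * (a * w) +
      (D x (a * b)) * w +
      (D x (b * a)) * w +
      (D a x) * (D b w) +
      (D b x) * (D a w) +
      ((D a x) * w) * b +
      ((D b x) * w) * a = 0 := by
  have e1 : as (a * b) x w + as x (a * b) w = 0 := by rw [as12, two]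
  have e2 : as (a * b) w x + as (a * b) x w = 0 := by rw [as23, two]
  have e3 : as (b * a) w x + as (b * a) x w = 0 := by rw [as23, two]
  have e4 : as a (x * w) b + as a b (x * w) = 0 := by rw [as23, two]
  have e5 : as a x (w * b) + as x a (w * b) = 0 := by rw [as12, two]
  have e6 : as (b * x) a w + as a (b * x) w = 0 := by rw [as12, two]
  have e7 : as x (a * w) b + as x b (a * w) = 0 := by rw [as23, two]
  have e8 : as (b * x) w a + as (b * x) a w = 0 := by rw [as23, two]
  have e9 : as (x * b) w a + as (x * b) a w = 0 := by rw [as23, two]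
  have e10 : a * (as b x w + as x b w) = 0 := by rw [as12, two, mul_zero]
  have e11 : a * (as x w b + as x b w) = 0 := by rw [as23, two, mul_zero]
  have e12 : (as a x w + as x a w) * b = 0 := by rw [as12, two, zero_mul]
  have e13 : x * (as a b w + as b a w) = 0 := by rw [as12, two, mul_zero]
  have e14 : x * (as a w b + as a b w) = 0 := by rw [as23, two, mul_zero]
  have e15 : (as a b x + as b a x) * w = 0 := by rw [as12, two, zero_mul]
  have e16 : (as b a x + as b x a) * w = 0 := by rw [as23, two, zero_mul]
  have e17 : (as b x a + as x b a) * w = 0 := by rw [as12, two, zero_mul]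
  refine Eq.trans (b := (as (a * b) x w + as x (a * b) w) + (as (a * b) w x + as (a * b) x w) + (as (b * a) w x + as (b * a) x w) + (as a (x * w) b + as a b (x * w)) + (as a x (w * b) + as x a (w * b)) + (as (b * x) a w + as a (b * x) w) + (as x (a * w) b + as x b (a * w)) + (as (b * x) w a + as (b * x) a w) + (as (x * b) w a + as (x * b) a w) + (a * (as b x w + as x b w)) + (a * (as x w b + as x b w)) + ((as a x w + as x a w) * b) + (x * (as a b w + as b a w)) + (x * (as a w b + as a b w)) + ((as a b x + as b a x) * w) + ((as b a x + as b x a) * w) + ((as b x a + as x b a) * w)) ?_ ?_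
  · simp only [as, D, mul_add, add_mul]
    (apply eq_of_add; abel_nf; try simp only [twoZ, fourZ, sixZ, eightZ, add_zero, zero_add])
  · rw [e1, e2, e3, e4, e5, e6, e7, e8, e9, e10, e11, e12, e13, e14, e15, e16, e17]
    simp only [add_zero]

end MP6489b8.AF
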