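import Mathlib
import Pool.Agent.Lib.MP_6489b8_al.AF.TauId

/-!
# The divided step: from an Artin form of odd degree `n ≥ 5` to one of degree `n + 2`
-/

set_option linter.unusedSimpArgs false

namespace MP6489b8.AF

open MP6489b8 MP6489b8.CT

noncomputable section

section Defs

variable {A : Type*} [NonUnitalNonAssocRing A]

/-- The triangle sum. -/
def tau3 (F : Multiset A → A) (a b c : A) (s : Multiset A) : A :=
  D a b * F (c ::ₘ s) + D b c * F (a ::ₘ s) + D c a * F (b ::ₘ s)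

/-- The Artin expansion of `F (y z, r, w, t)`. -/
def fc2 (F : Multiset A → A) (y z r w : A) (t : Multiset A) : A :=
  y * F (z ::ₘ r ::ₘ w ::ₘ t) + F (y ::ₘ r ::ₘ w ::ₘ t) * z + D r (F (y ::ₘ z ::ₘ w ::ₘ t)) +
    D w (F (y ::ₘ z ::ₘ r ::ₘ t)) + ms (fun e s => D e (F (y ::ₘ z ::ₘ r ::ₘ w ::ₘ s))) t

def bC3 (F : Multiset A → A) (p q r y z : A) (l : Multiset A) : A :=
  D p q * (y * F (z ::ₘ r ::ₘ l)) + D p q * (F (y ::ₘ r ::ₘ l) * z) +
    D p q * D r (F (y ::ₘ z ::ₘ l)) + D q r * (y * F (z ::ₘ p ::ₘ l)) +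
    D q r * (F (y ::ₘ p ::ₘ l) * z) + D q r * D p (F (y ::ₘ z ::ₘ l)) +
    D r (y * z) * F (p ::ₘ q ::ₘ l) + D p (y * z) * F (q ::ₘ r ::ₘ l)

def pC3 (F : Multiset A → A) (p q r y z : A) (x : A) (t : Multiset A) : A :=
  D p q * D x (F (y ::ₘ z ::ₘ r ::ₘ t)) + D q r * D x (F (y ::ₘ z ::ₘ p ::ₘ t))

def bQ3 (F : Multiset A → A) (p q y z w : A) (l : Multiset A) : A :=
  D w p * (y * F (z ::ₘ q ::ₘ l)) + D w p * (F (y ::ₘ q ::ₘ l) * z) +
    D w p * D q (F (y ::ₘ z ::ₘ l)) + D w q * (y * F (z ::ₘ p ::ₘ l)) +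
    D w q * (F (y ::ₘ p ::ₘ l) * z) + D w q * D p (F (y ::ₘ z ::ₘ l))

def pQ3 (F : Multiset A → A) (p q y z w : A) (x : A) (t : Multiset A) : A :=
  D w p * D x (F (y ::ₘ z ::ₘ q ::ₘ t)) + D w q * D x (F (y ::ₘ z ::ₘ p ::ₘ t)) +
    D x p * fc2 F y z q w t + D x q * fc2 F y z p w t

def bQ2 (F : Multiset A → A) (p y z r w : A) (l : Multiset A) : A :=
  D w p * (y * F (z ::ₘ r ::ₘ l)) + D w p * (F (y ::ₘ r ::ₘ l) * z) +
    D w p * D r (F (y ::ₘ z ::ₘ l)) + D w (y * z) * F (p ::ₘ r ::ₘ l)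

def pQ2 (F : Multiset A → A) (p y z r w : A) (x : A) (t : Multiset A) : A :=
  D w p * D x (F (y ::ₘ z ::ₘ r ::ₘ t)) + D x p * fc2 F y z r w t +
    D x (y * z) * F (p ::ₘ r ::ₘ w ::ₘ t)

def bQP (F : Multiset A → A) (p q r y z : A) (l : Multiset A) : A :=
  D p (y * z) * F (q ::ₘ r ::ₘ l) + D q (y * z) * F (p ::ₘ r ::ₘ l)

def pQP (F : Multiset A → A) (p q r y z : A) (x : A) (t : Multiset A) : A :=
  D x p * fc2 F y z q r t + D x q * fc2 F y z p r t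

def bQR (F : Multiset A → A) (p q r s w : A) (l : Multiset A) : A :=
  (D s p * F (q ::ₘ r ::ₘ l)) * w + (D s q * F (p ::ₘ r ::ₘ l)) * w

def pQR (F : Multiset A → A) (p q r s w : A) (x : A) (t : Multiset A) : A :=
  (D x p * F (q ::ₘ r ::ₘ s ::ₘ t)) * w + (D x q * F (p ::ₘ r ::ₘ s ::ₘ t)) * w

def cyc4 (F : Multiset A → A) (p q r s : A) (l : Multiset A) : A :=
  D p q * F (r ::ₘ s ::ₘ l) + D q r * F (p ::ₘ s ::ₘ l) + D r s * F (p ::ₘ q ::ₘ l) +
    D s p * F (q ::ₘ r ::ₘ l)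

end Defs

section

variable {A : Type*} [NonUnitalNonAssocRing A] {n : ℕ} {F : Multiset A → A}
  (h : Art n F)
include h

theorem Art.mul_cons2 (y z r w : A) (t : Multiset A) :
    F ((y * z) ::ₘ r ::ₘ w ::ₘ t) = fc2 F y z r w t := by
  rw [h.mul_cons, ms_cons, fc2]
  rw [Multiset.cons_swap r w]
  abel

variable [Alt2 A]

theorem Art.cyc4_eq (hn : Odd n) (h5 : 5 ≤ n) (p q r s : A) (l : Multiset A) :
    cyc4 F p q r s l = 0 := h.cyc hn h5 p q r s l

theorem Art.ms_k (hn : Odd n) (h5 : 5 ≤ n) (p q r : A) (s : Multiset A) :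
    ms (fun x t => D x p * F (q ::ₘ r ::ₘ t) + D x q * F (p ::ₘ r ::ₘ t)) s = 0 := by
  have e : ms (fun x t => D x p * F (q ::ₘ r ::ₘ t) + D x q * F (p ::ₘ r ::ₘ t)) s =
      ms (fun _ _ => D r p * F (q ::ₘ s) + D r q * F (p ::ₘ s)) s := by
    apply ms_congr
    intro x t hx
    have h1 := h.cyc hn h5 x p r q t
    rw [← hx]
    apply eq_of_add
    refine Eq.trans ?_ h1
    rw [D_comm r p, D_comm r q, D_comm q x,
      Multiset.cons_swap q r t, Multiset.cons_swap p r t, Multiset.cons_swap p x t,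
      Multiset.cons_swap q x t]
    (apply eq_of_add; abel_nf; try simp only [twoZ, fourZ, sixZ, eightZ, add_zero, zero_add])
  rw [e, ms_const]
  by_cases hc : Multiset.card s + 1 = n
  · have : Even (Multiset.card s) := by
      rcases hn with ⟨k, hk⟩
      exact ⟨k, by omega⟩
    obtain ⟨k, hk⟩ := this
    rw [hk, add_smul, two]
  · rw [h.len, h.len, mul_zero, mul_zero, add_zero, smul_zero]
    · simpa using hc
    · simpa using hc

theorem Art.C3 (hn : Odd n) (h5 : 5 ≤ n) (p q r y z : A) (l : Multiset A) :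
    bC3 F p q r y z l + ms (pC3 F p q r y z) l = 0 := by
  have h1 := h.cyc hn h5 p q r (y * z) l
  rw [Multiset.cons_swap r (y * z), Multiset.cons_swap p (y * z), h.mul_cons, h.mul_cons,
    D_comm (y * z) p] at h1
  have e : ms (pC3 F p q r y z) l = D p q * ms (fun x t => D x (F (y ::ₘ z ::ₘ r ::ₘ t))) l +
      D q r * ms (fun x t => D x (F (y ::ₘ z ::ₘ p ::ₘ t))) l := by
    rw [mul_ms, mul_ms, ← ms_add]
    rfl
  rw [e, bC3]
  refine Eq.trans ?_ h1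
  simp only [mul_add]
  (apply eq_of_add; abel_nf; try simp only [twoZ, fourZ, sixZ, eightZ, add_zero, zero_add])

theorem Art.Q3 (hn : Odd n) (h5 : 5 ≤ n) (p q y z w : A) (l : Multiset A) :
    bQ3 F p q y z w l + ms (pQ3 F p q y z w) l = 0 := by
  have h1 := h.ms_k hn h5 p q (y * z) (w ::ₘ l)
  have r1 : ∀ u : A, ∀ t, u ::ₘ (y * z) ::ₘ t = (y * z) ::ₘ u ::ₘ t :=
    fun u t => Multiset.cons_swap _ _ _
  simp only [r1] at h1
  rw [ms_cons, h.mul_cons, h.mul_cons] at h1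
  simp only [h.mul_cons2] at h1
  have e : ms (pQ3 F p q y z w) l = D w p * ms (fun x t => D x (F (y ::ₘ z ::ₘ q ::ₘ t))) l +
      D w q * ms (fun x t => D x (F (y ::ₘ z ::ₘ p ::ₘ t))) l +
      ms (fun x t => D x p * fc2 F y z q w t + D x q * fc2 F y z p w t) l := by
    rw [mul_ms, mul_ms, ← ms_add, ← ms_add]
    apply ms_congr'
    intro x t
    rw [pQ3]
    abel
  rw [e, bQ3]
  refine Eq.trans ?_ h1
  simp only [mul_add]
  (apply eq_of_add; abel_nf; try simp only [twoZ, fourZ, sixZ, eightZ, add_zero, zero_add])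

theorem Art.Q2 (hn : Odd n) (h5 : 5 ≤ n) (p y z r w : A) (l : Multiset A) :
    bQ2 F p y z r w l + ms (pQ2 F p y z r w) l = 0 := by
  have h1 := h.ms_k hn h5 p (y * z) r (w ::ₘ l)
  rw [ms_cons, h.mul_cons] at h1
  simp only [h.mul_cons2] at h1
  have e : ms (pQ2 F p y z r w) l = D w p * ms (fun x t => D x (F (y ::ₘ z ::ₘ r ::ₘ t))) l +
      ms (fun x t => D x p * fc2 F y z r w t + D x (y * z) * F (p ::ₘ r ::ₘ w ::ₘ t)) l := by
    rw [mul_ms, ← ms_add]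
    apply ms_congr'
    intro x t
    rw [pQ2]
    abel
  rw [e, bQ2]
  refine Eq.trans ?_ h1
  simp only [mul_add]
  (apply eq_of_add; abel_nf; try simp only [twoZ, fourZ, sixZ, eightZ, add_zero, zero_add])

theorem Art.QP (hn : Odd n) (h5 : 5 ≤ n) (p q r y z : A) (l : Multiset A) :
    bQP F p q r y z l + ms (pQP F p q r y z) l = 0 := by
  have h1 := h.ms_k hn h5 p q r ((y * z) ::ₘ l)
  rw [ms_cons] at h1
  have r1 : ∀ u v : A, ∀ t, u ::ₘ v ::ₘ (y * z) ::ₘ t = (y * z) ::ₘ u ::ₘ v ::ₘ t :=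
    fun u v t => by rw [Multiset.cons_swap v, Multiset.cons_swap u]
  simp only [r1, h.mul_cons2] at h1
  rw [D_comm (y * z) p, D_comm (y * z) q] at h1
  exact h1

theorem Art.QR (hn : Odd n) (h5 : 5 ≤ n) (p q r s w : A) (l : Multiset A) :
    bQR F p q r s w l + ms (pQR F p q r s w) l = 0 := by
  have h1 := h.ms_k hn h5 p q r (s ::ₘ l)
  rw [ms_cons] at h1
  have h2 := congrArg (fun z => z * w) h1
  simp only [zero_mul, add_mul, ms_mul] at h2
  exact h2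

omit h in
theorem tau_id9 (x W : A) : D x W + x * W + W * x = 0 := by
  rw [D]
  (abel_nf; try simp only [twoZ, fourZ, sixZ, eightZ, add_zero, zero_add])

omit h in
/-- The base part. -/
theorem tau_base (F : Multiset A → A) (u v a b c : A) (l : Multiset A) :
    (D (u * v) a * F (b ::ₘ c ::ₘ l) + D a b * (u * F (v ::ₘ c ::ₘ l)) +
      D a b * (F (u ::ₘ c ::ₘ l) * v) + D a b * D c (F (u ::ₘ v ::ₘ l)) +
      D b (u * v) * F (a ::ₘ c ::ₘ l)) +
    u * tau3 F v a b (c ::ₘ l) + tau3 F u a b (c ::ₘ l) * v + D a (tau3 F u v b (c ::ₘ l)) +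
    D b (tau3 F u v a (c ::ₘ l)) + D c (tau3 F u a b (v ::ₘ l)) +
    (bQP F u a c b v l + bQP F u b c a v l + bQ3 F u c a v b l + bQ3 F u c b v a l + bQ2 F v a b u c l + bQ2 F v a c b u l + bQ2 F v b a u c l + bQ2 F v b c a u l + bQ2 F v c a u b l + bQ2 F v c b u a l + bQR F a b u v c l + bQ3 F a b c v u l + bQR F a c u v b l + bQR F b c u v a l + bC3 F c v a u b l + bC3 F c v b u a l +
      cyc4 F u a c b l * v + cyc4 F v a c b l * u) = 0 := by
  have svu : ∀ t, v ::ₘ u ::ₘ t = u ::ₘ v ::ₘ t := fun t => Multiset.cons_swap _ _ _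
  have sau : ∀ t, a ::ₘ u ::ₘ t = u ::ₘ a ::ₘ t := fun t => Multiset.cons_swap _ _ _
  have sav : ∀ t, a ::ₘ v ::ₘ t = v ::ₘ a ::ₘ t := fun t => Multiset.cons_swap _ _ _
  have sbu : ∀ t, b ::ₘ u ::ₘ t = u ::ₘ b ::ₘ t := fun t => Multiset.cons_swap _ _ _
  have sbv : ∀ t, b ::ₘ v ::ₘ t = v ::ₘ b ::ₘ t := fun t => Multiset.cons_swap _ _ _
  have sba : ∀ t, b ::ₘ a ::ₘ t = a ::ₘ b ::ₘ t := fun t => Multiset.cons_swap _ _ _
  have scu : ∀ t, c ::ₘ u ::ₘ t = u ::ₘ c ::ₘ t := fun t => Multiset.cons_swap _ _ _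
  have scv : ∀ t, c ::ₘ v ::ₘ t = v ::ₘ c ::ₘ t := fun t => Multiset.cons_swap _ _ _
  have sca : ∀ t, c ::ₘ a ::ₘ t = a ::ₘ c ::ₘ t := fun t => Multiset.cons_swap _ _ _
  have scb : ∀ t, c ::ₘ b ::ₘ t = b ::ₘ c ::ₘ t := fun t => Multiset.cons_swap _ _ _
  have dvu : D v u = D u v := D_comm _ _
  have dau : D a u = D u a := D_comm _ _
  have dav : D a v = D v a := D_comm _ _
  have dbu : D b u = D u b := D_comm _ _
  have dbv : D b v = D v b := D_comm _ _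
  have dba : D b a = D a b := D_comm _ _
  have dcu : D c u = D u c := D_comm _ _
  have dcv : D c v = D v c := D_comm _ _
  have dca : D c a = D a c := D_comm _ _
  have dcb : D c b = D b c := D_comm _ _
  have k1 : ∀ p q r : A, D (p * q) r = D r (p * q) := fun p q r => D_comm _ _
  have H := congrArg₂ (· + ·) (congrArg₂ (· + ·) (congrArg₂ (· + ·) (congrArg₂ (· + ·)
    (congrArg₂ (· + ·) (congrArg₂ (· + ·) (congrArg₂ (· + ·) (congrArg₂ (· + ·)
    (tau_id1 u v b (F (a ::ₘ c ::ₘ l))) (tau_id1 u v a (F (b ::ₘ c ::ₘ l))))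
    (tau_id2 v b c (F (u ::ₘ a ::ₘ l)))) (tau_id2 v a c (F (u ::ₘ b ::ₘ l))))
    (tau_id3 v a b (F (u ::ₘ c ::ₘ l)))) (tau_id4 a b c (F (u ::ₘ v ::ₘ l))))
    (tau_id5 u b c (F (v ::ₘ a ::ₘ l)))) (tau_id5 u a c (F (v ::ₘ b ::ₘ l))))
    (tau_id6 u a b (F (v ::ₘ c ::ₘ l)))
  simp only [add_zero] at H
  refine Eq.trans ?_ H
  simp only [bQP, bQ3, bQ2, bQR, bC3, cyc4, tau3, svu, sau, sav, sbu, sbv, sba, scu, scv, sca, scb, dvu, dau, dav, dbu, dbv, dba, dcu, dcv, dca, dcb, k1, mul_add, add_mul, D_add2]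
  (apply eq_of_add; abel_nf; try simp only [twoZ, fourZ, sixZ, eightZ, add_zero, zero_add])

omit h in
/-- The part inside the letter sum. -/
theorem tau_point (F : Multiset A → A) (u v a b c x : A) (t : Multiset A) :
    D a b * D x (F (u ::ₘ v ::ₘ c ::ₘ t)) + D x (tau3 F u a b (v ::ₘ c ::ₘ t)) +
    (pQP F u a c b v x t + pQP F u b c a v x t + pQ3 F u c a v b x t + pQ3 F u c b v a x t + pQ2 F v a b u c x t + pQ2 F v a c b u x t + pQ2 F v b a u c x t + pQ2 F v b c a u x t + pQ2 F v c a u b x t + pQ2 F v c b u a x t + pQR F a b u v c x t + pQ3 F a b c v u x t + pQR F a c u v b x t + pQR F b c u v a x t + pC3 F c v a u b x t + pC3 F c v b u a x t +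
      x * cyc4 F u a c b (v ::ₘ t) + cyc4 F u a c b (v ::ₘ t) * x) = 0 := by
  have svu : ∀ t, v ::ₘ u ::ₘ t = u ::ₘ v ::ₘ t := fun t => Multiset.cons_swap _ _ _
  have sau : ∀ t, a ::ₘ u ::ₘ t = u ::ₘ a ::ₘ t := fun t => Multiset.cons_swap _ _ _
  have sav : ∀ t, a ::ₘ v ::ₘ t = v ::ₘ a ::ₘ t := fun t => Multiset.cons_swap _ _ _
  have sbu : ∀ t, b ::ₘ u ::ₘ t = u ::ₘ b ::ₘ t := fun t => Multiset.cons_swap _ _ _
  have sbv : ∀ t, b ::ₘ v ::ₘ t = v ::ₘ b ::ₘ t := fun t => Multiset.cons_swap _ _ _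
  have sba : ∀ t, b ::ₘ a ::ₘ t = a ::ₘ b ::ₘ t := fun t => Multiset.cons_swap _ _ _
  have scu : ∀ t, c ::ₘ u ::ₘ t = u ::ₘ c ::ₘ t := fun t => Multiset.cons_swap _ _ _
  have scv : ∀ t, c ::ₘ v ::ₘ t = v ::ₘ c ::ₘ t := fun t => Multiset.cons_swap _ _ _
  have sca : ∀ t, c ::ₘ a ::ₘ t = a ::ₘ c ::ₘ t := fun t => Multiset.cons_swap _ _ _
  have scb : ∀ t, c ::ₘ b ::ₘ t = b ::ₘ c ::ₘ t := fun t => Multiset.cons_swap _ _ _
  have dvu : D v u = D u v := D_comm _ _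
  have dau : D a u = D u a := D_comm _ _
  have dav : D a v = D v a := D_comm _ _
  have dbu : D b u = D u b := D_comm _ _
  have dbv : D b v = D v b := D_comm _ _
  have dba : D b a = D a b := D_comm _ _
  have dcu : D c u = D u c := D_comm _ _
  have dcv : D c v = D v c := D_comm _ _
  have dca : D c a = D a c := D_comm _ _
  have dcb : D c b = D b c := D_comm _ _
  have dxu : D x u = D u x := D_comm _ _
  have dxv : D x v = D v x := D_comm _ _
  have dxa : D x a = D a x := D_comm _ _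
  have dxb : D x b = D b x := D_comm _ _
  have dxc : D x c = D c x := D_comm _ _
  have k1 : ∀ p q r : A, D (p * q) r = D r (p * q) := fun p q r => D_comm _ _
  have H := congrArg₂ (· + ·) (congrArg₂ (· + ·) (congrArg₂ (· + ·) (congrArg₂ (· + ·)
    (tau_id7 b c x (F (u ::ₘ v ::ₘ a ::ₘ t))) (tau_id7 a c x (F (u ::ₘ v ::ₘ b ::ₘ t))))
    (tau_id8 a b x (F (u ::ₘ v ::ₘ c ::ₘ t))))
    (tau_id9 x (D u b * F (v ::ₘ a ::ₘ c ::ₘ t)))) (tau_id9 x (D u a * F (v ::ₘ b ::ₘ c ::ₘ t)))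
  simp only [add_zero] at H
  refine Eq.trans ?_ H
  simp only [pQP, pQ3, pQ2, pQR, pC3, fc2, cyc4, tau3, svu, sau, sav, sbu, sbv, sba, scu, scv, sca, scb, dvu, dau, dav, dbu, dbv, dba, dcu, dcv, dca, dcb, dxu, dxv, dxa, dxb, dxc, k1,
    mul_add, add_mul, D_add2]
  (apply eq_of_add; abel_nf; try simp only [twoZ, fourZ, sixZ, eightZ, add_zero, zero_add])

end

end

end MP6489b8.AF
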