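import Mathlib
import Pool.Agent.Lib.MP_6489b8_al.AF.Tau

/-!
# The divided step as a function of multisets
-/

set_option linter.unusedSimpArgs false

namespace MP6489b8.AF

open MP6489b8 MP6489b8.CT

noncomputable section

section

variable {A : Type*} [NonUnitalNonAssocRing A] {n : ℕ} {F : Multiset A → A}
  (h : Art n F)
include h

variable [Alt2 A]

theorem Art.tau_main (hn : Odd n) (h5 : 5 ≤ n) (u v a b c : A) (l : Multiset A) :
    tau3 F (u * v) a b (c ::ₘ l) + u * tau3 F v a b (c ::ₘ l) + tau3 F u a b (c ::ₘ l) * v +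
      D a (tau3 F u v b (c ::ₘ l)) + D b (tau3 F u v a (c ::ₘ l)) +
      D c (tau3 F u a b (v ::ₘ l)) +
      ms (fun x t => D x (tau3 F u a b (v ::ₘ c ::ₘ t))) l = 0 := by
  have hb := tau_base F u v a b c l
  have hp := ms_eq_zero' l (tau_point F u v a b c)
  simp only [ms_add] at hp
  have q1 : bQP F u a c b v l + ms (fun x t => pQP F u a c b v x t) l = 0 := h.QP hn h5 u a c b v l
  have q2 : bQP F u b c a v l + ms (fun x t => pQP F u b c a v x t) l = 0 := h.QP hn h5 u b c a v l
  have q3 : bQ3 F u c a v b l + ms (fun x t => pQ3 F u c a v b x t) l = 0 := h.Q3 hn h5 u c a v b l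
  have q4 : bQ3 F u c b v a l + ms (fun x t => pQ3 F u c b v a x t) l = 0 := h.Q3 hn h5 u c b v a l
  have q5 : bQ2 F v a b u c l + ms (fun x t => pQ2 F v a b u c x t) l = 0 := h.Q2 hn h5 v a b u c l
  have q6 : bQ2 F v a c b u l + ms (fun x t => pQ2 F v a c b u x t) l = 0 := h.Q2 hn h5 v a c b u l
  have q7 : bQ2 F v b a u c l + ms (fun x t => pQ2 F v b a u c x t) l = 0 := h.Q2 hn h5 v b a u c l
  have q8 : bQ2 F v b c a u l + ms (fun x t => pQ2 F v b c a u x t) l = 0 := h.Q2 hn h5 v b c a u l
  have q9 : bQ2 F v c a u b l + ms (fun x t => pQ2 F v c a u b x t) l = 0 := h.Q2 hn h5 v c a u b l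
  have q10 : bQ2 F v c b u a l + ms (fun x t => pQ2 F v c b u a x t) l = 0 := h.Q2 hn h5 v c b u a l
  have q11 : bQR F a b u v c l + ms (fun x t => pQR F a b u v c x t) l = 0 := h.QR hn h5 a b u v c l
  have q12 : bQ3 F a b c v u l + ms (fun x t => pQ3 F a b c v u x t) l = 0 := h.Q3 hn h5 a b c v u l
  have q13 : bQR F a c u v b l + ms (fun x t => pQR F a c u v b x t) l = 0 := h.QR hn h5 a c u v b l
  have q14 : bQR F b c u v a l + ms (fun x t => pQR F b c u v a x t) l = 0 := h.QR hn h5 b c u v a l
  have q15 : bC3 F c v a u b l + ms (fun x t => pC3 F c v a u b x t) l = 0 := h.C3 hn h5 c v a u b l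
  have q16 : bC3 F c v b u a l + ms (fun x t => pC3 F c v b u a x t) l = 0 := h.C3 hn h5 c v b u a l
  have k1 : ms (fun x t => x * cyc4 F u a c b (v ::ₘ t)) l = 0 :=
    ms_eq_zero' l fun x t => by rw [h.cyc4_eq hn h5, mul_zero]
  have k2 : ms (fun x t => cyc4 F u a c b (v ::ₘ t) * x) l = 0 :=
    ms_eq_zero' l fun x t => by rw [h.cyc4_eq hn h5, zero_mul]
  rw [k1, k2, add_zero, add_zero] at hp
  rw [h.cyc4_eq hn h5, h.cyc4_eq hn h5, zero_mul, zero_mul, add_zero, add_zero] at hb
  have e : tau3 F (u * v) a b (c ::ₘ l) =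
      (D (u * v) a * F (b ::ₘ c ::ₘ l) + D a b * (u * F (v ::ₘ c ::ₘ l)) +
        D a b * (F (u ::ₘ c ::ₘ l) * v) + D a b * D c (F (u ::ₘ v ::ₘ l)) +
        D b (u * v) * F (a ::ₘ c ::ₘ l)) + ms (fun x t => D a b * D x (F (u ::ₘ v ::ₘ c ::ₘ t))) l := by
    rw [tau3, h.mul_cons, ← mul_ms]
    simp only [mul_add]
    abel
  rw [e]
  generalize bQP F u a c b v l = B1 at hb q1
  generalize ms (fun x t => pQP F u a c b v x t) l = M1 at hp q1
  generalize bQP F u b c a v l = B2 at hb q2
  generalize ms (fun x t => pQP F u b c a v x t) l = M2 at hp q2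
  generalize bQ3 F u c a v b l = B3 at hb q3
  generalize ms (fun x t => pQ3 F u c a v b x t) l = M3 at hp q3
  generalize bQ3 F u c b v a l = B4 at hb q4
  generalize ms (fun x t => pQ3 F u c b v a x t) l = M4 at hp q4
  generalize bQ2 F v a b u c l = B5 at hb q5
  generalize ms (fun x t => pQ2 F v a b u c x t) l = M5 at hp q5
  generalize bQ2 F v a c b u l = B6 at hb q6
  generalize ms (fun x t => pQ2 F v a c b u x t) l = M6 at hp q6
  generalize bQ2 F v b a u c l = B7 at hb q7
  generalize ms (fun x t => pQ2 F v b a u c x t) l = M7 at hp q7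
  generalize bQ2 F v b c a u l = B8 at hb q8
  generalize ms (fun x t => pQ2 F v b c a u x t) l = M8 at hp q8
  generalize bQ2 F v c a u b l = B9 at hb q9
  generalize ms (fun x t => pQ2 F v c a u b x t) l = M9 at hp q9
  generalize bQ2 F v c b u a l = B10 at hb q10
  generalize ms (fun x t => pQ2 F v c b u a x t) l = M10 at hp q10
  generalize bQR F a b u v c l = B11 at hb q11
  generalize ms (fun x t => pQR F a b u v c x t) l = M11 at hp q11
  generalize bQ3 F a b c v u l = B12 at hb q12
  generalize ms (fun x t => pQ3 F a b c v u x t) l = M12 at hp q12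
  generalize bQR F a c u v b l = B13 at hb q13
  generalize ms (fun x t => pQR F a c u v b x t) l = M13 at hp q13
  generalize bQR F b c u v a l = B14 at hb q14
  generalize ms (fun x t => pQR F b c u v a x t) l = M14 at hp q14
  generalize bC3 F c v a u b l = B15 at hb q15
  generalize ms (fun x t => pC3 F c v a u b x t) l = M15 at hp q15
  generalize bC3 F c v b u a l = B16 at hb q16
  generalize ms (fun x t => pC3 F c v b u a x t) l = M16 at hp q16
  generalize (D (u * v) a * F (b ::ₘ c ::ₘ l) + D a b * (u * F (v ::ₘ c ::ₘ l)) +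
        D a b * (F (u ::ₘ c ::ₘ l) * v) + D a b * D c (F (u ::ₘ v ::ₘ l)) +
        D b (u * v) * F (a ::ₘ c ::ₘ l)) = E at hb ⊢
  generalize u * tau3 F v a b (c ::ₘ l) = T1 at hb ⊢
  generalize tau3 F u a b (c ::ₘ l) * v = T2 at hb ⊢
  generalize D a (tau3 F u v b (c ::ₘ l)) = T3 at hb ⊢
  generalize D b (tau3 F u v a (c ::ₘ l)) = T4 at hb ⊢
  generalize D c (tau3 F u a b (v ::ₘ l)) = T5 at hb ⊢
  generalize ms (fun x t => D a b * D x (F (u ::ₘ v ::ₘ c ::ₘ t))) l = N1 at hp ⊢
  generalize ms (fun x t => D x (tau3 F u a b (v ::ₘ c ::ₘ t))) l = N2 at hp ⊢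
  have g1 : B1 = M1 := eq_of_add q1
  have g2 : B2 = M2 := eq_of_add q2
  have g3 : B3 = M3 := eq_of_add q3
  have g4 : B4 = M4 := eq_of_add q4
  have g5 : B5 = M5 := eq_of_add q5
  have g6 : B6 = M6 := eq_of_add q6
  have g7 : B7 = M7 := eq_of_add q7
  have g8 : B8 = M8 := eq_of_add q8
  have g9 : B9 = M9 := eq_of_add q9
  have g10 : B10 = M10 := eq_of_add q10
  have g11 : B11 = M11 := eq_of_add q11
  have g12 : B12 = M12 := eq_of_add q12
  have g13 : B13 = M13 := eq_of_add q13
  have g14 : B14 = M14 := eq_of_add q14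
  have g15 : B15 = M15 := eq_of_add q15
  have g16 : B16 = M16 := eq_of_add q16
  rw [g1, g2, g3, g4, g5, g6, g7, g8, g9, g10, g11, g12, g13, g14, g15, g16] at hb
  have H := congrArg₂ (· + ·) hb hp
  simp only [add_zero] at H
  refine Eq.trans ?_ H
  (apply eq_of_add; abel_nf; try simp only [twoZ, fourZ, sixZ, eightZ, add_zero, zero_add])

end


section Lift

variable {α M : Type*}

/-- Functions of a multiset given by their values on `a ::ₘ s`. -/
theorem exists_lift [Zero M] (P : α → Multiset α → M)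
    (hP : ∀ a b s, P a (b ::ₘ s) = P b (a ::ₘ s)) :
    ∃ G : Multiset α → M, G 0 = 0 ∧ ∀ a s, G (a ::ₘ s) = P a s := by
  classical
  have key : ∀ s : Multiset α, ∃ m : M, (s = 0 → m = 0) ∧ ∀ a t, s = a ::ₘ t → m = P a t := by
    intro s
    induction s using Multiset.induction with
    | empty => exact ⟨0, fun _ => rfl, fun a t h => absurd h.symm (Multiset.cons_ne_zero)⟩
    | cons a s _ =>
      refine ⟨P a s, fun h => absurd h (Multiset.cons_ne_zero), ?_⟩
      intro b t hbt
      rcases Multiset.cons_eq_cons.1 hbt with ⟨rfl, rfl⟩ | ⟨_, u, rfl, rfl⟩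
      · rfl
      · exact hP _ _ _
  choose G hG using key
  exact ⟨G, (hG 0).1 rfl, fun a s => (hG (a ::ₘ s)).2 a s rfl⟩

end Lift

section

variable {A : Type*} [NonUnitalNonAssocRing A]

theorem tau3_swap12 (F : Multiset A → A) (a b c : A) (s : Multiset A) :
    tau3 F a b c s = tau3 F b a c s := by
  rw [tau3, tau3, D_comm b a, D_comm a c, D_comm c b]
  abel

theorem tau3_swap23 (F : Multiset A → A) (a b c : A) (s : Multiset A) :
    tau3 F a b c s = tau3 F a c b s := by
  rw [tau3, tau3, D_comm a c, D_comm c b, D_comm b a]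
  abel

end

section

variable {A : Type*} [NonUnitalNonAssocRing A] {n : ℕ} {F : Multiset A → A}
  (h : Art n F)
include h

variable [Alt2 A]

theorem Art.tau3_exch (hn : Odd n) (h5 : 5 ≤ n) (a b c d : A) (s : Multiset A) :
    tau3 F a b c (d ::ₘ s) = tau3 F a b d (c ::ₘ s) := by
  have h1 := h.cyc hn h5 a c b d s
  apply eq_of_add
  rw [← h1, tau3, tau3, D_comm c b, D_comm d a, D_comm b d, D_comm c a,
    Multiset.cons_swap d c, Multiset.cons_swap c b]
  (apply eq_of_add; abel_nf; try simp only [twoZ, fourZ, sixZ, eightZ, add_zero, zero_add])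

/-- **The divided step.** -/
theorem Art.tau (hn : Odd n) (h5 : 5 ≤ n) : ∃ G : Multiset A → A, Art (n + 2) G ∧
    ∀ a b c s, G (a ::ₘ b ::ₘ c ::ₘ s) =
      D a b * F (c ::ₘ s) + D b c * F (a ::ₘ s) + D c a * F (b ::ₘ s) := by
  have e1 : ∀ a b : A, ∃ G : Multiset A → A, G 0 = 0 ∧ ∀ c s, G (c ::ₘ s) = tau3 F a b c s :=
    fun a b => exists_lift (fun c s => tau3 F a b c s) (fun c d s => h.tau3_exch hn h5 a b c d s)
  choose G2 hG2 using e1
  have ext2 : ∀ {K L : Multiset A → A}, K 0 = L 0 → (∀ c s, K (c ::ₘ s) = L (c ::ₘ s)) →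
      ∀ s, K s = L s := by
    intro K L h0 h1 s
    induction s using Multiset.induction with
    | empty => exact h0
    | cons a s _ => exact h1 a s
  have e2 : ∀ a : A, ∃ G : Multiset A → A, G 0 = 0 ∧ ∀ b s, G (b ::ₘ s) = G2 a b s := by
    intro a
    apply exists_lift (fun b s => G2 a b s)
    intro b c s
    rw [(hG2 a b).2, (hG2 a c).2, tau3_swap23]
  choose G1 hG1 using e2
  obtain ⟨G, hG⟩ : ∃ G : Multiset A → A, G 0 = 0 ∧ ∀ a s, G (a ::ₘ s) = G1 a s := by
    apply exists_lift (fun a s => G1 a s)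
    intro a b s
    rw [(hG1 a).2, (hG1 b).2]
    apply ext2
    · rw [(hG2 a b).1, (hG2 b a).1]
    · intro c s
      rw [(hG2 a b).2, (hG2 b a).2, tau3_swap12]
  have v3 : ∀ a b c s, G (a ::ₘ b ::ₘ c ::ₘ s) = tau3 F a b c s := by
    intro a b c s
    rw [hG.2, (hG1 a).2, (hG2 a b).2]
  have v2 : ∀ a b, G (a ::ₘ b ::ₘ 0) = 0 := by
    intro a b
    rw [hG.2, (hG1 a).2, (hG2 a b).1]
  have v1 : ∀ a, G (a ::ₘ 0) = 0 := by
    intro a
    rw [hG.2, (hG1 a).1]
  have cases3 : ∀ {P : Multiset A → Prop}, P 0 → (∀ b, P (b ::ₘ 0)) →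
      (∀ b c s, P (b ::ₘ c ::ₘ s)) → ∀ s, P s := by
    intro P h0 h1 h2 s
    induction s using Multiset.induction with
    | empty => exact h0
    | cons b s _ =>
      induction s using Multiset.induction with
      | empty => exact h1 b
      | cons c s _ => exact h2 b c s
  have hlen : ∀ s, Multiset.card s ≠ n + 2 → G s = 0 := by
    intro s
    induction s using Multiset.induction with
    | empty => exact fun _ => hG.1
    | cons a s ih =>
      clear ih
      revert s
      apply cases3
      · exact fun _ => v1 a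
      · exact fun b _ => v2 a b
      · intro b c s hs
        have hs' : Multiset.card s + 1 ≠ n := by
          intro hc
          apply hs
          simp only [Multiset.card_cons]
          omega
        have hz : ∀ x, F (x ::ₘ s) = 0 := fun x => h.len _ (by
          simpa only [Multiset.card_cons] using hs')
        rw [v3, tau3, hz, hz, hz]
        simp only [mul_zero, add_zero]
  refine ⟨G, ⟨⟨?_, ?_⟩, hlen, ?_, ?_⟩, v3⟩
  · intro a a' s
    revert s
    apply cases3
    · rw [v1, v1, v1, add_zero]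
    · intro b
      rw [v2, v2, v2, add_zero]
    · intro b c s
      rw [v3, v3, v3, tau3, tau3, tau3, h.add, D_comm c (a + a'), D_add1, D_add1, D_comm a c,
        D_comm a' c]
      simp only [mul_add, add_mul]
      abel
  · intro S a s
    revert s
    apply cases3
    · rw [v1, v1, map_zero]
    · intro b
      rw [v2, v2, map_zero]
    · intro b c s
      have hD : ∀ x, D (S.f a) x = S.f (D a x) := by
        intro x
        simp only [D, map_add, S.left, ← S.right]
      have hD' : ∀ x, D x (S.f a) = S.f (D x a) := by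
        intro x
        rw [D_comm, hD, D_comm]
      rw [v3, v3, tau3, tau3, h.centr, hD, hD', map_add, map_add,
        S.left (D a b), S.right (D b c), S.left (D c a)]
  · intro a s
    induction s using Multiset.induction with
    | empty => exact v2 a a
    | cons c s _ =>
      rw [v3, tau3]
      have hD : D a a = 0 := two _
      rw [hD, zero_mul, zero_add, D_comm c a, two]
  · intro u v s
    by_cases hs : Multiset.card s + 1 = n + 2
    · obtain ⟨a, s, rfl⟩ : ∃ a t, s = a ::ₘ t := by
        induction s using Multiset.induction with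
        | empty => simp at hs
        | cons a s _ => exact ⟨a, s, rfl⟩
      obtain ⟨b, s, rfl⟩ : ∃ a t, s = a ::ₘ t := by
        induction s using Multiset.induction with
        | empty => simp at hs; omega
        | cons a s _ => exact ⟨a, s, rfl⟩
      obtain ⟨c, l, rfl⟩ : ∃ a t, s = a ::ₘ t := by
        induction s using Multiset.induction with
        | empty => simp at hs; omega
        | cons a s _ => exact ⟨a, s, rfl⟩
      have hm := h.tau_main hn h5 u v a b c l
      have w1 : ∀ t, u ::ₘ v ::ₘ a ::ₘ b ::ₘ t = u ::ₘ a ::ₘ b ::ₘ v ::ₘ t := by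
        intro t
        rw [Multiset.cons_swap v a, Multiset.cons_swap v b]
      have w2 : ∀ t, u ::ₘ v ::ₘ a ::ₘ b ::ₘ c ::ₘ t = u ::ₘ a ::ₘ b ::ₘ v ::ₘ c ::ₘ t :=
        fun t => w1 _
      rw [ms_cons, ms_cons, ms_cons]
      simp only [w1, v3]
      apply eq_of_add
      refine Eq.trans ?_ hm
      (apply eq_of_add; abel_nf; try simp only [twoZ, fourZ, sixZ, eightZ, add_zero, zero_add])
    · have z : ∀ t : Multiset A, Multiset.card t = Multiset.card s + 1 → G t = 0 := by
        intro t ht
        apply hlen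
        omega
      rw [z _ (by simp), z _ (by simp), z _ (by simp), mul_zero, zero_mul, ms_eq_zero]
      · simp only [add_zero]
      · intro x t hx
        rw [z, D_zero2]
        rw [← hx]
        simp

end

end

end MP6489b8.AF
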