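import Mathlib
import Pool.Agent.Lib.MP_6489b8_al.AF.Pass

/-!
# Extension of scalars of an integral model
-/

open scoped TensorProduct

namespace MP6489b8.AF

open MP6489b8 MP6489b8.CT

universe u

section

variable (Φ : Type u) [CommRing Φ] (A : Type) [NonUnitalNonAssocRing A]
/-- The tensor product. -/
def Tn : Type u := Φ ⊗[ℤ] A
noncomputable instance : NonUnitalNonAssocRing (Tn Φ A) :=
  inferInstanceAs (NonUnitalNonAssocRing (Φ ⊗[ℤ] A))
noncomputable instance : Module Φ (Tn Φ A) := inferInstanceAs (Module Φ (Φ ⊗[ℤ] A))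
variable {Φ A}
/-- Pure tensors. -/
noncomputable def tm (c : Φ) (a : A) : Tn Φ A := c ⊗ₜ[ℤ] a
theorem tm_mul (c d : Φ) (a b : A) : tm c a * tm d b = tm (c * d) (a * b) :=
  Algebra.TensorProduct.tmul_mul_tmul c d a b
theorem tm_add (c : Φ) (a b : A) : tm c (a + b) = tm c a + tm c b := TensorProduct.tmul_add c a b
theorem smul_tm (c d : Φ) (a : A) : c • tm d a = tm (c * d) a := rfl
theorem tn_ind {P : Tn Φ A → Prop} (zero : P 0) (tmul : ∀ c a, P (tm c a))
    (add : ∀ x y, P x → P y → P (x + y)) (x : Tn Φ A) : P x :=
  TensorProduct.induction_on x zero tmul add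

instance : IsScalarTower Φ (Tn Φ A) (Tn Φ A) where
  smul_assoc c x y := by
    rw [smul_eq_mul, smul_eq_mul]
    revert x
    refine tn_ind ?_ ?_ ?_
    · rw [smul_zero, zero_mul, smul_zero]
    · intro d a
      revert y
      refine tn_ind ?_ ?_ ?_
      · rw [mul_zero, mul_zero, smul_zero]
      · intro e b
        rw [smul_tm, tm_mul, tm_mul, smul_tm, mul_assoc]
      · intro y y' h h'
        rw [mul_add, mul_add, smul_add, h, h']
    · intro x x' h h'
      rw [smul_add, add_mul, add_mul, smul_add, h, h']

instance : SMulCommClass Φ (Tn Φ A) (Tn Φ A) where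
  smul_comm c x y := by
    rw [smul_eq_mul, smul_eq_mul]
    revert x
    refine tn_ind ?_ ?_ ?_
    · rw [zero_mul, zero_mul, smul_zero]
    · intro d a
      revert y
      refine tn_ind ?_ ?_ ?_
      · rw [mul_zero, smul_zero, mul_zero]
      · intro e b
        rw [smul_tm, tm_mul, tm_mul, smul_tm, mul_left_comm]
      · intro y y' h h'
        rw [mul_add, smul_add, smul_add, mul_add, h, h']
    · intro x x' h h'
      rw [add_mul, add_mul, smul_add, h, h']

theorem tn_left (hA : IsAlt A) (x x' y : Tn Φ A) :
    (x * x') * y + (x' * x) * y = x * (x' * y) + x' * (x * y) := by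
  revert x
  refine tn_ind ?_ ?_ ?_
  · simp only [zero_mul, mul_zero]
  · intro c a
    revert x'
    refine tn_ind ?_ ?_ ?_
    · simp only [zero_mul, mul_zero]
    · intro c' a'
      revert y
      refine tn_ind ?_ ?_ ?_
      · simp only [mul_zero]
      · intro d b
        simp only [tm_mul]
        rw [mul_comm c' c, show c * (c' * d) = c * c' * d by ring,
          show c' * (c * d) = c * c' * d by ring, ← tm_add, ← tm_add, hA.lin_left a a' b]
      · intro p q hp hq
        have e := congrArg₂ (· + ·) hp hq
        simp only [mul_add] at e ⊢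
        calc _ = tm c a * tm c' a' * p + tm c' a' * tm c a * p +
            (tm c a * tm c' a' * q + tm c' a' * tm c a * q) := by abel
          _ = _ := e
          _ = _ := by abel
    · intro p q hp hq
      have e := congrArg₂ (· + ·) hp hq
      simp only [add_mul, mul_add] at e ⊢
      calc _ = tm c a * p * y + p * tm c a * y + (tm c a * q * y + q * tm c a * y) := by abel
        _ = _ := e
        _ = _ := by abel
  · intro a b ha hb
    have e := congrArg₂ (· + ·) ha hb
    simp only [add_mul, mul_add] at e ⊢
    calc _ = a * x' * y + x' * a * y + (b * x' * y + x' * b * y) := by abel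
      _ = _ := e
      _ = _ := by abel

theorem tn_right (hA : IsAlt A) (x x' y : Tn Φ A) :
    (y * x) * x' + (y * x') * x = y * (x * x') + y * (x' * x) := by
  revert x
  refine tn_ind ?_ ?_ ?_
  · simp only [zero_mul, mul_zero, add_zero]
  · intro c a
    revert x'
    refine tn_ind ?_ ?_ ?_
    · simp only [zero_mul, mul_zero, add_zero]
    · intro c' a'
      revert y
      refine tn_ind ?_ ?_ ?_
      · simp only [zero_mul]
      · intro d b
        simp only [tm_mul]
        rw [mul_comm c' c, show d * c * c' = d * (c * c') by ring,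
          show d * c' * c = d * (c * c') by ring, ← tm_add, ← tm_add, hA.lin_right a a' b]
      · intro p q hp hq
        have e := congrArg₂ (· + ·) hp hq
        simp only [add_mul] at e ⊢
        calc _ = p * tm c a * tm c' a' + p * tm c' a' * tm c a +
            (q * tm c a * tm c' a' + q * tm c' a' * tm c a) := by abel
          _ = _ := e
          _ = _ := by abel
    · intro p q hp hq
      have e := congrArg₂ (· + ·) hp hq
      simp only [add_mul, mul_add] at e ⊢
      calc _ = y * tm c a * p + y * p * tm c a + (y * tm c a * q + y * q * tm c a) := by abel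
        _ = _ := e
        _ = _ := by abel
  · intro a b ha hb
    have e := congrArg₂ (· + ·) ha hb
    simp only [add_mul, mul_add] at e ⊢
    calc _ = y * a * x' + y * x' * a + (y * b * x' + y * x' * b) := by abel
      _ = _ := e
      _ = _ := by abel

/-- The square laws. -/
theorem tn_left_self (hA : IsAlt A) (x y : Tn Φ A) : (x * x) * y = x * (x * y) := by
  revert x
  refine tn_ind ?_ ?_ ?_
  · simp only [zero_mul]
  · intro c a
    revert y
    refine tn_ind ?_ ?_ ?_
    · simp only [mul_zero]
    · intro d b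
      simp only [tm_mul]
      rw [(hA a b).1, mul_assoc]
    · intro p q hp hq
      rw [mul_add, mul_add, mul_add, hp, hq]
  · intro a b ha hb
    have e := tn_left hA a b y
    simp only [add_mul, mul_add]
    rw [ha, hb]
    calc _ = a * (a * y) + b * (b * y) + (a * b * y + b * a * y) := by abel
      _ = a * (a * y) + b * (b * y) + (a * (b * y) + b * (a * y)) := by rw [e]
      _ = _ := by abel

theorem tn_right_self (hA : IsAlt A) (x y : Tn Φ A) : (y * x) * x = y * (x * x) := by
  revert x
  refine tn_ind ?_ ?_ ?_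
  · simp only [mul_zero]
  · intro c a
    revert y
    refine tn_ind ?_ ?_ ?_
    · simp only [zero_mul]
    · intro d b
      simp only [tm_mul]
      rw [(hA a b).2, mul_assoc]
    · intro p q hp hq
      rw [add_mul, add_mul, add_mul, hp, hq]
  · intro a b ha hb
    have e := tn_right hA a b y
    simp only [add_mul, mul_add]
    rw [ha, hb]
    calc _ = y * (a * a) + y * (b * b) + (y * a * b + y * b * a) := by abel
      _ = y * (a * a) + y * (b * b) + (y * (a * b) + y * (b * a)) := by rw [e]
      _ = _ := by abel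

theorem isAlt_tn (hA : IsAlt A) : IsAlt (Tn Φ A) :=
  fun x y => ⟨tn_left_self hA x y, tn_right_self hA x y⟩

/-- The map `a ↦ 1 ⊗ a`. -/
noncomputable def toTn : A →ₙ+* Tn Φ A where
  toFun a := tm 1 a
  map_zero' := TensorProduct.tmul_zero _ _
  map_add' a b := tm_add 1 a b
  map_mul' a b := by rw [tm_mul, one_mul]

theorem toTn_apply (a : A) : toTn (Φ := Φ) a = tm 1 a := rfl

/-- The functional `1 ⊗ l`. -/
noncomputable def funl (l : A →+ ℤ) : Tn Φ A →+ Φ :=
  TensorProduct.liftAddHom (AddMonoidHom.mk' (fun c : Φ =>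
    AddMonoidHom.mk' (fun a : A => l a • c) (fun a a' => by rw [map_add, add_smul]))
    (fun c c' => by ext a; exact smul_add _ _ _))
    (fun r c a => by
      change l a • (r • c) = l (r • a) • c
      rw [map_zsmul, smul_comm, smul_assoc])

theorem funl_tm (l : A →+ ℤ) (c : Φ) (a : A) : funl l (tm c a) = l a • c :=
  TensorProduct.liftAddHom_tmul _ _ _ _

end

/-- **Separation by an integral model.** -/
theorem strict_of_model (P : ∀ (B : Type u) [NonUnitalNonAssocRing B], List B → B) (hP : Natl P)
    {m : ℕ} (hm : 0 < m) (hv : VanOn m P) (A : Type) [NonUnitalNonAssocRing A] (hA : IsAlt A)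
    (Q : List A → A) (hQ : ∀ (B : Type u) [NonUnitalNonAssocRing B] (φ : A →ₙ+* B) (xs : List A),
      φ (Q xs) = P B (xs.map φ))
    (l : A →+ ℤ) (x : Fin (m + 1) → A) (hodd : Odd (l (Q (List.ofFn x))))
    (Φ : Type u) [CommRing Φ] (s : Φ) (hs : s * 2 = 0) (h0 : s ≠ 0) : StrictStep Φ m := by
  apply strict_of hP hm hv Φ s hs (Tn Φ A) (isAlt_tn hA) (fun i => toTn (x i))
  intro h
  have h1 := hQ (Tn Φ A) toTn (List.ofFn x)
  rw [List.map_ofFn, Function.comp_def] at h1
  rw [← h1, toTn_apply, smul_tm] at h
  have h2 := congrArg (funl l) h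
  rw [funl_tm, map_zero] at h2
  obtain ⟨k, hk⟩ := hodd
  rw [hk, add_smul, mul_comm, mul_smul, mul_one, one_smul, two_zsmul, ← mul_two, hs, smul_zero,
    zero_add] at h2
  exact h0 h2

/-- The same with lists. -/
theorem strict_of_model_list (P : ∀ (B : Type u) [NonUnitalNonAssocRing B], List B → B)
    (hP : Natl P) {m : ℕ} (hm : 0 < m) (hv : VanOn m P) (A : Type) [NonUnitalNonAssocRing A]
    (hA : IsAlt A) (Q : List A → A)
    (hQ : ∀ (B : Type u) [NonUnitalNonAssocRing B] (φ : A →ₙ+* B) (xs : List A),
      φ (Q xs) = P B (xs.map φ))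
    (l : A →+ ℤ) (xs : List A) (hx : xs.length = m + 1) (hodd : Odd (l (Q xs)))
    (Φ : Type u) [CommRing Φ] (s : Φ) (hs : s * 2 = 0) (h0 : s ≠ 0) : StrictStep Φ m := by
  refine strict_of_model P hP hm hv A hA Q hQ l (fun i => xs.get (Fin.cast hx.symm i)) ?_ Φ s hs h0
  have : List.ofFn (fun i : Fin (m + 1) => xs.get (Fin.cast hx.symm i)) = xs := by
    apply List.ext_getElem
    · simp [hx]
    · intro i h1 h2
      rw [List.getElem_ofFn]
      rfl
  rw [this]
  exact hodd

end MP6489b8.AF
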