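import Mathlib
import Pool.Agent.Lib.MP_6489b8_al.AF.Cyc

/-!
# Theorem B: the bracket of an Artin form

An Artin form `F` of degree `n ≥ 4` which satisfies the relations of four-cycles has a bracket
`[X, F]` (a form of degree `n + 1`) which vanishes in every ring generated by `n` elements.
-/

namespace MP6489b8.AF

open MP6489b8 MP6489b8.CT

variable {A : Type*} [NonUnitalNonAssocRing A]

/-- The bracket `[X, F]`. -/
noncomputable def brk (F : Multiset A → A) (s : Multiset A) : A := ms (fun x t => D x (F t)) s

/-- The relations of four-cycles. -/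
structure Cyc (F : Multiset A → A) : Prop where
  k : ∀ a b c d s, D a b * F (c ::ₘ d ::ₘ s) + D b c * F (a ::ₘ d ::ₘ s) +
    D c d * F (a ::ₘ b ::ₘ s) + D d a * F (b ::ₘ c ::ₘ s) = 0
  k' : ∀ a b c d s, F (c ::ₘ d ::ₘ s) * D a b + F (a ::ₘ d ::ₘ s) * D b c +
    F (a ::ₘ b ::ₘ s) * D c d + F (b ::ₘ c ::ₘ s) * D d a = 0
  r : ∀ a b c d s, as a b (F (c ::ₘ d ::ₘ s)) + as b c (F (a ::ₘ d ::ₘ s)) +
    as c d (F (a ::ₘ b ::ₘ s)) + as d a (F (b ::ₘ c ::ₘ s)) = 0

/-- The ideal generated by `u`, with degrees. -/
inductive MM {ι : Type*} (g : ι → A) (u : A) : ℕ → A → Prop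
  | base : MM g u 0 u
  | left (w : FreeMagma ι) {d : ℕ} {m : A} : MM g u d m → MM g u (d + w.length) (ev g w * m)
  | right (w : FreeMagma ι) {d : ℕ} {m : A} : MM g u d m → MM g u (d + w.length) (m * ev g w)
  | zero (d : ℕ) : MM g u d 0
  | add {d : ℕ} {a b : A} : MM g u d a → MM g u d b → MM g u d (a + b)

/-- Sums of products `m c`. -/
inductive RM {ι : Type*} (g : ι → A) (u : A) : ℕ → A → Prop
  | mk (c : FreeMagma ι) {d : ℕ} {m : A} : MM g u d m → RM g u (d + c.length) (m * ev g c)
  | zero (d : ℕ) : RM g u d 0
  | add {d : ℕ} {a b : A} : RM g u d a → RM g u d b → RM g u d (a + b)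

/-- Sums of products `c m`. -/
inductive LM {ι : Type*} (g : ι → A) (u : A) : ℕ → A → Prop
  | mk (c : FreeMagma ι) {d : ℕ} {m : A} : MM g u d m → LM g u (d + c.length) (ev g c * m)
  | zero (d : ℕ) : LM g u d 0
  | add {d : ℕ} {a b : A} : LM g u d a → LM g u d b → LM g u d (a + b)

/-- Commutators and associators vanish on the ideal up to the total degree `N`. -/
def HH {ι : Type*} (g : ι → A) (u : A) (N : ℕ) : Prop :=
  ∀ (p q : FreeMagma ι) (d : ℕ) (m : A), MM g u d m → p.length + q.length + d ≤ N →
    D (ev g p) (ev g q) * m = 0 ∧ m * D (ev g p) (ev g q) = 0 ∧ as (ev g p) (ev g q) m = 0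

/-- The first letter. -/
def fst {ι : Type*} : FreeMagma ι → ι
  | .of i => i
  | .mul a _ => fst a

/-- The last letter. -/
def lst {ι : Type*} : FreeMagma ι → ι
  | .of i => i
  | .mul _ a => lst a

theorem fst_mul {ι : Type*} (a b : FreeMagma ι) : fst (a * b) = fst a := rfl
theorem lst_mul {ι : Type*} (a b : FreeMagma ι) : lst (a * b) = lst b := rfl

theorem D_eq (a b : A) : D a b = a * b + b * a := rfl

section

variable [Alt2 A] {ι : Type*} {g : ι → A} {u : A} {N : ℕ}

omit [Alt2 A] in
theorem HH.mono (H : HH g u N) {N' : ℕ} (h : N' ≤ N) : HH g u N' :=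
  fun p q d m hm hle => H p q d m hm (hle.trans h)

theorem HH.ider (H : HH g u N) (p q a : FreeMagma ι) {d : ℕ} {m : A} (hm : MM g u d m)
    (h : p.length + q.length + a.length + d ≤ N + 1) :
    as (D (ev g p) (ev g q)) (ev g a) m = 0 := by
  have hp := len_pos p
  have hq := len_pos q
  rw [CT.ider, (H q a d m hm (by omega)).2.2, (H p a d m hm (by omega)).2.2, D_zero2, D_zero2,
    add_zero]

theorem mul_right_alt (c a m : A) : c * (a * m) = D c a * m + a * (c * m) := by
  have h : as c a m + as a c m = 0 := by rw [as12 a c m, two]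
  apply eq_of_add
  rw [← h]
  apply eq_of_add
  simp only [D, as, add_mul]
  abel_nf
  simp only [twoZ, add_zero]

theorem mul_left_alt (c a m : A) : (m * a) * c = m * D c a + (m * c) * a := by
  have h : as m a c + as m c a = 0 := by rw [as23 m c a, two]
  apply eq_of_add
  rw [← h]
  apply eq_of_add
  simp only [D, as, mul_add]
  abel_nf
  simp only [twoZ, add_zero]

theorem mul_as (a b c : A) : a * (b * c) = a * b * c + as a b c := by
  rw [as, ← add_assoc, two, zero_add]

theorem as_mul (a b c : A) : a * b * c = a * (b * c) + as a b c := by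
  rw [as, add_comm, add_assoc, two, add_zero]

/-- The left part of the step. -/
theorem kpart (H : HH g u N)
    (h1 : ∀ a b : FreeMagma ι, a.length + b.length = N + 1 → D (ev g a) (ev g b) * u = 0)
    {d : ℕ} {m : A} (hm : MM g u d m) (p q : FreeMagma ι) (hN : p.length + q.length + d ≤ N + 1) :
    D (ev g p) (ev g q) * m = 0 := by
  induction hm generalizing p q with
  | base =>
    rcases Nat.lt_or_ge (p.length + q.length) (N + 1) with hlt | hge
    · exact (H p q 0 u MM.base (by omega)).1
    · exact h1 p q (by omega)
  | @left w d m hm ih =>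
    have hw := len_pos w
    rw [mul_right_alt, (H p q d m hm (by omega)).1, mul_zero, add_zero, D_eq (ev g p), D_add1,
      ← ev_mul, ← ev_mul, add_mul, ih (p * q) w (by rw [len_mul]; omega),
      ih (q * p) w (by rw [len_mul]; omega), add_zero]
  | @right w d m hm ih =>
    have hw := len_pos w
    rw [mul_as, (H p q d m hm (by omega)).1, zero_mul, zero_add, as23,
      H.ider p q w hm (by omega)]
  | zero => rw [mul_zero]
  | add _ _ h1 h2 => rw [mul_add, h1 p q hN, h2 p q hN, add_zero]

/-- The right part of the step. -/
theorem kpart' (H : HH g u N)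
    (h1 : ∀ a b : FreeMagma ι, a.length + b.length = N + 1 → u * D (ev g a) (ev g b) = 0)
    {d : ℕ} {m : A} (hm : MM g u d m) (p q : FreeMagma ι) (hN : p.length + q.length + d ≤ N + 1) :
    m * D (ev g p) (ev g q) = 0 := by
  induction hm generalizing p q with
  | base =>
    rcases Nat.lt_or_ge (p.length + q.length) (N + 1) with hlt | hge
    · exact (H p q 0 u MM.base (by omega)).2.1
    · exact h1 p q (by omega)
  | @left w d m hm ih =>
    have hw := len_pos w
    rw [as_mul, (H p q d m hm (by omega)).2.1, mul_zero, zero_add, as13, as23,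
      H.ider p q w hm (by omega)]
  | @right w d m hm ih =>
    have hw := len_pos w
    rw [mul_left_alt, (H p q d m hm (by omega)).2.1, zero_mul, add_zero, D_eq (ev g p), D_add1,
      ← ev_mul, ← ev_mul, mul_add, ih (p * q) w (by rw [len_mul]; omega),
      ih (q * p) w (by rw [len_mul]; omega), add_zero]
  | zero => rw [zero_mul]
  | add _ _ h1 h2 => rw [add_mul, h1 p q hN, h2 p q hN, add_zero]

/-- Associators kill the ideal from the left. -/
theorem apart (H : HH g u N)
    (h1 : ∀ a b : FreeMagma ι, a.length + b.length = N + 1 → D (ev g a) (ev g b) * u = 0)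
    {d : ℕ} {m : A} (hm : MM g u d m) (p q a : FreeMagma ι)
    (hN : p.length + q.length + a.length + d ≤ N + 1) :
    as (ev g p) (ev g q) (ev g a) * m = 0 := by
  have hp := len_pos p
  have hq := len_pos q
  have ha := len_pos a
  have e1 := kpart H h1 hm (p * q) a (by rw [len_mul]; omega)
  have e2 : ev g p * D (ev g q) (ev g a) * m = 0 := by
    rw [as_mul, (H q a d m hm (by omega)).1, mul_zero, zero_add, as12, H.ider q a p hm (by omega)]
  have e3 : D (ev g p) (ev g a) * ev g q * m = 0 := by
    rw [as_mul, kpart H h1 (MM.left q hm) p a (by omega), zero_add, H.ider p a q hm (by omega)]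
  rw [nuc, add_mul, add_mul, e2, e3, ← ev_mul, e1, add_zero, add_zero]

/-- Associators kill the ideal from the right. -/
theorem apart' (H : HH g u N)
    (h1 : ∀ a b : FreeMagma ι, a.length + b.length = N + 1 → u * D (ev g a) (ev g b) = 0)
    {d : ℕ} {m : A} (hm : MM g u d m) (p q a : FreeMagma ι)
    (hN : p.length + q.length + a.length + d ≤ N + 1) :
    m * as (ev g p) (ev g q) (ev g a) = 0 := by
  have hp := len_pos p
  have hq := len_pos q
  have ha := len_pos a
  have e1 := kpart' H h1 hm (p * q) a (by rw [len_mul]; omega)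
  have e2 : m * (ev g p * D (ev g q) (ev g a)) = 0 := by
    rw [mul_as, kpart' H h1 (MM.right p hm) q a (by omega), zero_add, as13, as23, as23,
      H.ider q a p hm (by omega)]
  have e3 : m * (D (ev g p) (ev g a) * ev g q) = 0 := by
    rw [mul_as, (H p a d m hm (by omega)).2.1, zero_mul, zero_add, as12, as23,
      H.ider p a q hm (by omega)]
  rw [nuc, mul_add, mul_add, e2, e3, ← ev_mul, e1, add_zero, add_zero]

/-- The step from the generator `u` to the whole ideal. -/
theorem HH.step (H : HH g u N)
    (h1 : ∀ a b : FreeMagma ι, a.length + b.length = N + 1 → D (ev g a) (ev g b) * u = 0)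
    (h2 : ∀ a b : FreeMagma ι, a.length + b.length = N + 1 → u * D (ev g a) (ev g b) = 0)
    (h3 : ∀ i j : ι, N + 1 = 2 → as (g i) (g j) u = 0) :
    HH g u (N + 1) := by
  -- the associator on the generator
  have key : ∀ a b c : FreeMagma ι, (a * c).length + b.length = N + 1 →
      as (ev g b) u (ev g (a * c)) = 0 := by
    intro a b c hN
    rw [len_mul] at hN
    have ha := len_pos a
    have hb := len_pos b
    have hc := len_pos c
    have e1 : as (ev g b) u (ev g a) = 0 := by
      rw [as23]; exact (H b a 0 u MM.base (by omega)).2.2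
    have e2 : as (ev g b) u (ev g c) = 0 := by
      rw [as23]; exact (H b c 0 u MM.base (by omega)).2.2
    have e3 : as u (ev g a) (ev g c) = 0 := by
      rw [as12, as23]; exact (H a c 0 u MM.base (by omega)).2.2
    have e4 := apart H h1 MM.base b a c (by omega)
    have e5 := apart' H h2 MM.base b a c (by omega)
    rw [ev_mul, le, e1, e2, CT.ider, e3, zero_mul, mul_zero, D_zero2, zero_add, zero_add,
      zero_add, D, e4, e5, add_zero]
  have r1 : ∀ a b : FreeMagma ι, a.length + b.length = N + 1 → as (ev g a) (ev g b) u = 0 := by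
    intro a b hN
    induction a with
    | ih1 i =>
      induction b with
      | ih1 j =>
        rw [ev_of, ev_of]
        exact h3 i j (by
          have : (FreeMagma.of i).length = 1 := rfl
          have : (FreeMagma.of j).length = 1 := rfl
          omega)
      | ih2 a b _ _ =>
        rw [as23]
        exact key a (FreeMagma.of i) b (by omega)
    | ih2 a c _ _ =>
      rw [as12, as23]
      exact key a b c (by omega)
  intro p q d m hm hN
  refine ⟨kpart H h1 hm p q hN, kpart' H h2 hm p q hN, ?_⟩
  induction hm generalizing p q with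
  | base =>
    rcases Nat.lt_or_ge (p.length + q.length) (N + 1) with hlt | hge
    · exact (H p q 0 u MM.base (by omega)).2.2
    · exact r1 p q (by omega)
  | @left w d m hm ih =>
    have hw := len_pos w
    rw [le, apart H h1 hm p q w (by omega), ih p q (by omega), H.ider p q w hm (by omega),
      mul_zero, add_zero, add_zero]
  | @right w d m hm ih =>
    have hw := len_pos w
    rw [le, apart' H h2 hm p q w (by omega), ih p q (by omega), as23, H.ider p q w hm (by omega),
      zero_mul, add_zero, add_zero]
  | zero => rw [as_zero3]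
  | add _ _ h1 h2 => rw [as_add3, h1 p q hN, h2 p q hN, add_zero]

theorem RM.left (H : HH g u N) (a : FreeMagma ι) {e : ℕ} {v : A} (hv : RM g u e v)
    (h : e + a.length ≤ N) : RM g u (e + a.length) (ev g a * v) := by
  induction hv with
  | @mk c d m hm =>
    rw [mul_as, as23, (H a c d m hm (by omega)).2.2, add_zero]
    have := RM.mk c (MM.left a hm)
    convert this using 1
    omega
  | zero => rw [mul_zero]; exact RM.zero _
  | add _ _ h1 h2 => rw [mul_add]; exact RM.add (h1 h) (h2 h)

theorem RM.kill (H : HH g u N) (p q : FreeMagma ι) {e : ℕ} {v : A} (hv : RM g u e v)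
    (h : p.length + q.length + e ≤ N + 1) : D (ev g p) (ev g q) * v = 0 := by
  induction hv with
  | @mk c d m hm =>
    have hc := len_pos c
    rw [mul_as, (H p q d m hm (by omega)).1, zero_mul, zero_add, as23,
      H.ider p q c hm (by omega)]
  | zero => rw [mul_zero]
  | add _ _ h1 h2 => rw [mul_add, h1 h, h2 h, add_zero]

theorem LM.right (H : HH g u N) (a : FreeMagma ι) {e : ℕ} {v : A} (hv : LM g u e v)
    (h : e + a.length ≤ N) : LM g u (e + a.length) (v * ev g a) := by
  induction hv with
  | @mk c d m hm =>
    rw [as_mul, as23, (H c a d m hm (by omega)).2.2, add_zero]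
    have := LM.mk c (MM.right a hm)
    convert this using 1
    omega
  | zero => rw [zero_mul]; exact LM.zero _
  | add _ _ h1 h2 => rw [add_mul]; exact LM.add (h1 h) (h2 h)

theorem LM.kill (H : HH g u N) (p q : FreeMagma ι) {e : ℕ} {v : A} (hv : LM g u e v)
    (h : p.length + q.length + e ≤ N + 1) : v * D (ev g p) (ev g q) = 0 := by
  induction hv with
  | @mk c d m hm =>
    have hc := len_pos c
    rw [as_mul, (H p q d m hm (by omega)).2.1, mul_zero, zero_add, as13, as23,
      H.ider p q c hm (by omega)]
  | zero => rw [zero_mul]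
  | add _ _ h1 h2 => rw [add_mul, h1 h, h2 h, add_zero]

end

section Sums

variable [Alt2 A]

/-- Symmetric double sums vanish. -/
theorem ms_ms_self' (G : A → A → Multiset A → A) (s : Multiset A)
    (h : ∀ x y t, x ::ₘ y ::ₘ t = s → G x y t = G y x t) :
    ms (fun x t => ms (fun y r => G x y r) t) s = 0 := by
  induction s using Multiset.induction generalizing G with
  | empty => simp
  | cons c s ih =>
    rw [ms_cons]
    simp only [ms_cons]
    rw [ms_add, ih (fun x y r => G x y (c ::ₘ r)) (fun x y t hs => h x y _ (by
      rw [Multiset.cons_swap y c, Multiset.cons_swap x c, hs])), add_zero]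
    have : ms (fun x t => G x c t) s = ms (fun x t => G c x t) s :=
      ms_congr s (fun x t hs => h x c t (by rw [Multiset.cons_swap, hs]))
    rw [this, two]

omit [Alt2 A] in
theorem ms_ind {P : A → Prop} (h0 : P 0) (hadd : ∀ a b, P a → P b → P (a + b))
    (G : A → Multiset A → A) (s : Multiset A) (h : ∀ x t, x ::ₘ t = s → P (G x t)) :
    P (ms G s) := by
  induction s using Multiset.induction generalizing G with
  | empty => simpa using h0
  | cons c s ih =>
    rw [ms_cons]
    exact hadd _ _ (h c s rfl) (ih _ fun x t hs => h x (c ::ₘ t) (by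
      rw [Multiset.cons_swap, hs]))

end Sums

section Letters

variable {ι : Type*} [Fintype ι]

theorem card_univ_val : Multiset.card (Finset.univ.val : Multiset ι) = Fintype.card ι := rfl

theorem letters_cases (L : Multiset ι) (h : Multiset.card L = Fintype.card ι) :
    L = Finset.univ.val ∨ ∃ i L', L = i ::ₘ i ::ₘ L' := by
  classical
  by_cases hnd : L.Nodup
  · left
    have : (⟨L, hnd⟩ : Finset ι) = Finset.univ := by
      apply Finset.eq_univ_of_card
      exact h
    exact congrArg Finset.val this
  · right
    by_contra hne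
    apply hnd
    rw [Multiset.nodup_iff_le]
    intro a ha
    obtain ⟨u, rfl⟩ := Multiset.le_iff_exists_add.1 ha
    exact hne ⟨a, u, by simp⟩

/-- Two letters different from two given ones. -/
theorem choose_two (h4 : 4 ≤ Fintype.card ι) (i j : ι) :
    ∃ (y z : ι) (R : Multiset ι), y ≠ i ∧ y ≠ j ∧ z ≠ i ∧ z ≠ j ∧
      (Finset.univ.val : Multiset ι) = y ::ₘ z ::ₘ R ∧ ∀ k, k ≠ y → k ≠ z → k ∈ R := by
  classical
  have h1 : 1 < ((Finset.univ \ {i, j} : Finset ι)).card := by
    have h2 := Finset.le_card_sdiff ({i, j} : Finset ι) Finset.univ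
    have h3 : ({i, j} : Finset ι).card ≤ 2 := Finset.card_le_two
    rw [Finset.card_univ] at h2
    omega
  obtain ⟨y, hy, z, hz, hne⟩ := Finset.one_lt_card.1 h1
  simp only [Finset.mem_sdiff, Finset.mem_univ, Finset.mem_insert, Finset.mem_singleton,
    true_and, not_or] at hy hz
  refine ⟨y, z, ((Finset.univ.erase y).erase z).val, hy.1, hy.2, hz.1, hz.2, ?_, ?_⟩
  · rw [Finset.erase_val, Multiset.cons_erase, Finset.erase_val, Multiset.cons_erase]
    · exact Finset.mem_univ_val y
    · rw [Finset.mem_val, Finset.mem_erase]
      exact ⟨hne.symm, Finset.mem_univ z⟩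
  · intro k hky hkz
    rw [Finset.mem_val, Finset.mem_erase, Finset.mem_erase]
    exact ⟨hkz, hky, Finset.mem_univ k⟩

end Letters

theorem card_le_wt {ι : Type*} (W : Multiset (FreeMagma ι)) : Multiset.card W ≤ wt W := by
  induction W using Multiset.induction with
  | empty => simp
  | cons w W ih =>
    have := len_pos w
    rw [wt_cons, Multiset.card_cons]
    omega

theorem wt_letters {ι : Type*} (L : Multiset ι) :
    wt (L.map FreeMagma.of) = Multiset.card L := by
  induction L using Multiset.induction with
  | empty => simp [wt]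
  | cons i L ih =>
    have : (FreeMagma.of i).length = 1 := rfl
    rw [Multiset.map_cons, wt_cons, Multiset.card_cons, ih, this, add_comm]

theorem map_ev_of {ι : Type*} (g : ι → A) (L : Multiset ι) :
    (L.map FreeMagma.of).map (ev g) = L.map g := by
  rw [Multiset.map_map]
  apply Multiset.map_congr rfl
  intro i _
  exact ev_of i

/-- The value of the form on the generators. -/
def gv {ι : Type*} [Fintype ι] (F : Multiset A → A) (g : ι → A) : A :=
  F ((Finset.univ.val : Multiset ι).map g)

section Main

variable [Alt2 A] {ι : Type*} [Fintype ι] {n : ℕ} {F : Multiset A → A} (h : Art n F) (g : ι → A)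
  (hι : Fintype.card ι = n)
include h

omit [Alt2 A] [Fintype ι] in
theorem len_words {W : Multiset (FreeMagma ι)} (hc : Multiset.card W ≠ n) :
    F (W.map (ev g)) = 0 := h.len _ (by rwa [Multiset.card_map])

include hι

omit [Alt2 A] in
/-- All values on words are in the ideal of the value on the generators. -/
theorem val_mem : ∀ (e : ℕ) (W : Multiset (FreeMagma ι)), wt W = n + e →
    MM g (gv F g) e (F (W.map (ev g))) := by
  intro e
  induction e using Nat.strong_induction_on with
  | _ e ih =>
    intro W hW
    by_cases hcW : Multiset.card W = n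
    swap
    · rw [len_words h g hcW]; exact MM.zero _
    rcases letters_or W with ⟨L, rfl⟩ | ⟨p, q, V, rfl⟩
    · rw [Multiset.card_map] at hcW
      rw [wt_letters] at hW
      have he : e = 0 := by omega
      subst he
      rw [map_ev_of]
      rcases letters_cases L (by omega) with rfl | ⟨i, L', rfl⟩
      · exact MM.base
      · rw [Multiset.map_cons, Multiset.map_cons, h.alt]
        exact MM.zero _
    · have hp := len_pos p
      have hq := len_pos q
      rw [wt_cons, len_mul] at hW
      rw [Multiset.card_cons] at hcW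
      have hV := card_le_wt V
      rw [Multiset.map_cons, ev_mul, h.mul]
      refine MM.add (MM.add ?_ ?_) ?_
      · have h1 := ih (e - p.length) (by omega) (q ::ₘ V) (by rw [wt_cons]; omega)
        have h2 := MM.left p h1
        rw [Multiset.map_cons] at h2
        convert h2 using 1
        omega
      · have h1 := ih (e - q.length) (by omega) (p ::ₘ V) (by rw [wt_cons]; omega)
        have h2 := MM.right q h1
        rw [Multiset.map_cons] at h2
        convert h2 using 1
        omega
      · apply ms_ind (P := fun a => MM g (gv F g) e a) (MM.zero _) (fun a b ha hb => MM.add ha hb)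
        intro x t hx
        obtain ⟨w, U, rfl, rfl, rfl⟩ := map_cons_ev hx
        have hw := len_pos w
        rw [wt_cons] at hW
        rw [Multiset.card_cons] at hcW
        have hU := card_le_wt U
        have h1 := ih (e - w.length) (by omega) (p ::ₘ q ::ₘ U) (by
          rw [wt_cons, wt_cons]; omega)
        rw [Multiset.map_cons, Multiset.map_cons] at h1
        rw [D]
        have h2 := MM.left w h1
        have h3 := MM.right w h1
        rw [show e - w.length + w.length = e by omega] at h2 h3
        exact MM.add h2 h3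

/-- The bracket vanishes on words up to the total degree `n + N`. -/
def GG (F : Multiset A → A) (g : ι → A) (n N : ℕ) : Prop :=
  ∀ W : Multiset (FreeMagma ι), wt W ≤ n + N → brk F (W.map (ev g)) = 0

omit hι [Fintype ι] in
/-- The second form of the Artin rule. -/
theorem mul' (a b : A) (s : Multiset A) :
    F ((a * b) ::ₘ s) = b * F (a ::ₘ s) + F (b ::ₘ s) * a + brk F (a ::ₘ b ::ₘ s) := by
  rw [h.mul, brk, ms_cons]
  simp only [ms_cons, D]
  apply eq_of_add
  abel_nf
  simp only [twoZ, add_zero]

theorem claimR {N : ℕ} (H : HH g (gv F g) N) (G : GG F g n N) (a : FreeMagma ι)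
    (W : Multiset (FreeMagma ι)) (hc : Multiset.card W + 1 = n)
    (h0 : F (g (fst a) ::ₘ W.map (ev g)) = 0) (e : ℕ) (he : a.length + wt W = n + e)
    (heN : e ≤ N) : RM g (gv F g) e (F (ev g a ::ₘ W.map (ev g))) := by
  induction a generalizing e with
  | ih1 i =>
    rw [ev_of]
    have : fst (FreeMagma.of i) = i := rfl
    rw [this] at h0
    rw [h0]
    exact RM.zero _
  | ih2 a b iha ihb =>
    rw [len_mul] at he
    have ha := len_pos a
    have hb := len_pos b
    have hW := card_le_wt W
    have hG := G (a ::ₘ b ::ₘ W) (by rw [wt_cons, wt_cons]; omega)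
    rw [Multiset.map_cons, Multiset.map_cons] at hG
    rw [ev_mul, mul' h, hG, add_zero]
    refine RM.add ?_ ?_
    · have h1 := iha h0 (e - b.length) (by omega) (by omega)
      have h2 := RM.left H b h1 (by omega)
      rwa [show e - b.length + b.length = e by omega] at h2
    · have h1 := val_mem h g hι (e - a.length) (b ::ₘ W) (by rw [wt_cons]; omega)
      have h2 := RM.mk a h1
      rwa [show e - a.length + a.length = e by omega, Multiset.map_cons] at h2

theorem claimL {N : ℕ} (H : HH g (gv F g) N) (G : GG F g n N) (a : FreeMagma ι)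
    (W : Multiset (FreeMagma ι)) (hc : Multiset.card W + 1 = n)
    (h0 : F (g (lst a) ::ₘ W.map (ev g)) = 0) (e : ℕ) (he : a.length + wt W = n + e)
    (heN : e ≤ N) : LM g (gv F g) e (F (ev g a ::ₘ W.map (ev g))) := by
  induction a generalizing e with
  | ih1 i =>
    rw [ev_of]
    have : lst (FreeMagma.of i) = i := rfl
    rw [this] at h0
    rw [h0]
    exact LM.zero _
  | ih2 a b iha ihb =>
    rw [len_mul] at he
    have ha := len_pos a
    have hb := len_pos b
    have hW := card_le_wt W
    have hG := G (a ::ₘ b ::ₘ W) (by rw [wt_cons, wt_cons]; omega)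
    rw [Multiset.map_cons, Multiset.map_cons] at hG
    rw [ev_mul, mul' h, hG, add_zero]
    refine LM.add ?_ ?_
    · have h1 := val_mem h g hι (e - b.length) (a ::ₘ W) (by rw [wt_cons]; omega)
      have h2 := LM.mk b h1
      rwa [show e - b.length + b.length = e by omega, Multiset.map_cons] at h2
    · have h1 := ihb h0 (e - a.length) (by omega) (by omega)
      have h2 := LM.right H a h1 (by omega)
      rwa [show e - a.length + a.length = e by omega] at h2

omit [Alt2 A] [Fintype ι] hι in
theorem dup1 {R : Multiset ι} {i : ι} (hi : i ∈ R) (s : Multiset A) :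
    F (g i ::ₘ (R.map g + s)) = 0 := by
  obtain ⟨R', rfl⟩ := Multiset.exists_cons_of_mem hi
  rw [Multiset.map_cons, Multiset.cons_add, h.alt]

/-- Commutators kill the value on the generators. -/
theorem comm_u (h4 : 4 ≤ n) (C : Cyc F) {N : ℕ} (H : HH g (gv F g) N) (G : GG F g n N)
    (a b : FreeMagma ι) (hN : a.length + b.length = N + 1) :
    D (ev g a) (ev g b) * gv F g = 0 := by
  obtain ⟨y, z, R, hya, hyb, hza, hzb, hU, hR⟩ := choose_two (by omega) (fst a) (fst b)
  have hcR : Multiset.card R + 2 = n := by
    have := congrArg Multiset.card hU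
    rw [card_univ_val, Multiset.card_cons, Multiset.card_cons] at this
    omega
  have ha := len_pos a
  have hb := len_pos b
  have hly : (FreeMagma.of y).length = 1 := rfl
  have hlz : (FreeMagma.of z).length = 1 := rfl
  have hu : gv F g = F (g y ::ₘ g z ::ₘ R.map g) := by
    rw [gv, hU, Multiset.map_cons, Multiset.map_cons]
  -- the three other terms of the cycle
  have t1 : RM g (gv F g) (a.length - 1) (F (ev g a ::ₘ g z ::ₘ R.map g)) := by
    have := claimR h g hι H G a (FreeMagma.of z ::ₘ R.map FreeMagma.of)
      (by rw [Multiset.card_cons, Multiset.card_map]; omega)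
      (by
        rw [Multiset.map_cons, map_ev_of, ev_of]
        have := dup1 h g (hR (fst a) (Ne.symm hya) (Ne.symm hza)) {g z}
        rw [← this]
        congr 2
        rw [Multiset.add_comm, Multiset.singleton_add]) (a.length - 1)
      (by rw [wt_cons, wt_letters, hlz]; omega) (by omega)
    rwa [Multiset.map_cons, map_ev_of, ev_of] at this
  have t2 : RM g (gv F g) (b.length - 1) (F (ev g b ::ₘ g y ::ₘ R.map g)) := by
    have := claimR h g hι H G b (FreeMagma.of y ::ₘ R.map FreeMagma.of)
      (by rw [Multiset.card_cons, Multiset.card_map]; omega)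
      (by
        rw [Multiset.map_cons, map_ev_of, ev_of]
        have := dup1 h g (hR (fst b) (Ne.symm hyb) (Ne.symm hzb)) {g y}
        rw [← this]
        congr 2
        rw [Multiset.add_comm, Multiset.singleton_add]) (b.length - 1)
      (by rw [wt_cons, wt_letters, hly]; omega) (by omega)
    rwa [Multiset.map_cons, map_ev_of, ev_of] at this
  have t3 : RM g (gv F g) (a.length + b.length - 2) (F (ev g a ::ₘ ev g b ::ₘ R.map g)) := by
    have := claimR h g hι H G a (b ::ₘ R.map FreeMagma.of)
      (by rw [Multiset.card_cons, Multiset.card_map]; omega)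
      (by
        rw [Multiset.map_cons, map_ev_of]
        have := dup1 h g (hR (fst a) (Ne.symm hya) (Ne.symm hza)) {ev g b}
        rw [← this]
        congr 2
        rw [Multiset.add_comm, Multiset.singleton_add]) (a.length + b.length - 2)
      (by rw [wt_cons, wt_letters]; omega) (by omega)
    rwa [Multiset.map_cons, map_ev_of] at this
  have c := C.k (ev g a) (ev g b) (g y) (g z) (R.map g)
  rw [← hu] at c
  have k1 := RM.kill H b (FreeMagma.of y) t1 (by omega)
  have k2 := RM.kill H (FreeMagma.of z) a t2 (by omega)
  have k3 := RM.kill H (FreeMagma.of y) (FreeMagma.of z) t3 (by omega)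
  rw [ev_of] at k1 k2
  rw [ev_of, ev_of] at k3
  rw [k1, k2, k3, add_zero, add_zero, add_zero] at c
  exact c

/-- Commutators kill the value on the generators from the right. -/
theorem comm_u' (h4 : 4 ≤ n) (C : Cyc F) {N : ℕ} (H : HH g (gv F g) N) (G : GG F g n N)
    (a b : FreeMagma ι) (hN : a.length + b.length = N + 1) :
    gv F g * D (ev g a) (ev g b) = 0 := by
  obtain ⟨y, z, R, hya, hyb, hza, hzb, hU, hR⟩ := choose_two (by omega) (lst a) (lst b)
  have hcR : Multiset.card R + 2 = n := by
    have := congrArg Multiset.card hU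
    rw [card_univ_val, Multiset.card_cons, Multiset.card_cons] at this
    omega
  have ha := len_pos a
  have hb := len_pos b
  have hly : (FreeMagma.of y).length = 1 := rfl
  have hlz : (FreeMagma.of z).length = 1 := rfl
  have hu : gv F g = F (g y ::ₘ g z ::ₘ R.map g) := by
    rw [gv, hU, Multiset.map_cons, Multiset.map_cons]
  -- the three other terms of the cycle
  have t1 : LM g (gv F g) (a.length - 1) (F (ev g a ::ₘ g z ::ₘ R.map g)) := by
    have := claimL h g hι H G a (FreeMagma.of z ::ₘ R.map FreeMagma.of)
      (by rw [Multiset.card_cons, Multiset.card_map]; omega)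
      (by
        rw [Multiset.map_cons, map_ev_of, ev_of]
        have := dup1 h g (hR (lst a) (Ne.symm hya) (Ne.symm hza)) {g z}
        rw [← this]
        congr 2
        rw [Multiset.add_comm, Multiset.singleton_add]) (a.length - 1)
      (by rw [wt_cons, wt_letters, hlz]; omega) (by omega)
    rwa [Multiset.map_cons, map_ev_of, ev_of] at this
  have t2 : LM g (gv F g) (b.length - 1) (F (ev g b ::ₘ g y ::ₘ R.map g)) := by
    have := claimL h g hι H G b (FreeMagma.of y ::ₘ R.map FreeMagma.of)
      (by rw [Multiset.card_cons, Multiset.card_map]; omega)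
      (by
        rw [Multiset.map_cons, map_ev_of, ev_of]
        have := dup1 h g (hR (lst b) (Ne.symm hyb) (Ne.symm hzb)) {g y}
        rw [← this]
        congr 2
        rw [Multiset.add_comm, Multiset.singleton_add]) (b.length - 1)
      (by rw [wt_cons, wt_letters, hly]; omega) (by omega)
    rwa [Multiset.map_cons, map_ev_of, ev_of] at this
  have t3 : LM g (gv F g) (a.length + b.length - 2) (F (ev g a ::ₘ ev g b ::ₘ R.map g)) := by
    have := claimL h g hι H G a (b ::ₘ R.map FreeMagma.of)
      (by rw [Multiset.card_cons, Multiset.card_map]; omega)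
      (by
        rw [Multiset.map_cons, map_ev_of]
        have := dup1 h g (hR (lst a) (Ne.symm hya) (Ne.symm hza)) {ev g b}
        rw [← this]
        congr 2
        rw [Multiset.add_comm, Multiset.singleton_add]) (a.length + b.length - 2)
      (by rw [wt_cons, wt_letters]; omega) (by omega)
    rwa [Multiset.map_cons, map_ev_of] at this
  have c := C.k' (ev g a) (ev g b) (g y) (g z) (R.map g)
  rw [← hu] at c
  have k1 := LM.kill H b (FreeMagma.of y) t1 (by omega)
  have k2 := LM.kill H (FreeMagma.of z) a t2 (by omega)
  have k3 := LM.kill H (FreeMagma.of y) (FreeMagma.of z) t3 (by omega)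
  rw [ev_of] at k1 k2
  rw [ev_of, ev_of] at k3
  rw [k1, k2, k3, add_zero, add_zero, add_zero] at c
  exact c

omit [Alt2 A] in
/-- Associators of generators. -/
theorem as_u (h4 : 4 ≤ n) (C : Cyc F) (i j : ι) : as (g i) (g j) (gv F g) = 0 := by
  obtain ⟨y, z, R, hyi, hyj, hzi, hzj, hU, hR⟩ := choose_two (by omega) i j
  have hu : gv F g = F (g y ::ₘ g z ::ₘ R.map g) := by
    rw [gv, hU, Multiset.map_cons, Multiset.map_cons]
  have hi := hR i (Ne.symm hyi) (Ne.symm hzi)
  have hj := hR j (Ne.symm hyj) (Ne.symm hzj)
  have z1 : F (g i ::ₘ g z ::ₘ R.map g) = 0 := by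
    have := dup1 h g hi {g z}
    rwa [Multiset.add_comm, Multiset.singleton_add] at this
  have z2 : F (g i ::ₘ g j ::ₘ R.map g) = 0 := by
    have := dup1 h g hi {g j}
    rwa [Multiset.add_comm, Multiset.singleton_add] at this
  have z3 : F (g j ::ₘ g y ::ₘ R.map g) = 0 := by
    have := dup1 h g hj {g y}
    rwa [Multiset.add_comm, Multiset.singleton_add] at this
  have c := C.r (g i) (g j) (g y) (g z) (R.map g)
  rw [← hu, z1, z2, z3] at c
  simpa [as_zero3] using c

theorem HH_succ (h4 : 4 ≤ n) (C : Cyc F) {N : ℕ} (H : HH g (gv F g) N) (G : GG F g n N) :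
    HH g (gv F g) (N + 1) :=
  H.step (fun a b hN => comm_u h g hι h4 C H G a b hN)
    (fun a b hN => comm_u' h g hι h4 C H G a b hN) (fun i j _ => as_u h g hι h4 C i j)

theorem GG_succ {N : ℕ} (H : HH g (gv F g) (N + 1)) (G : GG F g n N) : GG F g n (N + 1) := by
  intro W hW
  rcases letters_or W with ⟨L, rfl⟩ | ⟨p, q, V, rfl⟩
  · rw [map_ev_of]
    by_cases hc : Multiset.card L = n + 1
    · obtain ⟨i, L', rfl⟩ := exists_dup L (by omega)
      rw [Multiset.map_cons, Multiset.map_cons, brk, ms_cons, ms_cons]
      simp only [h.alt]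
      rw [← add_assoc, two, zero_add]
      exact ms_eq_zero' _ (fun x t => D_zero2 x)
    · apply ms_eq_zero
      intro x t hx
      rw [h.len, D_zero2]
      intro ht
      apply hc
      have := congrArg Multiset.card hx
      rw [Multiset.card_cons, Multiset.card_map, ht] at this
      exact this.symm
  · have hp := len_pos p
    have hq := len_pos q
    by_cases hc : Multiset.card V = n
    swap
    · apply ms_eq_zero
      intro x t hx
      rw [h.len, D_zero2]
      intro ht
      apply hc
      have := congrArg Multiset.card hx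
      rw [Multiset.card_cons, Multiset.card_map, Multiset.card_cons, ht] at this
      omega
    rw [wt_cons, len_mul] at hW
    have hV := card_le_wt V
    have hVe : wt V = n + (wt V - n) := by omega
    have hFV := val_mem h g hι (wt V - n) V hVe
    have g1 := G (q ::ₘ V) (by rw [wt_cons]; omega)
    have g2 := G (p ::ₘ V) (by rw [wt_cons]; omega)
    rw [Multiset.map_cons, brk, ms_cons] at g1 g2
    -- the double sum
    have dbl : ms (fun x t => D x (ms (fun y r => D y (F (ev g p ::ₘ ev g q ::ₘ r))) t))
        (V.map (ev g)) = 0 := by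
      have e1 : ms (fun x t => D x (ms (fun y r => D y (F (ev g p ::ₘ ev g q ::ₘ r))) t))
          (V.map (ev g)) = ms (fun x t => ms (fun y r =>
            D x (D y (F (ev g p ::ₘ ev g q ::ₘ r)))) t) (V.map (ev g)) :=
        ms_congr' _ (fun x t => D_ms _ t x)
      rw [e1]
      apply ms_ms_self'
      intro x y t hx
      obtain ⟨w, U, rfl, rfl, h3⟩ := map_cons_ev hx
      obtain ⟨v, U', rfl, rfl, rfl⟩ := map_cons_ev h3
      have hw := len_pos w
      have hv := len_pos v
      rw [Multiset.card_cons, Multiset.card_cons] at hc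
      have hU' := card_le_wt U'
      rw [wt_cons, wt_cons] at hW
      have hm := val_mem h g hι (p.length + q.length + wt U' - n) (p ::ₘ q ::ₘ U') (by
        rw [wt_cons, wt_cons]; omega)
      have hh := H w v _ _ hm (by omega)
      rw [Multiset.map_cons, Multiset.map_cons] at hh
      apply eq_of_add
      rw [jac, D, hh.1, hh.2.1, add_zero]
    -- the other terms
    have main : ms (fun x t => D x (F ((ev g p * ev g q) ::ₘ t))) (V.map (ev g)) =
        ms (fun x t => ev g p * D x (F (ev g q ::ₘ t)) + D x (F (ev g p ::ₘ t)) * ev g q +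
          D x (ms (fun y r => D y (F (ev g p ::ₘ ev g q ::ₘ r))) t)) (V.map (ev g)) := by
      apply ms_congr
      intro x t hx
      obtain ⟨w, U, rfl, rfl, rfl⟩ := map_cons_ev hx
      have hw := len_pos w
      rw [Multiset.card_cons] at hc
      have hU := card_le_wt U
      rw [wt_cons] at hW
      have hm1 := val_mem h g hι (q.length + wt U - n) (q ::ₘ U) (by
        rw [wt_cons]; omega)
      have hm2 := val_mem h g hι (p.length + wt U - n) (p ::ₘ U) (by
        rw [wt_cons]; omega)
      have hh1 := H w p _ _ hm1 (by omega)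
      have hh2 := H w q _ _ hm2 (by omega)
      rw [Multiset.map_cons] at hh1 hh2
      rw [h.mul, D_add2, D_add2]
      congr 1
      congr 1
      · have := a4 (ev g w) (ev g p) (F (ev g q ::ₘ U.map (ev g)))
        rw [hh1.1, hh1.2.2, zero_add, add_zero] at this
        exact this.symm
      · have := a4 (ev g w) (F (ev g p ::ₘ U.map (ev g))) (ev g q)
        rw [hh2.2.1, as23, hh2.2.2, add_zero, add_zero] at this
        exact this.symm
    have hh := H p q _ _ hFV (by omega)
    have hn := nuc (ev g p) (ev g q) (F (V.map (ev g)))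
    rw [hh.2.2] at hn
    rw [Multiset.map_cons, ev_mul, brk, ms_cons, main, ms_add, ms_add, dbl, add_zero, ← mul_ms,
      ← ms_mul, ← lin0 g1, ← lin0 g2]
    rw [← add_assoc]
    exact hn.symm

/-- Everything vanishes on words. -/
theorem HH_GG (h4 : 4 ≤ n) (C : Cyc F) (N : ℕ) : HH g (gv F g) N ∧ GG F g n N := by
  induction N with
  | zero =>
    constructor
    · intro p q d m _ hN
      have := len_pos p
      omega
    · intro W hW
      rcases letters_or W with ⟨L, rfl⟩ | ⟨p, q, V, rfl⟩
      · rw [wt_letters] at hW
        apply ms_eq_zero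
        intro x t hx
        rw [h.len, D_zero2]
        intro ht
        have := congrArg Multiset.card hx
        rw [Multiset.card_cons, Multiset.card_map, Multiset.card_map, ht] at this
        omega
      · apply ms_eq_zero
        intro x t hx
        rw [h.len, D_zero2]
        intro ht
        have := congrArg Multiset.card hx
        have hV := card_le_wt V
        have hp := len_pos p
        have hq := len_pos q
        rw [wt_cons, len_mul] at hW
        rw [Multiset.card_cons, Multiset.card_map, Multiset.card_cons, ht] at this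
        omega
  | succ N ih =>
    have H := HH_succ h g hι h4 C ih.1 ih.2
    exact ⟨H, GG_succ h g hι H ih.2⟩

omit hι [Fintype ι] [Alt2 A] in
/-- The bracket is additive in its letters. -/
theorem mad_brk : Mad (brk F) where
  add a b s := by
    rw [brk, brk, brk, ms_cons, ms_cons, ms_cons, D_add1]
    simp only [h.add, D_add2]
    rw [ms_add]
    abel
  centr S a s := by
    rw [brk, brk, ms_cons, ms_cons, map_add]
    congr 1
    · rw [D, D, map_add, S.left, S.right]
    · have := map_ms S.f (fun x t => D x (F (a ::ₘ t))) s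
      rw [this]
      apply ms_congr'
      intro x t
      rw [h.centr, D, D, map_add, S.right, S.left]

/-- **Theorem B**: the bracket of an Artin form of degree `n ≥ 4` with the relations of
four-cycles vanishes in every ring generated by `n` elements. -/
theorem brk_vanish (h4 : 4 ≤ n) (C : Cyc F) (hg : ∀ a, Gen g a) (s : Multiset A) :
    brk F s = 0 := by
  apply (mad_brk h).eq_zero hg
  intro W
  exact (HH_GG h g hι h4 C (wt W)).2 W (by omega)

end Main

/-- Artin forms of odd degree `n ≥ 5` satisfy the relations of four-cycles. -/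
theorem Art.cyc4 [Alt2 A] {n : ℕ} {F : Multiset A → A} (h : Art n F) (hn : Odd n) (h5 : 5 ≤ n) :
    Cyc F where
  k := h.cyc hn h5
  k' := h.cyc' hn h5
  r := h.cyc_as hn h5

/-- **Theorem B** for Artin forms of odd degree `n ≥ 5`: the bracket `[X, F]`, a form of degree
`n + 1`, vanishes in every ring generated by `n` elements. -/
theorem Art.brk_vanish [Alt2 A] {ι : Type*} [Fintype ι] {n : ℕ} {F : Multiset A → A}
    (h : Art n F) (hn : Odd n) (h5 : 5 ≤ n) (hι : Fintype.card ι = n) (g : ι → A)
    (hg : ∀ a, Gen g a) (s : Multiset A) : ms (fun x t => D x (F t)) s = 0 :=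
  AF.brk_vanish h g hι (by omega) (h.cyc4 hn h5) hg s

end MP6489b8.AF
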