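import Mathlib
import Pool.Agent.Lib.MP_6489b8_al.AF.Fam
import Pool.Agent.Lib.MP_6489b8_al.AF.Tens
import Pool.Agent.Lib.MP_6489b8_al.AF.ThB
import Pool.Agent.Lib.MP_6489b8_al.AF.TauG

/-!
# Vanishing of the two families
-/

namespace MP6489b8.AF

open MP6489b8 MP6489b8.CT

universe u

/-- The functions `FL k` are Artin forms. -/
theorem art_FL (A : Type u) [NonUnitalNonAssocRing A] [Alt2 A] (k : ℕ) :
    ∃ G : Multiset A → A, Art (5 + 2 * k) G ∧ ∀ xs : List A, FL k A xs = G xs := by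
  induction k with
  | zero => exact art_F5 A
  | succ k ih =>
    obtain ⟨F, hF, hF'⟩ := ih
    obtain ⟨G, hG, hG'⟩ := hF.tau ⟨k + 2, by ring⟩ (by omega)
    refine ⟨G, by rw [show 5 + 2 * (k + 1) = 5 + 2 * k + 2 by ring]; exact hG, ?_⟩
    intro xs
    match xs with
    | [] => exact (hG.len _ (by simp)).symm
    | [_] => exact (hG.len _ (by simp)).symm
    | [_, _] => exact (hG.len _ (by simp)).symm
    | a :: b :: c :: xs =>
      have := hG' a b c xs
      simp only [Multiset.cons_coe] at this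
      rw [this]
      change D a b * FL k A (c :: xs) + D b c * FL k A (a :: xs) + D c a * FL k A (b :: xs) = _
      rw [hF', hF', hF']

theorem vanOn_FL (k : ℕ) : VanOn.{u} (4 + 2 * k) (FL k) := by
  intro A _ _ g hg xs
  obtain ⟨G, hG, hG'⟩ := art_FL A k
  rw [hG']
  exact hG.vanish (by simp) g hg _

theorem vanOn_XFL (k : ℕ) : VanOn.{u} (5 + 2 * k) (XFL k) := by
  intro A _ _ g hg xs
  obtain ⟨G, hG, hG'⟩ := art_FL A k
  change XL (FL k A) xs = 0
  rw [XL_eq _ G hG']
  exact hG.brk_vanish ⟨k + 2, by ring⟩ (by omega) (by simp) g hg _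

/-- The even steps. -/
theorem strict_even (k : ℕ)
    (A : Type) [NonUnitalNonAssocRing A] (hA : IsAlt A) (l : A →+ ℤ) (xs : List A)
    (hx : xs.length = 5 + 2 * k) (hodd : Odd (l (FL k A xs)))
    (Φ : Type u) [CommRing Φ] (s : Φ) (hs : s * 2 = 0) (h0 : s ≠ 0) : StrictStep Φ (4 + 2 * k) :=
  strict_of_model_list (FL k) (natl_FL k) (by omega) (vanOn_FL k) A hA (FL k A)
    (fun B _ φ xs => map_FL k φ xs) l xs (by omega) hodd Φ s hs h0

/-- The odd steps. -/
theorem strict_odd (k : ℕ)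
    (A : Type) [NonUnitalNonAssocRing A] (hA : IsAlt A) (l : A →+ ℤ) (xs : List A)
    (hx : xs.length = 6 + 2 * k) (hodd : Odd (l (XFL k A xs)))
    (Φ : Type u) [CommRing Φ] (s : Φ) (hs : s * 2 = 0) (h0 : s ≠ 0) : StrictStep Φ (5 + 2 * k) :=
  strict_of_model_list (XFL k) (natl_XFL k) (by omega) (vanOn_XFL k) A hA (XFL k A)
    (fun B _ φ xs => map_XFL k φ xs) l xs (by omega) hodd Φ s hs h0

end MP6489b8.AF
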