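import Mathlib
import Pool.Agent.Lib.MP_6489b8_al.AF.Fam

/-!
# Left Cayley bimodules over associative rings and the gluing of two of them
-/

namespace MP6489b8.AF

open MP6489b8 MP6489b8.CT

/-- A left Cayley bimodule: `L` is the left action, `t = L + R`. -/
structure LC (B V : Type) [NonUnitalRing B] [AddCommGroup V] where
  L : B →+ V →+ V
  t : B →+ V →+ V
  L_mul : ∀ a b v, L (a * b) v = L b (L a v)
  t_L : ∀ a b v, t a (L b v) = L b (t a v)
  t_mul : ∀ a b v, t (a * b) v =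
    t b (t a v) + L a (L b v) + L b (L a v) - t a (L b v) - t b (L a v)

namespace LC

variable {B V : Type} [NonUnitalRing B] [AddCommGroup V]

/-- The split null extension. -/
def Alg (_ : LC B V) : Type := B × V

variable (S : LC B V)

instance : AddCommGroup S.Alg := inferInstanceAs (AddCommGroup (B × V))

/-- The product of the split null extension. -/
instance : Mul S.Alg where
  mul x y := (x.1 * y.1, S.L x.1 y.2 + (S.t y.1 x.2 - S.L y.1 x.2))

theorem mul_def (x y : S.Alg) :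
    x * y = (x.1 * y.1, S.L x.1 y.2 + (S.t y.1 x.2 - S.L y.1 x.2)) := rfl
theorem fst_mul (x y : S.Alg) : (x * y).1 = x.1 * y.1 := rfl
theorem snd_mul (x y : S.Alg) :
    (x * y).2 = S.L x.1 y.2 + (S.t y.1 x.2 - S.L y.1 x.2) := rfl
theorem fst_add (x y : S.Alg) : (x + y).1 = x.1 + y.1 := rfl
theorem snd_add (x y : S.Alg) : (x + y).2 = x.2 + y.2 := rfl
theorem fst_sub (x y : S.Alg) : (x - y).1 = x.1 - y.1 := rfl
theorem snd_sub (x y : S.Alg) : (x - y).2 = x.2 - y.2 := rfl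
theorem fst_neg (x : S.Alg) : (-x).1 = -x.1 := rfl
theorem snd_neg (x : S.Alg) : (-x).2 = -x.2 := rfl
theorem fst_zero : (0 : S.Alg).1 = 0 := rfl
theorem snd_zero : (0 : S.Alg).2 = 0 := rfl

theorem ext' {x y : S.Alg} (h1 : x.1 = y.1) (h2 : x.2 = y.2) : x = y := Prod.ext h1 h2

instance : NonUnitalNonAssocRing S.Alg :=
  { (inferInstance : AddCommGroup S.Alg), (inferInstance : Mul S.Alg) with
    left_distrib := fun x y z => by
      apply S.ext'
      · simp only [fst_mul, fst_add, mul_add]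
      · simp only [snd_mul, snd_add, fst_add, map_add, AddMonoidHom.add_apply]
        abel
    right_distrib := fun x y z => by
      apply S.ext'
      · simp only [fst_mul, fst_add, add_mul]
      · simp only [snd_mul, snd_add, fst_add, map_add, AddMonoidHom.add_apply]
        abel
    zero_mul := fun x => by
      apply S.ext'
      · simp only [fst_mul, fst_zero, zero_mul]
      · simp only [snd_mul, snd_zero, fst_zero, map_zero, AddMonoidHom.zero_apply, sub_zero,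
          add_zero]
    mul_zero := fun x => by
      apply S.ext'
      · simp only [fst_mul, fst_zero, mul_zero]
      · simp only [snd_mul, snd_zero, fst_zero, map_zero, AddMonoidHom.zero_apply, sub_zero,
          add_zero] }

theorem isAlt : IsAlt S.Alg := by
  intro x y
  constructor
  · apply S.ext'
    · simp only [fst_mul, mul_assoc]
    · simp only [snd_mul, fst_mul, map_add, map_sub, S.L_mul, S.t_mul, S.t_L]
      abel
  · apply S.ext'
    · simp only [fst_mul, mul_assoc]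
    · simp only [snd_mul, fst_mul, map_add, map_sub, S.L_mul, S.t_mul, S.t_L]
      abel

/-- Elements of the associative part. -/
def inB (b : B) : S.Alg := (b, 0)

/-- Elements of the module. -/
def inV (v : V) : S.Alg := (0, v)

theorem inB_mul (a b : B) : S.inB a * S.inB b = S.inB (a * b) := by
  apply S.ext'
  · rfl
  · simp only [snd_mul, inB, map_zero, sub_zero, add_zero]

theorem inB_inV (a : B) (v : V) : S.inB a * S.inV v = S.inV (S.L a v) := by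
  apply S.ext'
  · simp only [fst_mul, inB, inV, mul_zero]
  · simp only [snd_mul, inB, inV, map_zero, sub_zero, add_zero]

theorem inV_inB (a : B) (v : V) : S.inV v * S.inB a = S.inV (S.t a v - S.L a v) := by
  apply S.ext'
  · simp only [fst_mul, inB, inV, zero_mul]
  · simp only [snd_mul, inB, inV, map_zero, zero_add]

theorem inV_add (u v : V) : S.inV u + S.inV v = S.inV (u + v) :=
  S.ext' (add_zero _) rfl
theorem inV_sub (u v : V) : S.inV u - S.inV v = S.inV (u - v) :=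
  S.ext' (sub_zero _) rfl
theorem inV_neg (u : V) : -S.inV u = S.inV (-u) := S.ext' neg_zero rfl
theorem inB_sub (a b : B) : S.inB a - S.inB b = S.inB (a - b) :=
  S.ext' rfl (sub_zero _)
theorem inB_zero : S.inB 0 = 0 := rfl
theorem inV_zero : S.inV 0 = 0 := rfl

/-- The action of a word of operators. -/
def act {ι : Type} (b : ι → B) : List (ι ⊕ ι) → V → V
  | [], v => v
  | Sum.inl a :: W, v => S.L (b a) (act b W v)
  | Sum.inr a :: W, v => S.t (b a) (act b W v)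

variable {ι : Type} (b : ι → B)

theorem act_add (W : List (ι ⊕ ι)) (u v : V) :
    S.act b W (u + v) = S.act b W u + S.act b W v := by
  induction W with
  | nil => rfl
  | cons w W ih => cases w <;> simp only [act, ih, map_add]

theorem act_neg (W : List (ι ⊕ ι)) (v : V) : S.act b W (-v) = -S.act b W v := by
  induction W with
  | nil => rfl
  | cons w W ih => cases w <;> simp only [act, ih, map_neg]

theorem act_zero (W : List (ι ⊕ ι)) : S.act b W 0 = 0 := by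
  induction W with
  | nil => rfl
  | cons w W ih => cases w <;> simp only [act, ih, map_zero]

theorem act_append (W W' : List (ι ⊕ ι)) (v : V) :
    S.act b (W ++ W') v = S.act b W (S.act b W' v) := by
  induction W with
  | nil => rfl
  | cons w W ih => cases w <;> simp only [List.cons_append, act, ih]

end LC

section Glue

variable {B₁ V₁ B₂ V₂ ι : Type} [NonUnitalRing B₁] [AddCommGroup V₁] [NonUnitalRing B₂]
  [AddCommGroup V₂] (S₁ : LC B₁ V₁) (S₂ : LC B₂ V₂) (b₁ : ι → B₁) (b₂ : ι → B₂)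
  (G : V₁ →+ ℤ) (F : V₂ →+ ℤ) (N : ℤ)

/-- The vectors on which the two functionals agree modulo `N` after every operator word. -/
def GV (v₁ : V₁) (v₂ : V₂) : Prop :=
  ∀ W : List (ι ⊕ ι), N ∣ F (S₂.act b₂ W v₂) - G (S₁.act b₁ W v₁)

/-- The elements of the rings which respect `GV`. -/
def GB (c₁ : B₁) (c₂ : B₂) : Prop :=
  ∀ v₁ v₂, GV S₁ S₂ b₁ b₂ G F N v₁ v₂ →
    GV S₁ S₂ b₁ b₂ G F N (S₁.L c₁ v₁) (S₂.L c₂ v₂) ∧ GV S₁ S₂ b₁ b₂ G F N (S₁.t c₁ v₁) (S₂.t c₂ v₂)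

variable {S₁ S₂ b₁ b₂ G F N}

theorem GV.zero : GV S₁ S₂ b₁ b₂ G F N 0 0 := fun W => by
  simp only [LC.act_zero, map_zero, sub_zero, dvd_zero]

theorem GV.add {u₁ v₁ : V₁} {u₂ v₂ : V₂} (h : GV S₁ S₂ b₁ b₂ G F N u₁ u₂)
    (h' : GV S₁ S₂ b₁ b₂ G F N v₁ v₂) : GV S₁ S₂ b₁ b₂ G F N (u₁ + v₁) (u₂ + v₂) := fun W => by
  have := dvd_add (h W) (h' W)
  rw [LC.act_add, LC.act_add, map_add, map_add, add_sub_add_comm]
  exact this

theorem GV.neg {v₁ : V₁} {v₂ : V₂} (h : GV S₁ S₂ b₁ b₂ G F N v₁ v₂) :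
    GV S₁ S₂ b₁ b₂ G F N (-v₁) (-v₂) := fun W => by
  have := (dvd_neg (a := N)).mpr (h W)
  rw [LC.act_neg, LC.act_neg, map_neg, map_neg, ← neg_sub']
  exact this

theorem GV.sub {u₁ v₁ : V₁} {u₂ v₂ : V₂} (h : GV S₁ S₂ b₁ b₂ G F N u₁ u₂)
    (h' : GV S₁ S₂ b₁ b₂ G F N v₁ v₂) : GV S₁ S₂ b₁ b₂ G F N (u₁ - v₁) (u₂ - v₂) := by
  rw [sub_eq_add_neg, sub_eq_add_neg]
  exact h.add h'.neg

theorem GB.zero : GB S₁ S₂ b₁ b₂ G F N 0 0 := fun v₁ v₂ _ => by
  simp only [map_zero, AddMonoidHom.zero_apply]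
  exact ⟨GV.zero, GV.zero⟩

theorem GB.add {c₁ d₁ : B₁} {c₂ d₂ : B₂} (h : GB S₁ S₂ b₁ b₂ G F N c₁ c₂)
    (h' : GB S₁ S₂ b₁ b₂ G F N d₁ d₂) : GB S₁ S₂ b₁ b₂ G F N (c₁ + d₁) (c₂ + d₂) :=
  fun v₁ v₂ hv => by
  simp only [map_add, AddMonoidHom.add_apply]
  exact ⟨(h v₁ v₂ hv).1.add (h' v₁ v₂ hv).1, (h v₁ v₂ hv).2.add (h' v₁ v₂ hv).2⟩

theorem GB.neg {c₁ : B₁} {c₂ : B₂} (h : GB S₁ S₂ b₁ b₂ G F N c₁ c₂) :
    GB S₁ S₂ b₁ b₂ G F N (-c₁) (-c₂) := fun v₁ v₂ hv => by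
  simp only [map_neg, AddMonoidHom.neg_apply]
  exact ⟨(h v₁ v₂ hv).1.neg, (h v₁ v₂ hv).2.neg⟩

theorem GB.mul {c₁ d₁ : B₁} {c₂ d₂ : B₂} (h : GB S₁ S₂ b₁ b₂ G F N c₁ c₂)
    (h' : GB S₁ S₂ b₁ b₂ G F N d₁ d₂) : GB S₁ S₂ b₁ b₂ G F N (c₁ * d₁) (c₂ * d₂) :=
  fun v₁ v₂ hv => by
  have hL := (h v₁ v₂ hv).1
  have ht := (h v₁ v₂ hv).2
  have hL' := (h' v₁ v₂ hv).1
  simp only [LC.L_mul, LC.t_mul]
  exact ⟨(h' _ _ hL).1, (((((h' _ _ ht).2.add (h _ _ hL').1).add (h' _ _ hL).1).sub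
    (h _ _ hL').2).sub (h' _ _ hL).2)⟩

theorem GB.letter (a : ι) : GB S₁ S₂ b₁ b₂ G F N (b₁ a) (b₂ a) := fun v₁ v₂ hv => by
  constructor
  · intro W
    have := hv (W ++ [Sum.inl a])
    simpa only [LC.act_append, LC.act] using this
  · intro W
    have := hv (W ++ [Sum.inr a])
    simpa only [LC.act_append, LC.act] using this

variable (S₁ S₂ b₁ b₂ G F N)

/-- The glued ring. -/
def Gl : NonUnitalSubring (S₁.Alg × S₂.Alg) where
  carrier := {z | GB S₁ S₂ b₁ b₂ G F N z.1.1 z.2.1 ∧ GV S₁ S₂ b₁ b₂ G F N z.1.2 z.2.2}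
  add_mem' := fun hz hw => ⟨hz.1.add hw.1, hz.2.add hw.2⟩
  zero_mem' := ⟨GB.zero, GV.zero⟩
  neg_mem' := fun hz => ⟨hz.1.neg, hz.2.neg⟩
  mul_mem' := fun hz hw => ⟨hz.1.mul hw.1,
    (hz.1 _ _ hw.2).1.add ((hw.1 _ _ hz.2).2.sub (hw.1 _ _ hz.2).1)⟩

theorem isAlt_Gl : IsAlt (Gl S₁ S₂ b₁ b₂ G F N) := by
  intro x y
  constructor
  · apply Subtype.ext
    exact Prod.ext (S₁.isAlt x.1.1 y.1.1).1 (S₂.isAlt x.1.2 y.1.2).1
  · apply Subtype.ext
    exact Prod.ext (S₁.isAlt x.1.1 y.1.1).2 (S₂.isAlt x.1.2 y.1.2).2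

variable {S₁ S₂ b₁ b₂ G F N} in
theorem Gl_dvd (z : Gl S₁ S₂ b₁ b₂ G F N) : N ∣ F z.1.2.2 - G z.1.1.2 := z.2.2 []

/-- The integral functional on the glued ring. -/
noncomputable def lG : Gl S₁ S₂ b₁ b₂ G F N →+ ℤ where
  toFun z := (F z.1.2.2 - G z.1.1.2) / N
  map_zero' := by
    change (F (0 : V₂) - G (0 : V₁)) / N = 0
    rw [map_zero, map_zero, sub_zero, Int.zero_ediv]
  map_add' z w := by
    change (F (z.1.2.2 + w.1.2.2) - G (z.1.1.2 + w.1.1.2)) / N = _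
    rw [map_add, map_add, show F z.1.2.2 + F w.1.2.2 - (G z.1.1.2 + G w.1.1.2) =
      (F z.1.2.2 - G z.1.1.2) + (F w.1.2.2 - G w.1.1.2) by ring]
    exact Int.add_ediv_of_dvd_left (Gl_dvd z)

theorem N_lG (z : Gl S₁ S₂ b₁ b₂ G F N) :
    N * lG S₁ S₂ b₁ b₂ G F N z = F z.1.2.2 - G z.1.1.2 :=
  Int.mul_ediv_cancel' (Gl_dvd z)

/-- The letters. -/
def lett (a : ι) : Gl S₁ S₂ b₁ b₂ G F N :=
  ⟨(S₁.inB (b₁ a), S₂.inB (b₂ a)), ⟨GB.letter a, GV.zero⟩⟩

/-- The module generator. -/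
def gen (m₁ : V₁) (m₂ : V₂) (hm : GV S₁ S₂ b₁ b₂ G F N m₁ m₂) : Gl S₁ S₂ b₁ b₂ G F N :=
  ⟨(S₁.inV m₁, S₂.inV m₂), ⟨GB.zero, hm⟩⟩

/-- The first projection. -/
def pr₁ : Gl S₁ S₂ b₁ b₂ G F N →ₙ+* S₁.Alg where
  toFun z := z.1.1
  map_zero' := rfl
  map_add' _ _ := rfl
  map_mul' _ _ := rfl

/-- The second projection. -/
def pr₂ : Gl S₁ S₂ b₁ b₂ G F N →ₙ+* S₂.Alg where
  toFun z := z.1.2
  map_zero' := rfl
  map_add' _ _ := rfl
  map_mul' _ _ := rfl

end Glue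

end MP6489b8.AF
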