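import Mathlib
import Pool.Agent.Lib.MP_6489b8_al.AF.Fam

/-!
# The family of forms with signs
-/

namespace MP6489b8.AF

open MP6489b8 MP6489b8.CT

universe u v

section

variable {A : Type*} [NonUnitalNonAssocRing A]

/-- The associator. -/
def asS (a b c : A) : A := a * b * c - a * (b * c)

/-- The commutator. -/
def cS (a u : A) : A := a * u - u * a

/-- Congruence modulo `2 A`. -/
def Cg (x y : A) : Prop := ∃ z, x = y + (z + z)

theorem Cg.rfl' (x : A) : Cg x x := ⟨0, by rw [add_zero, add_zero]⟩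

theorem Cg.symm {x y : A} (h : Cg x y) : Cg y x := by
  obtain ⟨z, rfl⟩ := h
  exact ⟨-z, by abel⟩

theorem Cg.trans {x y w : A} (h : Cg x y) (h' : Cg y w) : Cg x w := by
  obtain ⟨z, rfl⟩ := h
  obtain ⟨z', rfl⟩ := h'
  exact ⟨z + z', by abel⟩

theorem Cg.add {x y x' y' : A} (h : Cg x y) (h' : Cg x' y') : Cg (x + x') (y + y') := by
  obtain ⟨z, rfl⟩ := h
  obtain ⟨z', rfl⟩ := h'
  exact ⟨z + z', by abel⟩

theorem Cg.neg_right {x y : A} (h : Cg x y) : Cg x (-y) := by
  obtain ⟨z, rfl⟩ := h
  exact ⟨z + y, by abel⟩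

theorem Cg.sub {x y x' y' : A} (h : Cg x y) (h' : Cg x' y') : Cg (x + x') (y - y') := by
  rw [sub_eq_add_neg]
  exact h.add h'.neg_right

theorem Cg.mul {x y x' y' : A} (h : Cg x y) (h' : Cg x' y') : Cg (x * x') (y * y') := by
  obtain ⟨z, rfl⟩ := h
  obtain ⟨z', rfl⟩ := h'
  refine ⟨z * y' + y * z' + (z * z' + z * z'), ?_⟩
  simp only [add_mul, mul_add]
  abel

theorem as_cg {a a' b b' c c' : A} (ha : Cg a a') (hb : Cg b b') (hc : Cg c c') :
    Cg (as a b c) (asS a' b' c') :=
  ((ha.mul hb).mul hc).sub (ha.mul (hb.mul hc))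

theorem D_cg {a a' b b' : A} (ha : Cg a a') (hb : Cg b b') : Cg (D a b) (cS a' b') :=
  (ha.mul hb).sub (hb.mul ha)

/-- The base form with signs. -/
def f5S (a b c d e : A) : A :=
  asS a b (asS c d e) - asS a c (asS b d e) + asS a d (asS b c e) + asS a e (asS b c d) +
  asS b c (asS a d e) - asS b d (asS a c e) + asS b e (asS a c d) +
  asS c d (asS a b e) + asS c e (asS a b d) + asS d e (asS a b c)

theorem f5_cg (a b c d e : A) : Cg (f5 a b c d e) (f5S a b c d e) := by
  have r := fun x : A => Cg.rfl' x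
  unfold f5 f5S
  exact ((((((((((as_cg (r a) (r b) (as_cg (r c) (r d) (r e))).sub
    (as_cg (r a) (r c) (as_cg (r b) (r d) (r e)))).add
    (as_cg (r a) (r d) (as_cg (r b) (r c) (r e)))).add
    (as_cg (r a) (r e) (as_cg (r b) (r c) (r d)))).add
    (as_cg (r b) (r c) (as_cg (r a) (r d) (r e)))).sub
    (as_cg (r b) (r d) (as_cg (r a) (r c) (r e)))).add
    (as_cg (r b) (r e) (as_cg (r a) (r c) (r d)))).add
    (as_cg (r c) (r d) (as_cg (r a) (r b) (r e)))).add
    (as_cg (r c) (r e) (as_cg (r a) (r b) (r d)))).add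
    (as_cg (r d) (r e) (as_cg (r a) (r b) (r c))))

/-- The base form on lists. -/
def F5S (B : Type*) [NonUnitalNonAssocRing B] : List B → B
  | [a, b, c, d, e] => f5S a b c d e
  | _ => 0

theorem F5S_len {B : Type*} [NonUnitalNonAssocRing B] (xs : List B) (h : xs.length ≠ 5) :
    F5S B xs = 0 := by
  unfold F5S
  split
  · exact absurd rfl h
  · rfl

/-- The divided step. -/
def tauLS {B : Type*} [NonUnitalNonAssocRing B] (L : List B → B) : List B → B
  | a :: b :: c :: xs => cS a b * L (c :: xs) + cS b c * L (a :: xs) + cS c a * L (b :: xs)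
  | _ => 0

/-- The forms of degree `5 + 2 k`. -/
def FLS : ℕ → ∀ (B : Type u) [NonUnitalNonAssocRing B], List B → B
  | 0 => fun B _ => F5S B
  | k + 1 => fun B _ => tauLS (FLS k B)

/-- `∑ ± [x, L (the other letters)]`. -/
def XLS {B : Type*} [NonUnitalNonAssocRing B] : (List B → B) → List B → B
  | _, [] => 0
  | L, x :: xs => cS x (L xs) - XLS (fun t => L (x :: t)) xs

theorem F5_cg (xs : List A) : Cg (F5 A xs) (F5S A xs) := by
  by_cases h : xs.length = 5
  · match xs, h with
    | [a, b, c, d, e], _ => exact f5_cg a b c d e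
  · rw [F5_len _ h, F5S_len _ h]
    exact Cg.rfl' 0

theorem FL_cg (k : ℕ) {A : Type u} [NonUnitalNonAssocRing A] (xs : List A) :
    Cg (FL k A xs) (FLS k A xs) := by
  induction k generalizing xs with
  | zero => exact F5_cg xs
  | succ k ih =>
    have r := fun x : A => Cg.rfl' x
    match xs with
    | [] => exact r 0
    | [_] => exact r 0
    | [_, _] => exact r 0
    | a :: b :: c :: xs =>
      change Cg (D a b * FL k A (c :: xs) + D b c * FL k A (a :: xs) + D c a * FL k A (b :: xs))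
        (cS a b * FLS k A (c :: xs) + cS b c * FLS k A (a :: xs) + cS c a * FLS k A (b :: xs))
      exact (((D_cg (r a) (r b)).mul (ih _)).add ((D_cg (r b) (r c)).mul (ih _))).add
        ((D_cg (r c) (r a)).mul (ih _))

theorem XL_cg (L L' : List A → A) (h : ∀ xs, Cg (L xs) (L' xs)) (xs : List A) :
    Cg (XL L xs) (XLS L' xs) := by
  induction xs generalizing L L' with
  | nil => exact Cg.rfl' 0
  | cons x xs ih =>
    exact (D_cg (Cg.rfl' x) (h xs)).sub (ih _ _ (fun t => h (x :: t)))

/-- The forms of degree `6 + 2 k`. -/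
def XFLS (k : ℕ) (B : Type u) [NonUnitalNonAssocRing B] (xs : List B) : B := XLS (FLS k B) xs

theorem XFL_cg (k : ℕ) {A : Type u} [NonUnitalNonAssocRing A] (xs : List A) :
    Cg (XFL k A xs) (XFLS k A xs) :=
  XL_cg _ _ (FL_cg k) xs

end

theorem map_asS {B C : Type*} [NonUnitalNonAssocRing B] [NonUnitalNonAssocRing C] (φ : B →ₙ+* C)
    (a b c : B) : φ (asS a b c) = asS (φ a) (φ b) (φ c) := by
  simp only [asS, map_sub, map_mul]

theorem map_cS {B C : Type*} [NonUnitalNonAssocRing B] [NonUnitalNonAssocRing C] (φ : B →ₙ+* C)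
    (a b : B) : φ (cS a b) = cS (φ a) (φ b) := by
  simp only [cS, map_sub, map_mul]

theorem map_F5S {B : Type u} {C : Type v} [NonUnitalNonAssocRing B] [NonUnitalNonAssocRing C]
    (φ : B →ₙ+* C) (xs : List B) : φ (F5S B xs) = F5S C (xs.map φ) := by
  by_cases h : xs.length = 5
  · match xs, h with
    | [a, b, c, d, e], _ =>
      change φ (f5S a b c d e) = f5S (φ a) (φ b) (φ c) (φ d) (φ e)
      simp only [f5S, map_add, map_sub, map_asS]
  · rw [F5S_len _ h, F5S_len _ (by simpa using h), map_zero]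

theorem map_FLS (k : ℕ) {B : Type u} {C : Type v} [NonUnitalNonAssocRing B]
    [NonUnitalNonAssocRing C] (φ : B →ₙ+* C) (xs : List B) :
    φ (FLS k B xs) = FLS k C (xs.map φ) := by
  induction k generalizing xs with
  | zero => exact map_F5S φ xs
  | succ k ih =>
    match xs with
    | [] => exact map_zero φ
    | [_] => exact map_zero φ
    | [_, _] => exact map_zero φ
    | a :: b :: c :: xs =>
      change φ (cS a b * FLS k B (c :: xs) + cS b c * FLS k B (a :: xs) +
        cS c a * FLS k B (b :: xs)) =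
        cS (φ a) (φ b) * FLS k C (φ c :: xs.map φ) + cS (φ b) (φ c) * FLS k C (φ a :: xs.map φ) +
          cS (φ c) (φ a) * FLS k C (φ b :: xs.map φ)
      simp only [map_add, map_mul, map_cS, ih, List.map_cons]

theorem map_XLS {B C : Type*} [NonUnitalNonAssocRing B] [NonUnitalNonAssocRing C] (φ : B →ₙ+* C)
    (L : List B → B) (L' : List C → C) (h : ∀ xs, φ (L xs) = L' (xs.map φ)) (xs : List B) :
    φ (XLS L xs) = XLS L' (xs.map φ) := by
  induction xs generalizing L L' with
  | nil => exact map_zero φ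
  | cons x xs ih =>
    change φ (cS x (L xs) - XLS (fun t => L (x :: t)) xs) =
      cS (φ x) (L' (xs.map φ)) - XLS (fun t => L' (φ x :: t)) (xs.map φ)
    rw [map_sub, map_cS, h, ih (fun t => L (x :: t)) (fun t => L' (φ x :: t))
      (fun t => h (x :: t))]

theorem map_XFLS (k : ℕ) {B : Type u} {C : Type v} [NonUnitalNonAssocRing B]
    [NonUnitalNonAssocRing C] (φ : B →ₙ+* C) (xs : List B) :
    φ (XFLS k B xs) = XFLS k C (xs.map φ) :=
  map_XLS φ _ _ (map_FLS k φ) xs

/-- The parity of an additive functional does not see the signs. -/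
theorem odd_of_cg {A : Type*} [NonUnitalNonAssocRing A] (l : A →+ ℤ) {x y : A} (h : Cg x y)
    (hy : Odd (l y)) : Odd (l x) := by
  obtain ⟨z, rfl⟩ := h
  rw [map_add, map_add]
  exact hy.add_even ⟨l z, rfl⟩

end MP6489b8.AF
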