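import Mathlib
import Pool.Agent.Lib.MP_6489b8_al.AF.Sign
import Pool.Agent.Lib.MP_6489b8_al.AF.LC

/-!
# Values of the forms in a left Cayley bimodule and in the glued ring
-/

namespace MP6489b8.AF

open MP6489b8 MP6489b8.CT

theorem asS_zero {A : Type*} [NonUnitalNonAssocRing A] (a b : A) : asS a b 0 = 0 := by
  simp only [asS, mul_zero, sub_zero]

theorem cS_zero {A : Type*} [NonUnitalNonAssocRing A] (a : A) : cS a 0 = 0 := by
  simp only [cS, mul_zero, zero_mul, sub_zero]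

namespace LC

variable {B V : Type} [NonUnitalRing B] [AddCommGroup V] (S : LC B V)

/-- The operator `(a, c, ·)`. -/
def E (a c : B) (v : V) : V := S.L c (S.L a v) - S.L a (S.L c v)

theorem E_zero (a c : B) : S.E a c 0 = 0 := by
  simp only [E, map_zero, sub_zero]

theorem E_zsmul (a c : B) (z : ℤ) (v : V) : S.E a c (z • v) = z • S.E a c v := by
  simp only [E, map_zsmul, smul_sub]

theorem asS_BBB (a b c : B) : asS (S.inB a) (S.inB b) (S.inB c) = 0 := by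
  simp only [asS, inB_mul, mul_assoc, sub_self]

theorem asS_BBV (a b : B) (v : V) : asS (S.inB a) (S.inB b) (S.inV v) = S.inV (S.E a b v) := by
  simp only [asS, inB_mul, inB_inV, inV_sub, E, L_mul]

theorem cS_BB (a b : B) : cS (S.inB a) (S.inB b) = S.inB (a * b - b * a) := by
  simp only [cS, inB_mul, inB_sub]

theorem cS_BV (a : B) (v : V) :
    cS (S.inB a) (S.inV v) = S.inV (S.L a v + S.L a v - S.t a v) := by
  simp only [cS, inB_inV, inV_inB, inV_sub]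
  congr 1
  abel

theorem cS_BB_mul (a b : B) (v : V) :
    cS (S.inB a) (S.inB b) * S.inV v = S.inV (S.E a b v) := by
  rw [cS_BB, inB_inV, map_sub, AddMonoidHom.sub_apply, L_mul, L_mul, E]

variable {ι : Type} (b : ι → B)

/-- The letters of a word. -/
def lb (xs : List ι) : List S.Alg := xs.map (fun i => S.inB (b i))

theorem lb_cons (x : ι) (xs : List ι) : S.lb b (x :: xs) = S.inB (b x) :: S.lb b xs := rfl

theorem lb_append (xs ys : List ι) : S.lb b (xs ++ ys) = S.lb b xs ++ S.lb b ys :=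
  List.map_append

/-- The value of the base form. -/
def s4 (x y z w : ι) (v : V) : V :=
  S.E (b x) (b y) (S.E (b z) (b w) v) - S.E (b x) (b z) (S.E (b y) (b w) v) +
    S.E (b x) (b w) (S.E (b y) (b z) v) + S.E (b y) (b z) (S.E (b x) (b w) v) -
    S.E (b y) (b w) (S.E (b x) (b z) v) + S.E (b z) (b w) (S.E (b x) (b y) v)

theorem FLS_B (k : ℕ) (xs : List ι) : FLS k S.Alg (S.lb b xs) = 0 := by
  induction k generalizing xs with
  | zero =>
    by_cases h : xs.length = 5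
    · match xs, h with
      | [a, b', c, d, e], _ =>
        change f5S (S.inB (b a)) (S.inB (b b')) (S.inB (b c)) (S.inB (b d)) (S.inB (b e)) = 0
        simp only [f5S, asS_BBB, asS_zero, sub_zero, add_zero]
    · exact F5S_len _ (by simpa [lb] using h)
  | succ k ih =>
    match xs with
    | [] => rfl
    | [_] => rfl
    | [_, _] => rfl
    | x :: y :: z :: xs =>
      change cS (S.inB (b x)) (S.inB (b y)) * FLS k S.Alg (S.lb b (z :: xs)) +
        cS (S.inB (b y)) (S.inB (b z)) * FLS k S.Alg (S.lb b (x :: xs)) +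
        cS (S.inB (b z)) (S.inB (b x)) * FLS k S.Alg (S.lb b (y :: xs)) = 0
      rw [ih, ih, ih, mul_zero, mul_zero, mul_zero, add_zero, add_zero]

theorem FLS_val (m : V) (val : ℕ → List ι → V)
    (h0 : ∀ x y z w, S.s4 b x y z w m = val 0 [x, y, z, w])
    (hs : ∀ k x y z xs, xs.length = 3 + 2 * k →
      S.E (b x) (b y) (val k (z :: xs)) + S.E (b y) (b z) (val k (x :: xs)) +
        S.E (b z) (b x) (val k (y :: xs)) = val (k + 1) (x :: y :: z :: xs))
    (k : ℕ) (xs : List ι) (hx : xs.length = 4 + 2 * k) :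
    FLS k S.Alg (S.lb b xs ++ [S.inV m]) = S.inV (val k xs) := by
  induction k generalizing xs with
  | zero =>
    match xs, hx with
    | [x, y, z, w], _ =>
      rw [← h0]
      change f5S (S.inB (b x)) (S.inB (b y)) (S.inB (b z)) (S.inB (b w)) (S.inV m) = _
      simp only [f5S, asS_BBB, asS_BBV, asS_zero, inV_sub, inV_add, add_zero, s4]
  | succ k ih =>
    match xs, hx with
    | [], hx => exact absurd hx (by simp only [List.length_nil]; omega)
    | [_], hx => exact absurd hx (by simp only [List.length_cons, List.length_nil]; omega)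
    | [_, _], hx => exact absurd hx (by simp only [List.length_cons, List.length_nil]; omega)
    | x :: y :: z :: xs, hx =>
      have hl : xs.length = 3 + 2 * k := by
        simp only [List.length_cons] at hx
        omega
      rw [← hs k x y z xs hl]
      change cS (S.inB (b x)) (S.inB (b y)) * FLS k S.Alg (S.lb b (z :: xs) ++ [S.inV m]) +
        cS (S.inB (b y)) (S.inB (b z)) * FLS k S.Alg (S.lb b (x :: xs) ++ [S.inV m]) +
        cS (S.inB (b z)) (S.inB (b x)) * FLS k S.Alg (S.lb b (y :: xs) ++ [S.inV m]) = _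
      rw [ih _ (by simp only [List.length_cons]; omega), ih _ (by simp only [List.length_cons]; omega),
        ih _ (by simp only [List.length_cons]; omega), cS_BB_mul, cS_BB_mul, cS_BB_mul, inV_add,
        inV_add]

theorem XLS_val (m : V) (k : ℕ) (val : List ι → V) (W : List ι → V)
    (hv : ∀ xs : List ι, xs.length = 4 + 2 * k →
      FLS k S.Alg (S.lb b xs ++ [S.inV m]) = S.inV (val xs))
    (hD : ∀ (ys : List ι) (z : ι) (zs : List ι), ys.length + zs.length = 4 + 2 * k →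
      S.L (b z) (val (ys ++ zs)) + S.L (b z) (val (ys ++ zs)) - S.t (b z) (val (ys ++ zs)) =
        ((-1 : ℤ) ^ ys.length) • W (ys ++ z :: zs))
    (zs ys : List ι) (hl : ys.length + zs.length = 5 + 2 * k) :
    XLS (fun t => FLS k S.Alg (S.lb b ys ++ t)) (S.lb b zs ++ [S.inV m]) =
      S.inV (((zs.length : ℤ) * (-1) ^ ys.length) • W (ys ++ zs)) := by
  induction zs generalizing ys with
  | nil =>
    change cS (S.inV m) (FLS k S.Alg (S.lb b ys ++ [])) - 0 = _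
    rw [List.append_nil, FLS_B, cS_zero, sub_zero]
    simp only [List.length_nil, Nat.cast_zero, zero_mul, zero_smul]
    rfl
  | cons z zs ih =>
    change cS (S.inB (b z)) (FLS k S.Alg (S.lb b ys ++ (S.lb b zs ++ [S.inV m]))) -
      XLS (fun t => FLS k S.Alg (S.lb b ys ++ (S.inB (b z) :: t))) (S.lb b zs ++ [S.inV m]) = _
    have e1 : S.lb b ys ++ (S.lb b zs ++ [S.inV m]) = S.lb b (ys ++ zs) ++ [S.inV m] := by
      rw [lb_append, List.append_assoc]
    have e2 : (fun t => FLS k S.Alg (S.lb b ys ++ (S.inB (b z) :: t))) =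
        fun t => FLS k S.Alg (S.lb b (ys ++ [z]) ++ t) := by
      funext t
      rw [lb_append, List.append_assoc]
      rfl
    have hl' : ys.length + zs.length = 4 + 2 * k := by
      simp only [List.length_cons] at hl
      omega
    rw [e1, e2, hv _ (by rw [List.length_append]; exact hl'), cS_BV, hD ys z zs hl',
      ih (ys ++ [z]) (by simp only [List.length_append, List.length_cons, List.length_nil]; omega),
      inV_sub, List.append_assoc]
    congr 1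
    simp only [List.length_append, List.length_cons, List.length_nil, zero_add, List.cons_append,
      List.nil_append, Nat.cast_add, Nat.cast_one]
    rw [← sub_smul]
    congr 1
    ring

/-- The products of exterior operators applied to the generator. -/
def top (e : ι → V →+ V) (m : V) (xs : List ι) : V := xs.foldr (fun i v => e i v) m

theorem top_cons (e : ι → V →+ V) (m : V) (x : ι) (xs : List ι) :
    top e m (x :: xs) = e x (top e m xs) := rfl

/-- Exterior data on a left Cayley bimodule, first part. -/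
structure Ext0 (e : ι → V →+ V) (m : V) (κ : ℤ) : Prop where
  anti : ∀ i j xs, e i (e j (top e m xs)) = -e j (e i (top e m xs))
  comm : ∀ i j xs, S.L (b i) (S.L (b j) (top e m xs)) - S.L (b j) (S.L (b i) (top e m xs)) =
    κ • e i (e j (top e m xs))

/-- Exterior data on a left Cayley bimodule. -/
structure Ext (e : ι → V →+ V) (m : V) (κ : ℤ) (ρ : ℕ → ℤ) : Prop extends
    S.Ext0 b e m κ where
  der : ∀ i xs, S.L (b i) (top e m xs) + S.L (b i) (top e m xs) - S.t (b i) (top e m xs) =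
    ρ xs.length • e i (top e m xs)
  oddκ : Odd κ
  oddρ : ∀ r, Odd (ρ r)

variable {S b} {e : ι → V →+ V} {m : V} {κ : ℤ} {ρ : ℕ → ℤ}

theorem Ext0.E_top (h : S.Ext0 b e m κ) (i j : ι) (xs : List ι) :
    S.E (b i) (b j) (top e m xs) = -(κ • top e m (i :: j :: xs)) := by
  rw [E, ← neg_sub, h.comm]
  rfl

theorem Ext0.sw (h : S.Ext0 b e m κ) (i j : ι) (xs : List ι) :
    top e m (i :: j :: xs) = -top e m (j :: i :: xs) := h.anti i j xs

theorem Ext0.sw1 (h : S.Ext0 b e m κ) (i j k : ι) (xs : List ι) :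
    top e m (k :: i :: j :: xs) = -top e m (k :: j :: i :: xs) := by
  rw [top_cons, h.sw, map_neg, ← top_cons]

theorem Ext0.sw2 (h : S.Ext0 b e m κ) (i j k l : ι) (xs : List ι) :
    top e m (l :: k :: i :: j :: xs) = -top e m (l :: k :: j :: i :: xs) := by
  rw [top_cons, h.sw1, map_neg, ← top_cons]

theorem Ext0.move (h : S.Ext0 b e m κ) (z : ι) (ys zs : List ι) :
    e z (top e m (ys ++ zs)) = ((-1 : ℤ) ^ ys.length) • top e m (ys ++ z :: zs) := by
  induction ys with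
  | nil =>
    simp only [List.length_nil, pow_zero, one_smul, List.nil_append]
    rfl
  | cons y ys ih =>
    rw [List.cons_append, List.cons_append, top_cons, h.anti, ih, map_zsmul, ← top_cons,
      List.length_cons, pow_succ, mul_neg, mul_one, neg_smul]

/-- The coefficient of the values. -/
def Cf (κ : ℤ) (k : ℕ) : ℤ := 6 * κ ^ 2 * (-3 * κ) ^ k

theorem Ext0.val0 (h : S.Ext0 b e m κ) (x y z w : ι) :
    S.s4 b x y z w m = Cf κ 0 • top e m [x, y, z, w] := by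
  have hE : ∀ i j, S.E (b i) (b j) m = -(κ • top e m [i, j]) := fun i j => h.E_top i j []
  have hE2 : ∀ i j p q, S.E (b i) (b j) (S.E (b p) (b q) m) = (κ ^ 2) • top e m [i, j, p, q] := by
    intro i j p q
    rw [hE p q, ← neg_smul, E_zsmul, h.E_top, ← neg_smul, ← mul_smul]
    congr 1
    ring
  have r1 : top e m [x, z, y, w] = -top e m [x, y, z, w] := h.sw1 z y x [w]
  have r2 : top e m [x, w, y, z] = top e m [x, y, z, w] := by
    rw [h.sw1 w y x [z], h.sw2 w z y x [], neg_neg]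
  have r3 : top e m [y, z, x, w] = top e m [x, y, z, w] := by
    rw [h.sw1 z x y [w], h.sw y x [z, w], neg_neg]
  have r4 : top e m [y, w, x, z] = -top e m [x, y, z, w] := by
    rw [h.sw1 w x y [z], h.sw y x [w, z], h.sw2 w z y x [], neg_neg]
  have r5 : top e m [z, w, x, y] = top e m [x, y, z, w] := by
    rw [h.sw1 w x z [y], h.sw z x [w, y], h.sw2 w y z x [], h.sw1 z y x [w]]
    simp only [neg_neg]
  rw [s4, hE2, hE2, hE2, hE2, hE2, hE2, r1, r2, r3, r4, r5, Cf]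
  module

theorem Ext0.vals (h : S.Ext0 b e m κ) (k : ℕ) (x y z : ι) (xs : List ι) :
    S.E (b x) (b y) (Cf κ k • top e m (z :: xs)) + S.E (b y) (b z) (Cf κ k • top e m (x :: xs)) +
      S.E (b z) (b x) (Cf κ k • top e m (y :: xs)) = Cf κ (k + 1) • top e m (x :: y :: z :: xs) := by
  have r1 : top e m (y :: z :: x :: xs) = top e m (x :: y :: z :: xs) := by
    rw [h.sw1 z x y xs, h.sw y x (z :: xs), neg_neg]
  have r2 : top e m (z :: x :: y :: xs) = top e m (x :: y :: z :: xs) := by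
    rw [h.sw z x (y :: xs), h.sw1 z y x xs, neg_neg]
  rw [E_zsmul, E_zsmul, E_zsmul, h.E_top, h.E_top, h.E_top, r1, r2, Cf, Cf, pow_succ]
  module

theorem Ext0.FLS_eq (h : S.Ext0 b e m κ) (k : ℕ) (xs : List ι) (hx : xs.length = 4 + 2 * k) :
    FLS k S.Alg (S.lb b xs ++ [S.inV m]) = S.inV (Cf κ k • top e m xs) :=
  S.FLS_val b m (fun k xs => Cf κ k • top e m xs) h.val0 (fun k x y z xs _ => h.vals k x y z xs)
    k xs hx

theorem Ext.XLS_eq (h : S.Ext b e m κ ρ) (k : ℕ) (xs : List ι) (hx : xs.length = 5 + 2 * k) :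
    XFLS k S.Alg (S.lb b xs ++ [S.inV m]) =
      S.inV (((5 + 2 * k : ℤ) * (Cf κ k * ρ (4 + 2 * k))) • top e m xs) := by
  have := S.XLS_val b m k (fun xs => Cf κ k • top e m xs)
    (fun xs => (Cf κ k * ρ (4 + 2 * k)) • top e m xs) (h.toExt0.FLS_eq k) (fun ys z zs hl => by
      rw [map_zsmul, map_zsmul, ← smul_add, ← smul_sub, h.der, List.length_append, hl, h.toExt0.move,
        ← mul_smul, ← mul_smul, ← mul_smul]
      congr 1
      ring) xs [] (by rw [List.length_nil, zero_add]; exact hx)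
  rw [XFLS]
  rw [hx] at this
  simp only [List.length_nil, pow_zero, mul_one, List.nil_append] at this
  change XLS (fun t => FLS k S.Alg t) _ = _ at this
  rw [this, ← mul_smul]
  push_cast
  rfl

theorem FLS_zero (S : LC B V) (b : ι → B) (m : V) (h4 : ∀ x y z w, S.s4 b x y z w m = 0) (k : ℕ)
    (xs : List ι) (hx : xs.length = 4 + 2 * k) :
    FLS k S.Alg (S.lb b xs ++ [S.inV m]) = S.inV 0 :=
  S.FLS_val b m (fun _ _ => 0) h4 (fun k x y z xs _ => by
    simp only [E_zero, add_zero]) k xs hx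

theorem XLS_zero (S : LC B V) (b : ι → B) (m : V) (h4 : ∀ x y z w, S.s4 b x y z w m = 0) (k : ℕ)
    (xs : List ι) (hx : xs.length = 5 + 2 * k) :
    XFLS k S.Alg (S.lb b xs ++ [S.inV m]) = S.inV 0 := by
  have := S.XLS_val b m k (fun _ => 0) (fun _ => 0) (S.FLS_zero b m h4 k) (fun ys z zs hl => by
      simp only [map_zero, sub_zero, add_zero, smul_zero]) xs []
      (by rw [List.length_nil, zero_add]; exact hx)
  rw [smul_zero] at this
  exact this

/-- `∑ t_x (f (the other letters))`. -/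
def TS (S : LC B V) (b : ι → B) : (List ι → V) → List ι → V
  | _, [] => 0
  | f, x :: xs => S.t (b x) (f xs) + TS S b (fun l => f (x :: l)) xs

theorem D_BV (S : LC B V) (a : B) (v : V) : D (S.inB a) (S.inV v) = S.inV (S.t a v) := by
  simp only [D, inB_inV, inV_inB, inV_add]
  congr 1
  abel

/-- The values of `∑ [x, Λ (the other letters)]` with plus signs. -/
theorem XL_val (S : LC B V) (b : ι → B) (m : V) (Λ : List S.Alg → S.Alg) (val : List ι → V)
    (r : ℕ) (hB : ∀ xs, Λ (S.lb b xs) = 0)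
    (hv : ∀ xs : List ι, xs.length = r → Λ (S.lb b xs ++ [S.inV m]) = S.inV (val xs))
    (xs : List ι) (hx : xs.length = r + 1) :
    XL Λ (S.lb b xs ++ [S.inV m]) = S.inV (TS S b val xs) := by
  have key : ∀ (zs ys : List ι), ys.length + zs.length = r + 1 →
      XL (fun t => Λ (S.lb b ys ++ t)) (S.lb b zs ++ [S.inV m]) =
        S.inV (TS S b (fun l => val (ys ++ l)) zs) := by
    intro zs
    induction zs with
    | nil =>
      intro ys _
      change D (S.inV m) (Λ (S.lb b ys ++ [])) + 0 = _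
      rw [List.append_nil, hB, D_zero2, add_zero]
      rfl
    | cons z zs ih =>
      intro ys hl
      change D (S.inB (b z)) (Λ (S.lb b ys ++ (S.lb b zs ++ [S.inV m]))) +
        XL (fun t => Λ (S.lb b ys ++ (S.inB (b z) :: t))) (S.lb b zs ++ [S.inV m]) = _
      have e1 : S.lb b ys ++ (S.lb b zs ++ [S.inV m]) = S.lb b (ys ++ zs) ++ [S.inV m] := by
        rw [lb_append, List.append_assoc]
      have e2 : (fun t => Λ (S.lb b ys ++ (S.inB (b z) :: t))) =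
          fun t => Λ (S.lb b (ys ++ [z]) ++ t) := by
        funext t
        rw [lb_append, List.append_assoc]
        rfl
      have hl' : ys.length + zs.length = r := by
        simp only [List.length_cons] at hl
        omega
      have e3 : (fun l => val (ys ++ [z] ++ l)) = fun l => val (ys ++ z :: l) := by
        funext l
        rw [List.append_assoc]
        rfl
      rw [e1, e2, hv _ (by rw [List.length_append]; exact hl'), D_BV,
        ih (ys ++ [z]) (by simp only [List.length_append, List.length_cons, List.length_nil]; omega),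
        inV_add, e3]
      rfl
  exact key xs [] (by rw [List.length_nil, zero_add]; exact hx)

theorem TS_zero (S : LC B V) (b : ι → B) (xs : List ι) : TS S b (fun _ => 0) xs = 0 := by
  induction xs with
  | nil => rfl
  | cons x xs ih =>
    change S.t (b x) 0 + TS S b (fun _ => 0) xs = 0
    rw [ih, map_zero, add_zero]

theorem Ext0.XL_eq (h : S.Ext0 b e m κ) (k : ℕ) (xs : List ι) (hx : xs.length = 5 + 2 * k) :
    XL (FLS k S.Alg) (S.lb b xs ++ [S.inV m]) =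
      S.inV (TS S b (fun l => Cf κ k • top e m l) xs) :=
  S.XL_val b m _ _ (4 + 2 * k) (S.FLS_B b k) (h.FLS_eq k) xs (by omega)

theorem XL_zero (S : LC B V) (b : ι → B) (m : V) (h4 : ∀ x y z w, S.s4 b x y z w m = 0) (k : ℕ)
    (xs : List ι) (hx : xs.length = 5 + 2 * k) :
    XL (FLS k S.Alg) (S.lb b xs ++ [S.inV m]) = S.inV 0 := by
  rw [S.XL_val b m _ (fun _ => 0) (4 + 2 * k) (S.FLS_B b k) (S.FLS_zero b m h4 k) xs (by omega),
    TS_zero]

end LC

section Glue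

variable {B₁ V₁ B₂ V₂ ι : Type} [NonUnitalRing B₁] [AddCommGroup V₁] [NonUnitalRing B₂]
  [AddCommGroup V₂] (S₁ : LC B₁ V₁) (S₂ : LC B₂ V₂) (b₁ : ι → B₁) (b₂ : ι → B₂)
  (G : V₁ →+ ℤ) (F : V₂ →+ ℤ) (N : ℤ) (m₁ : V₁) (m₂ : V₂) (hm : GV S₁ S₂ b₁ b₂ G F N m₁ m₂)

/-- The argument lists in the glued ring. -/
def ll (xs : List ι) : List (Gl S₁ S₂ b₁ b₂ G F N) :=
  xs.map (lett S₁ S₂ b₁ b₂ G F N) ++ [gen S₁ S₂ b₁ b₂ G F N m₁ m₂ hm]

theorem ll_length (xs : List ι) : (ll S₁ S₂ b₁ b₂ G F N m₁ m₂ hm xs).length = xs.length + 1 := by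
  simp [ll]

theorem map_pr₁ (xs : List ι) : (ll S₁ S₂ b₁ b₂ G F N m₁ m₂ hm xs).map (pr₁ S₁ S₂ b₁ b₂ G F N) =
    S₁.lb b₁ xs ++ [S₁.inV m₁] := by
  rw [ll, List.map_append, List.map_map]
  rfl

theorem map_pr₂ (xs : List ι) : (ll S₁ S₂ b₁ b₂ G F N m₁ m₂ hm xs).map (pr₂ S₁ S₂ b₁ b₂ G F N) =
    S₂.lb b₂ xs ++ [S₂.inV m₂] := by
  rw [ll, List.map_append, List.map_map]
  rfl

variable {S₁ S₂ b₁ b₂ G F N m₁ m₂}

/-- The functional on a value of a natural family. -/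
theorem N_lG_of (xs : List ι) (Q : List (Gl S₁ S₂ b₁ b₂ G F N) → Gl S₁ S₂ b₁ b₂ G F N)
    (Q₁ : List S₁.Alg → S₁.Alg) (Q₂ : List S₂.Alg → S₂.Alg)
    (h₁ : ∀ l, pr₁ S₁ S₂ b₁ b₂ G F N (Q l) = Q₁ (l.map (pr₁ S₁ S₂ b₁ b₂ G F N)))
    (h₂ : ∀ l, pr₂ S₁ S₂ b₁ b₂ G F N (Q l) = Q₂ (l.map (pr₂ S₁ S₂ b₁ b₂ G F N)))
    {v₁ : V₁} {v₂ : V₂} (hv₁ : Q₁ (S₁.lb b₁ xs ++ [S₁.inV m₁]) = S₁.inV v₁)
    (hv₂ : Q₂ (S₂.lb b₂ xs ++ [S₂.inV m₂]) = S₂.inV v₂) :
    N * lG S₁ S₂ b₁ b₂ G F N (Q (ll S₁ S₂ b₁ b₂ G F N m₁ m₂ hm xs)) = F v₂ - G v₁ := by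
  have e1 := N_lG S₁ S₂ b₁ b₂ G F N (Q (ll S₁ S₂ b₁ b₂ G F N m₁ m₂ hm xs))
  have e2 : (Q (ll S₁ S₂ b₁ b₂ G F N m₁ m₂ hm xs)).1.1 = S₁.inV v₁ := by
    change pr₁ S₁ S₂ b₁ b₂ G F N _ = _
    rw [h₁, map_pr₁, hv₁]
  have e3 : (Q (ll S₁ S₂ b₁ b₂ G F N m₁ m₂ hm xs)).1.2 = S₂.inV v₂ := by
    change pr₂ S₁ S₂ b₁ b₂ G F N _ = _
    rw [h₂, map_pr₂, hv₂]
  rw [e2, e3] at e1
  exact e1

theorem N_lG_FLS (k : ℕ) (xs : List ι) {v₁ : V₁} {v₂ : V₂}
    (hv₁ : FLS k S₁.Alg (S₁.lb b₁ xs ++ [S₁.inV m₁]) = S₁.inV v₁)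
    (hv₂ : FLS k S₂.Alg (S₂.lb b₂ xs ++ [S₂.inV m₂]) = S₂.inV v₂) :
    N * lG S₁ S₂ b₁ b₂ G F N (FLS k _ (ll S₁ S₂ b₁ b₂ G F N m₁ m₂ hm xs)) = F v₂ - G v₁ :=
  N_lG_of hm xs _ _ _ (map_FLS k _) (map_FLS k _) hv₁ hv₂

theorem N_lG_XL (k : ℕ) (xs : List ι) {v₁ : V₁} {v₂ : V₂}
    (hv₁ : XL (FLS k S₁.Alg) (S₁.lb b₁ xs ++ [S₁.inV m₁]) = S₁.inV v₁)
    (hv₂ : XL (FLS k S₂.Alg) (S₂.lb b₂ xs ++ [S₂.inV m₂]) = S₂.inV v₂) :
    N * lG S₁ S₂ b₁ b₂ G F N (XL (FLS k _) (ll S₁ S₂ b₁ b₂ G F N m₁ m₂ hm xs)) = F v₂ - G v₁ :=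
  N_lG_of hm xs _ _ _ (map_XL _ _ _ (map_FLS k _)) (map_XL _ _ _ (map_FLS k _)) hv₁ hv₂

theorem XL_cg' {A : Type*} [NonUnitalNonAssocRing A] (L L' : List A → A)
    (h : ∀ xs, Cg (L xs) (L' xs)) (xs : List A) : Cg (XL L xs) (XL L' xs) := by
  induction xs generalizing L L' with
  | nil => exact Cg.rfl' 0
  | cons x xs ih =>
    exact (((Cg.rfl' x).mul (h xs)).add ((h xs).mul (Cg.rfl' x))).add
      (ih _ _ (fun t => h (x :: t)))

/-- The plus sign form of `[X, f]` for the signed family. -/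
theorem odd_XL_of {A : Type} [NonUnitalNonAssocRing A] (l : A →+ ℤ) (k : ℕ) (xs : List A)
    (h : Odd (l (XL (FLS k A) xs))) : Odd (l (XFL k A xs)) :=
  odd_of_cg l (XL_cg' _ _ (FL_cg k) xs) h

theorem odd_FL_of {A : Type} [NonUnitalNonAssocRing A] (l : A →+ ℤ) (k : ℕ) (xs : List A)
    (h : Odd (l (FLS k A xs))) : Odd (l (FL k A xs)) :=
  odd_of_cg l (FL_cg k xs) h

variable {e : ι → V₂ →+ V₂} {κ : ℤ} {ρ : ℕ → ℤ}

theorem odd_Cf (hκ : Odd κ) (k : ℕ) : ∃ c : ℤ, Odd c ∧ LC.Cf κ k = 2 * c := by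
  refine ⟨3 * κ ^ 2 * (-3 * κ) ^ k, ?_, by rw [LC.Cf]; ring⟩
  exact (Odd.mul (by decide) hκ.pow).mul (Odd.pow (Odd.mul (by decide) hκ))

theorem odd_FL (hm : GV S₁ S₂ b₁ b₂ G F 2 m₁ m₂)
    (h4 : ∀ x y z w, S₁.s4 b₁ x y z w m₁ = 0) (h : S₂.Ext b₂ e m₂ κ ρ) (k : ℕ)
    (xs : List ι) (hx : xs.length = 4 + 2 * k) (hF : Odd (F (LC.top e m₂ xs))) :
    Odd (lG S₁ S₂ b₁ b₂ G F 2 (FL k (Gl S₁ S₂ b₁ b₂ G F 2) (ll S₁ S₂ b₁ b₂ G F 2 m₁ m₂ hm xs))) := by
  refine odd_of_cg _ (FL_cg k _) ?_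
  have e1 := N_lG S₁ S₂ b₁ b₂ G F 2
    (FLS k (Gl S₁ S₂ b₁ b₂ G F 2) (ll S₁ S₂ b₁ b₂ G F 2 m₁ m₂ hm xs))
  have e2 : (FLS k (Gl S₁ S₂ b₁ b₂ G F 2) (ll S₁ S₂ b₁ b₂ G F 2 m₁ m₂ hm xs)).1.1 = S₁.inV 0 := by
    change pr₁ S₁ S₂ b₁ b₂ G F 2 _ = _
    rw [map_FLS, map_pr₁, LC.FLS_zero S₁ b₁ m₁ h4 k xs hx]
  have e3 : (FLS k (Gl S₁ S₂ b₁ b₂ G F 2) (ll S₁ S₂ b₁ b₂ G F 2 m₁ m₂ hm xs)).1.2 =
      S₂.inV (LC.Cf κ k • LC.top e m₂ xs) := by
    change pr₂ S₁ S₂ b₁ b₂ G F 2 _ = _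
    rw [map_FLS, map_pr₂, h.toExt0.FLS_eq k xs hx]
  obtain ⟨c, hc, hc'⟩ := odd_Cf h.oddκ k
  rw [e2, e3] at e1
  change _ = F (LC.Cf κ k • LC.top e m₂ xs) - G 0 at e1
  rw [map_zsmul, map_zero, sub_zero, hc', smul_eq_mul, mul_assoc] at e1
  have e4 := mul_left_cancel₀ (two_ne_zero) e1
  rw [e4]
  exact hc.mul hF

theorem odd_XFL (hm : GV S₁ S₂ b₁ b₂ G F 2 m₁ m₂)
    (h4 : ∀ x y z w, S₁.s4 b₁ x y z w m₁ = 0) (h : S₂.Ext b₂ e m₂ κ ρ) (k : ℕ)
    (xs : List ι) (hx : xs.length = 5 + 2 * k) (hF : Odd (F (LC.top e m₂ xs))) :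
    Odd (lG S₁ S₂ b₁ b₂ G F 2 (XFL k (Gl S₁ S₂ b₁ b₂ G F 2) (ll S₁ S₂ b₁ b₂ G F 2 m₁ m₂ hm xs))) := by
  refine odd_of_cg _ (XFL_cg k _) ?_
  have e1 := N_lG S₁ S₂ b₁ b₂ G F 2
    (XFLS k (Gl S₁ S₂ b₁ b₂ G F 2) (ll S₁ S₂ b₁ b₂ G F 2 m₁ m₂ hm xs))
  have e2 : (XFLS k (Gl S₁ S₂ b₁ b₂ G F 2) (ll S₁ S₂ b₁ b₂ G F 2 m₁ m₂ hm xs)).1.1 = S₁.inV 0 := by
    change pr₁ S₁ S₂ b₁ b₂ G F 2 _ = _
    rw [map_XFLS, map_pr₁, LC.XLS_zero S₁ b₁ m₁ h4 k xs hx]
  have e3 : (XFLS k (Gl S₁ S₂ b₁ b₂ G F 2) (ll S₁ S₂ b₁ b₂ G F 2 m₁ m₂ hm xs)).1.2 =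
      S₂.inV (((5 + 2 * k : ℤ) * (LC.Cf κ k * ρ (4 + 2 * k))) • LC.top e m₂ xs) := by
    change pr₂ S₁ S₂ b₁ b₂ G F 2 _ = _
    rw [map_XFLS, map_pr₂, h.XLS_eq k xs hx]
  obtain ⟨c, hc, hc'⟩ := odd_Cf h.oddκ k
  rw [e2, e3] at e1
  change _ = F (((5 + 2 * k : ℤ) * (LC.Cf κ k * ρ (4 + 2 * k))) • LC.top e m₂ xs) - G 0 at e1
  rw [map_zsmul, map_zero, sub_zero, hc', smul_eq_mul,
    show (5 + 2 * (k : ℤ)) * (2 * c * ρ (4 + 2 * k)) * F (LC.top e m₂ xs) =
      2 * ((5 + 2 * (k : ℤ)) * (c * ρ (4 + 2 * k)) * F (LC.top e m₂ xs)) by ring] at e1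
  have e4 := mul_left_cancel₀ (two_ne_zero) e1
  rw [e4]
  have h5 : Odd (5 + 2 * (k : ℤ)) := ⟨2 + k, by ring⟩
  exact (h5.mul (hc.mul (h.oddρ _))).mul hF

end Glue

end MP6489b8.AF
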