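import Mathlib
import Pool.Agent.Lib.MP_6489b8_al.AF.Asm
import Pool.Agent.Lib.MP_6489b8_al.MD.Final

/-!
# All steps are strict if the ring of operators has an element of additive order two
-/

namespace MP6489b8.AF

open MP6489b8 MP6489b8.CT

universe u

/-- If `Φ` has an element `s ≠ 0` with `2 s = 0`, then every step from `Alt_m(Φ)` to
`Alt_{m+1}(Φ)` with `m ≥ 4` is strict. -/
theorem strictStep_of_two_torsion (Φ : Type u) [CommRing Φ] (s : Φ) (hs : s * 2 = 0)
    (h0 : s ≠ 0) (m : ℕ) (hm : 4 ≤ m) : StrictStep Φ m := by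
  rcases Nat.even_or_odd m with he | ho
  · obtain ⟨k, hk⟩ : ∃ k, m = 4 + 2 * k := by
      obtain ⟨r, hr⟩ := he
      exact ⟨r - 2, by omega⟩
    subst hk
    obtain ⟨A, iA, hA, l, xs, hx, hodd⟩ := MD.model_FL k
    exact @strict_even k A iA hA l xs hx hodd Φ _ s hs h0
  · obtain ⟨k, hk⟩ : ∃ k, m = 5 + 2 * k := by
      obtain ⟨r, hr⟩ := ho
      exact ⟨r - 2, by omega⟩
    subst hk
    obtain ⟨A, iA, hA, l, xs, hx, hodd⟩ := MD.model_XFL k
    exact @strict_odd k A iA hA l xs hx hodd Φ _ s hs h0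

theorem exists_two_torsion {Φ : Type*} [CommRing Φ] [Nontrivial Φ] (h : IsNilpotent (2 : Φ)) :
    ∃ s : Φ, s * 2 = 0 ∧ s ≠ 0 := by
  classical
  obtain ⟨N, hN⟩ := h
  have hex : ∃ N : ℕ, (2 : Φ) ^ N = 0 := ⟨N, hN⟩
  have h0 : Nat.find hex ≠ 0 := by
    intro h0
    have := Nat.find_spec hex
    rw [h0, pow_zero] at this
    exact one_ne_zero this
  obtain ⟨k, hk⟩ := Nat.exists_eq_succ_of_ne_zero h0
  refine ⟨2 ^ k, ?_, ?_⟩
  · rw [← pow_succ, ← Nat.succ_eq_add_one, ← hk]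
    exact Nat.find_spec hex
  · exact Nat.find_min hex (by omega)

/-- All steps with `m ≥ 4` are strict if `2` is nilpotent in the nontrivial ring `Φ`. -/
theorem strictStep_of_nilpotent (Φ : Type u) [CommRing Φ] [Nontrivial Φ]
    (h : IsNilpotent (2 : Φ)) (m : ℕ) (hm : 4 ≤ m) : StrictStep Φ m := by
  obtain ⟨s, hs, h0⟩ := exists_two_torsion h
  exact strictStep_of_two_torsion Φ s hs h0 m hm

end MP6489b8.AF
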